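import Pool.Agent.Helper34.RB.Defs
import Pool.Agent.Helper16.UB.Defs

/-!
# RB-29: from bounded families to admissible sets

Put the proof into this file (keep the statement and the namespace).
-/

open Finset

namespace Pool.Agent.Helper34.RB

/-- the primes `p > y` dividing `a`, as elements of `Fin (N + 1)` -/
def Sof (y N a : ℕ) : Finset (Fin (N + 1)) :=
  univ.filter fun p => (p : ℕ).Prime ∧ y < (p : ℕ) ∧ (p : ℕ) ∣ a

/-- Proof. `A ⊆ Icc 1 N` by `hA`.  Let `m > 0` and let `Z` be the set of pairs `(p, a)` in `R A m`;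
`a = m / p` is determined by `p`, so `Z` is in bijection with the set `Q` of the primes `p ∣ m` with
`m / p ∈ A` (a finite set, `Q ⊆ m.primeFactors`), and `R A m = Q.card`
(`Set.ncard_image_of_injOn`, `Set.ncard_eq_toFinset_card'` or `Set.ncard_le_ncard`).
The elements `p ≤ y` of `Q` are at most `y` (`Q.filter (· ≤ y) ⊆ Icc 1 y`).  Show that
`Q' = Q.filter (y < ·)` has at most `r0` elements.
* If some `p ∈ Q'` has `p ∣ m / p` (so `p ^ 2 ∣ m`) or `N < p`: then `Q'.card ≤ 1 ≤ r0`.  Indeed for
  `p' ∈ Q'`, `p' ≠ p`, `b = m / p'`: in the first case `p ^ 2 ∣ b * p'` and `p ^ 2` is coprime to `p'`,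
  so `p ^ 2 ∣ b ∈ A`, contradiction; in the second case `p ∣ b * p'`, so `p ∣ b ≤ N < p`,
  contradiction (`b ≥ 1`).
* Otherwise all `p ∈ Q'` satisfy `p ≤ N` and `¬ p ∣ m / p`.  Let `T = Sof y N m`.  For `p ∈ Q'`, seen
  in `Fin (N + 1)`, `p ∈ T` and `Sof y N (m / p) = T.erase p`: a prime `p' ≠ p` divides `m` iff it
  divides `m / p`, and `p` does not divide `m / p`.  So `F (T.erase p)` holds, and `Q'` injects
  into `T.filter fun x => F (T.erase x)`, which has at most `r0` elements by `hF T`. -/
theorem adm {N y r0 : ℕ} (hr0 : 1 ≤ r0) (F : Finset (Fin (N + 1)) → Prop) (hF : Bdd r0 F)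
    (A : Finset ℕ) (hA : ∀ a ∈ A, 1 ≤ a ∧ a ≤ N ∧ (∀ p, p.Prime → y < p → ¬ p ^ 2 ∣ a) ∧
      F (Sof y N a)) :
    Helper16.UB.Admissible (r0 + y) N A := by
  classical
  refine ⟨fun a ha => mem_Icc.mpr ⟨(hA a ha).1, (hA a ha).2.1⟩, fun m hm => ?_⟩
  set Q : Finset ℕ := m.primeFactors.filter (fun p => m / p ∈ A) with hQ
  have hQmem : ∀ p, p ∈ Q ↔ p.Prime ∧ p ∣ m ∧ m / p ∈ A := by
    intro p
    rw [hQ, mem_filter, Nat.mem_primeFactors]
    constructor
    · rintro ⟨⟨h1, h2, _⟩, h3⟩
      exact ⟨h1, h2, h3⟩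
    · rintro ⟨h1, h2, h3⟩
      exact ⟨⟨h1, h2, hm.ne'⟩, h3⟩
  have hR : Helper16.UB.R A m ≤ Q.card := by
    unfold Helper16.UB.R
    rw [← Set.ncard_coe_finset]
    refine Set.ncard_le_ncard_of_injOn (fun x : ℕ × ℕ => x.1) ?_ ?_ (Finset.finite_toSet Q)
    · rintro ⟨p, a⟩ ⟨h1, h2, h3⟩
      simp only at h1 h2 h3
      rw [mem_coe, hQmem]
      refine ⟨h1, ⟨a, h3⟩, ?_⟩
      rw [h3, Nat.mul_div_cancel_left _ h1.pos]
      exact h2
    · rintro ⟨p, a⟩ ⟨h1, h2, h3⟩ ⟨p', a'⟩ ⟨h1', h2', h3'⟩ h
      simp only at h1 h2 h3 h1' h2' h3' h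
      subst h
      have : a = a' := Nat.eq_of_mul_eq_mul_left h1.pos (h3.symm.trans h3')
      rw [this]
  refine hR.trans ?_
  rw [← Finset.card_filter_add_card_filter_not (s := Q) (fun p => y < p)]
  refine Nat.add_le_add ?_ ?_
  · set Q' := Q.filter (fun p => y < p) with hQ'
    by_cases hc : ∃ p ∈ Q', p ∣ m / p ∨ N < p
    · obtain ⟨p, hp, hpc⟩ := hc
      have hp' := mem_filter.mp hp
      obtain ⟨hpp, hpm, hpA⟩ := (hQmem p).mp hp'.1
      have hyp : y < p := hp'.2
      have hsub : Q' ⊆ {p} := by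
        intro p' hp2
        rw [mem_singleton]
        by_contra hne
        have hp2' := mem_filter.mp hp2
        obtain ⟨h1, h2, h3⟩ := (hQmem p').mp hp2'.1
        have hb : m / p' * p' = m := Nat.div_mul_cancel h2
        obtain ⟨hb1, hb2, hb3, -⟩ := hA _ h3
        rcases hpc with hpc | hpc
        · have h4 : p ^ 2 ∣ m := by
            have h5 : p * p ∣ m / p * p := Nat.mul_dvd_mul_right hpc p
            rw [Nat.div_mul_cancel hpm] at h5
            rw [pow_two]
            exact h5
          rw [← hb] at h4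
          have h6 : Nat.Coprime (p ^ 2) p' :=
            Nat.Coprime.pow_left 2 ((Nat.coprime_primes hpp h1).mpr (Ne.symm hne))
          exact hb3 p hpp hyp (h6.dvd_of_dvd_mul_right h4)
        · have h4 : p ∣ m / p' * p' := by rw [hb]; exact hpm
          have h6 : Nat.Coprime p p' := (Nat.coprime_primes hpp h1).mpr (Ne.symm hne)
          have h7 := Nat.le_of_dvd (by omega) (h6.dvd_of_dvd_mul_right h4)
          omega
      calc Q'.card ≤ ({p} : Finset ℕ).card := card_le_card hsub
        _ = 1 := card_singleton p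
        _ ≤ r0 := hr0
    · push Not at hc
      set T := Sof y N m with hT
      refine le_trans ?_ (hF T)
      have hval : ∀ p ∈ Q', ((Fin.ofNat (N + 1) p : Fin (N + 1)) : ℕ) = p := by
        intro p hp
        have := (hc p hp).2
        change p % (N + 1) = p
        exact Nat.mod_eq_of_lt (by omega)
      apply Finset.card_le_card_of_injOn (fun p => Fin.ofNat (N + 1) p)
      · intro p hp
        have hpQ : p ∈ Q' := mem_coe.mp hp
        have hv := hval p hpQ
        have hp' := mem_filter.mp hpQ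
        obtain ⟨hpp, hpm, hpA⟩ := (hQmem p).mp hp'.1
        have hpT : (Fin.ofNat (N + 1) p : Fin (N + 1)) ∈ T := by
          rw [hT]
          unfold Sof
          rw [mem_filter, hv]
          exact ⟨mem_univ _, hpp, hp'.2, hpm⟩
        have hS : Sof y N (m / p) = T.erase (Fin.ofNat (N + 1) p) := by
          ext x
          rw [mem_erase, hT]
          unfold Sof
          rw [mem_filter, mem_filter]
          constructor
          · rintro ⟨-, h1, h2, h3⟩
            refine ⟨?_, mem_univ _, h1, h2, h3.trans (Nat.div_dvd_of_dvd hpm)⟩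
            rintro rfl
            rw [hv] at h3
            exact (hc p hpQ).1 h3
          · rintro ⟨h0, -, h1, h2, h3⟩
            refine ⟨mem_univ _, h1, h2, ?_⟩
            have hne : (x : ℕ) ≠ p := by
              intro h
              apply h0
              apply Fin.ext
              rw [hv]
              exact h
            have h4 : (x : ℕ) ∣ m / p * p := by rw [Nat.div_mul_cancel hpm]; exact h3
            exact ((Nat.coprime_primes h1 hpp).mpr hne).dvd_of_dvd_mul_right h4
        refine mem_coe.mpr (mem_filter.mpr ⟨hpT, ?_⟩)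
        rw [← hS]
        exact (hA _ hpA).2.2.2
      · intro p hp p' hp' h
        have h1 := hval p (mem_coe.mp hp)
        have h2 := hval p' (mem_coe.mp hp')
        rw [← h1, ← h2]
        exact congrArg _ h
  · have hsub : Q.filter (fun p => ¬ y < p) ⊆ Icc 1 y := by
      intro p hp
      have hp' := mem_filter.mp hp
      have := ((hQmem p).mp hp'.1).1.pos
      exact mem_Icc.mpr ⟨this, by omega⟩
    calc _ ≤ (Icc 1 y).card := card_le_card hsub
      _ = y := by rw [Nat.card_Icc]; omega

end Pool.Agent.Helper34.RB
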