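import Pool.Agent.Helper34.RB.Exc

/-!
# RB-03: number of the light and of the heavy deletions with a given value

Put the proofs into this file (keep the statements and the namespace).
-/

open Finset

namespace Pool.Agent.Helper34.RB

section

variable {X κ : Type} [LinearOrder X] [DecidableEq κ] {h : X → κ} {T : Finset X} {τ : ℕ}

/-- Proof. The set is contained in the union, over the at most `A` cells `b` with `β b = v` and
`ld h T b ≤ τ`, of `cell h T b`, which has `ld h T b ≤ τ` elements (`Finset.card_biUnion_le`,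
`Finset.sum_le_card_nsmul`). -/
theorem light_card [Fintype κ] {β : κ → ℕ} {A : ℕ}
    (hA : ∀ v, (univ.filter fun b => β b = v).card ≤ A) (v : ℕ) :
    (T.filter fun x => ld h T (h x) ≤ τ ∧ β (h x) = v).card ≤ A * τ := by
  have hsub : (T.filter fun x => ld h T (h x) ≤ τ ∧ β (h x) = v) ⊆
      (univ.filter fun b => β b = v ∧ ld h T b ≤ τ).biUnion fun b => cell h T b := by
    intro x hx
    rw [mem_filter] at hx
    rw [mem_biUnion]
    exact ⟨h x, mem_filter.2 ⟨mem_univ _, hx.2.2, hx.2.1⟩, mem_filter.2 ⟨hx.1, rfl⟩⟩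
  have h1 : (univ.filter fun b => β b = v ∧ ld h T b ≤ τ).card ≤ A :=
    (card_le_card fun b hb => mem_filter.2 ⟨mem_univ _, (mem_filter.1 hb).2.1⟩).trans (hA v)
  calc (T.filter fun x => ld h T (h x) ≤ τ ∧ β (h x) = v).card
      ≤ ((univ.filter fun b => β b = v ∧ ld h T b ≤ τ).biUnion fun b => cell h T b).card :=
        card_le_card hsub
    _ ≤ ∑ b ∈ univ.filter fun b => β b = v ∧ ld h T b ≤ τ, (cell h T b).card := card_biUnion_le
    _ ≤ (univ.filter fun b => β b = v ∧ ld h T b ≤ τ).card • τ :=
        sum_le_card_nsmul _ _ _ fun b hb => (mem_filter.1 hb).2.2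
    _ ≤ A * τ := by
        rw [smul_eq_mul]
        exact Nat.mul_le_mul_right _ h1

open Classical in
/-- Proof. For a heavy `x` let `z x` be the element given by `exc_heavy`
(use `choose`/`Classical.choose`, or define `Z` and use
`Finset.card_le_mul_card_image_of_maps_to` with the map `fun x => if hx : _ then _ else x`).  It maps
the set on the left into
`Z = (exc h τ T).filter fun z => good ((exc h τ T).erase z) ∧ g ((exc h τ T).erase z) = w`, and
`Z.card ≤ A0` by `hB (exc h τ T) w`.  For given `z`, every `x` with `z x = z` is in the cell of `z`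
and `max (rk h T x) τ = rk h T z`: if `τ < rk h T z` then `rk h T x = rk h T z`, else
`rk h T x ≤ τ`; in both cases the (injective, `rk_inj`) map `rk h T` sends these `x` to a set with at
most `τ + 1` elements (`{rk h T z}` or `range (τ + 1)`). -/
theorem heavy_card {A0 : ℕ} {good : Finset X → Prop} {g : Finset X → ℕ} (hB : BddCol A0 good g)
    (w : ℕ) :
    (T.filter fun x => τ < ld h T (h x) ∧ good (exc h τ (T.erase x)) ∧
      g (exc h τ (T.erase x)) = w).card ≤ A0 * (τ + 1) := by
  have hex : ∀ x : X, ∃ z : X, x ∈ T → τ < ld h T (h x) → z ∈ exc h τ T ∧ h z = h x ∧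
      rk h T z = max (rk h T x) τ ∧ exc h τ (T.erase x) = (exc h τ T).erase z := by
    intro x
    by_cases hx : x ∈ T ∧ τ < ld h T (h x)
    · obtain ⟨z, h1, h2, h3, h4⟩ := exc_heavy (h := h) (τ := τ) hx.1 hx.2
      exact ⟨z, fun _ _ => ⟨h1, h2, h3, h4⟩⟩
    · exact ⟨x, fun h1 h2 => absurd ⟨h1, h2⟩ hx⟩
  choose f hf using hex
  have hZ := hB (exc h τ T) w
  refine (Finset.card_le_mul_card_image_of_maps_to (f := f)
    (t := (exc h τ T).filter fun z => good ((exc h τ T).erase z) ∧
      g ((exc h τ T).erase z) = w) ?_ (τ + 1) ?_).trans ?_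
  · intro x hx
    rw [mem_filter] at hx
    obtain ⟨hxT, hl, hgood, hg⟩ := hx
    obtain ⟨h1, _, _, h4⟩ := hf x hxT hl
    rw [h4] at hgood hg
    exact mem_filter.2 ⟨h1, hgood, hg⟩
  · intro z _
    by_cases hz : τ < rk h T z
    · refine (card_le_card (t := {z}) fun x hx => ?_).trans ?_
      · rw [mem_filter, mem_filter] at hx
        obtain ⟨⟨hxT, hl, _, _⟩, hfx⟩ := hx
        obtain ⟨h1, h2, h3, _⟩ := hf x hxT hl
        rw [hfx] at h1 h2 h3
        rw [mem_singleton]
        refine rk_inj (h := h) hxT (mem_filter.1 h1).1 h2.symm ?_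
        rcases max_cases (rk h T x) τ with ⟨h4, _⟩ | ⟨h4, _⟩ <;> omega
      · rw [card_singleton]
        omega
    · have h0 : τ + 1 = (range (τ + 1)).card := (card_range _).symm
      rw [h0]
      refine card_le_card_of_injOn (fun x => rk h T x) (fun x hx => ?_) fun x hx y hy hxy => ?_
      · rw [mem_coe, mem_filter, mem_filter] at hx
        obtain ⟨⟨hxT, hl, _, _⟩, hfx⟩ := hx
        obtain ⟨_, _, h3, _⟩ := hf x hxT hl
        rw [hfx] at h3
        rw [mem_coe, mem_range]
        have := le_max_left (rk h T x) τ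
        change rk h T x < τ + 1
        omega
      · rw [mem_coe, mem_filter, mem_filter] at hx hy
        obtain ⟨⟨hxT, hl, _, _⟩, hfx⟩ := hx
        obtain ⟨⟨hyT, hl', _, _⟩, hfy⟩ := hy
        obtain ⟨_, h2, _, _⟩ := hf x hxT hl
        obtain ⟨_, h2', _, _⟩ := hf y hyT hl'
        rw [hfx] at h2
        rw [hfy] at h2'
        exact rk_inj (h := h) hxT hyT (h2.symm.trans h2') hxy
  · rw [mul_comm]
    exact Nat.mul_le_mul_right _ hZ

end

end Pool.Agent.Helper34.RB
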