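import Pool.Agent.Helper34.RB.Rank

/-!
# RB-02: the potential of the main cells after a deletion

Put the proofs into this file (keep the statements and the namespace).
-/

open Finset

namespace Pool.Agent.Helper34.RB

section

variable {X κ : Type} [LinearOrder X] [DecidableEq κ] [Fintype κ] {h : X → κ} {T : Finset X}
  {x : X} {τ : ℕ} {β : κ → ℕ}

/-- Proof. Split the term `b = h x` off both sums (`Finset.add_sum_erase`, or
`Finset.sum_eq_sum_diff_singleton_add`); for `b ≠ h x` the loads agree (`ld_erase_ne`); for
`b = h x`: `ld h (T.erase x) (h x) + 1 = ld h T (h x)` (`ld_erase_self`) and both are `≤ τ`. -/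
theorem pot_light (hx : x ∈ T) (hl : ld h T (h x) ≤ τ) :
    pot h β τ T = pot h β τ (T.erase x) + β (h x) := by
  unfold pot
  have h1 := ld_erase_self (h := h) hx
  rw [← Finset.add_sum_erase univ (fun b => β b * min (ld h T b) τ) (mem_univ (h x)),
    ← Finset.add_sum_erase univ (fun b => β b * min (ld h (T.erase x) b) τ) (mem_univ (h x))]
  have h2 : ∑ b ∈ univ.erase (h x), β b * min (ld h T b) τ =
      ∑ b ∈ univ.erase (h x), β b * min (ld h (T.erase x) b) τ := by
    apply Finset.sum_congr rfl
    intro b hb
    rw [ld_erase_ne (ne_of_mem_erase hb)]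
  rw [h2]
  have h3 : min (ld h T (h x)) τ = ld h (T.erase x) (h x) + 1 := by omega
  have h4 : min (ld h (T.erase x) (h x)) τ = ld h (T.erase x) (h x) := by omega
  simp only [h3, h4]
  ring

/-- Proof. All terms agree: for `b = h x` both loads are `≥ τ`, so both minima are `τ`. -/
theorem pot_heavy (hx : x ∈ T) (hh : τ < ld h T (h x)) :
    pot h β τ (T.erase x) = pot h β τ T := by
  unfold pot
  apply Finset.sum_congr rfl
  intro b _
  by_cases hb : b = h x
  · subst hb
    have h1 := ld_erase_self (h := h) hx
    have h3 : min (ld h T (h x)) τ = τ := by omega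
    have h4 : min (ld h (T.erase x) (h x)) τ = τ := by omega
    rw [h3, h4]
  · rw [ld_erase_ne hb]

end

end Pool.Agent.Helper34.RB
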