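import Pool.Agent.Helper34.RB.AmpCount
import Pool.Agent.Helper34.RB.Pot

/-!
# RB-04: the amplification is bounded

Put the proof into this file (keep the statement and the namespace).
-/

open Finset

namespace Pool.Agent.Helper34.RB

/-- Proof.  Write `v E = pot h β τ E + (K0 + K') * (exc h τ E).card + g (exc h τ E)` and
`m = K0 + 2 K'`.  Let `T` be given, `W = pot h β τ T + (K0 + K') * (exc h τ T).card`.  Let `x ∈ T`,
`E = T.erase x`.
* light `x` (`ld h T (h x) ≤ τ`): `exc h τ E = exc h τ T` (`exc_light`) and
  `pot h β τ T = pot h β τ E + β (h x)` (`pot_light`), so `v E + β (h x) = W + g (exc h τ T)` with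
  `1 ≤ β (h x) ≤ K0` and `g < K'`: `W ≤ v E + K0` and `v E + 1 < W + K'`.
* heavy `x`: `pot h β τ E = pot h β τ T` (`pot_heavy`) and `(exc h τ E).card + 1 = (exc h τ T).card`
  (`exc_heavy`, `card_erase_add_one`), so `v E + (K0 + K') = W + g (exc h τ E)`, hence
  `W ≤ v E + K0 + K'` and `v E + K0 < W`.
So all these `v E` lie in the interval `[W - K0 - K', W + K' - 2]`, of length less than `m`: if
`v E % m = v E' % m` for two deletions, then `v E = v E'` (`Nat.ModEq`,
`Nat.sub_mod_eq_zero_of_mod_eq` / `omega` after `Nat.div_add_mod`), and a light and a heavy deletion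
never have the same value (`v E + K0 ≥ W` for light, `< W` for heavy).

Let `S = T.filter (fun x => good (exc h τ (T.erase x)) ∧ v (T.erase x) % m = c)`.  If `S = ∅`, done.
Otherwise choose `x0 ∈ S`.  All `x ∈ S` have `v (T.erase x) = v (T.erase x0)`.
* If `x0` is light, so are all `x ∈ S`, and `β (h x) = β (h x0)`: `S` is contained in the set of
  `light_card` with `v = β (h x0)`, so `S.card ≤ A * τ`.
* If `x0` is heavy, so are all `x ∈ S`, and `g (exc h τ (T.erase x)) = g (exc h τ (T.erase x0))`:
  `S` is contained in the set of `heavy_card`, so `S.card ≤ A0 * (τ + 1) ≤ A * τ`. -/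
theorem amp_det {X κ : Type} [LinearOrder X] [DecidableEq κ] [Fintype κ] (h : X → κ) {β : κ → ℕ}
    {K0 K' A0 A τ : ℕ} (hβ1 : ∀ b, 1 ≤ β b) (hβK : ∀ b, β b ≤ K0)
    (hβA : ∀ v, (univ.filter fun b => β b = v).card ≤ A) {good : Finset X → Prop}
    {g : Finset X → ℕ} (hg : ∀ E, g E < K') (hB : BddCol A0 good g)
    (h2 : A0 * (τ + 1) ≤ A * τ) (c : ℕ) :
    Bdd (A * τ) (fun E => good (exc h τ E) ∧
      (pot h β τ E + (K0 + K') * (exc h τ E).card + g (exc h τ E)) % (K0 + 2 * K') = c) := by
  classical
  intro T
  set W : ℕ := pot h β τ T + (K0 + K') * (exc h τ T).card with hW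
  set v : Finset X → ℕ := fun E =>
    pot h β τ E + (K0 + K') * (exc h τ E).card + g (exc h τ E) with hv
  have hlight : ∀ x ∈ T, ld h T (h x) ≤ τ →
      v (T.erase x) + β (h x) = W + g (exc h τ T) := by
    intro x hx hl
    have h3 := exc_light (h := h) (T := T) (x := x) hl
    have h4 := pot_light (β := β) hx hl
    simp only [hv, hW]
    rw [h3, h4]
    ring
  have hheavy : ∀ x ∈ T, τ < ld h T (h x) →
      v (T.erase x) + (K0 + K') = W + g (exc h τ (T.erase x)) := by
    intro x hx hl
    obtain ⟨z, hz, _, _, h3⟩ := exc_heavy (h := h) (τ := τ) hx hl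
    have h4 := pot_heavy (β := β) hx hl
    have h5 : ((exc h τ T).erase z).card + 1 = (exc h τ T).card := card_erase_add_one hz
    simp only [hv, hW]
    rw [h3, h4, ← h5]
    ring
  have hT := hg (exc h τ T)
  -- the interval
  have hlow : ∀ x ∈ T, W ≤ v (T.erase x) + K0 + K' := by
    intro x hx
    by_cases hl : ld h T (h x) ≤ τ
    · have := hlight x hx hl
      have := hβK (h x)
      omega
    · have := hheavy x hx (by omega)
      omega
  have hupp : ∀ x ∈ T, v (T.erase x) + 1 < W + K' := by
    intro x hx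
    by_cases hl : ld h T (h x) ≤ τ
    · have := hlight x hx hl
      have := hβ1 (h x)
      omega
    · have h6 := hheavy x hx (by omega)
      have h7 := hg (exc h τ (T.erase x))
      have h8 : 1 ≤ K0 := (hβ1 (h x)).trans (hβK (h x))
      omega
  have heq : ∀ x ∈ T, ∀ y ∈ T, v (T.erase x) % (K0 + 2 * K') = v (T.erase y) % (K0 + 2 * K') →
      v (T.erase x) = v (T.erase y) := by
    intro x hx y hy hxy
    have h1 := hlow x hx
    have h2 := hupp x hx
    have h3 := hlow y hy
    have h4 := hupp y hy
    have h5 : (K0 + 2 * K' : ℕ) ∣ (v (T.erase x) - v (T.erase y)) :=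
      (Nat.modEq_iff_dvd' (by
        by_contra hcon
        exact absurd hxy (by
          intro hxy'
          exact hcon (by
            by_contra hlt
            have hlt' : v (T.erase x) < v (T.erase y) := by omega
            have h6 : (K0 + 2 * K' : ℕ) ∣ (v (T.erase y) - v (T.erase x)) :=
              (Nat.modEq_iff_dvd' hlt'.le).1 hxy'
            have h7 := Nat.le_of_dvd (by omega) h6
            omega)))).1 hxy.symm
    by_contra hne
    rcases Nat.lt_or_gt_of_ne hne with hlt | hgt
    · have h6 : (K0 + 2 * K' : ℕ) ∣ (v (T.erase y) - v (T.erase x)) :=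
        (Nat.modEq_iff_dvd' hlt.le).1 hxy
      have h7 := Nat.le_of_dvd (by omega) h6
      omega
    · have h7 := Nat.le_of_dvd (by omega) h5
      omega
  have hsep : ∀ x ∈ T, ∀ y ∈ T, v (T.erase x) = v (T.erase y) → ld h T (h x) ≤ τ →
      ld h T (h y) ≤ τ := by
    intro x hx y hy hxy hl
    by_contra hy'
    have h1 := hlight x hx hl
    have h2 := hheavy y hy (by omega)
    have h3 := hβK (h x)
    have h4 := hg (exc h τ (T.erase y))
    omega
  have hfin : (T.filter fun x => good (exc h τ (T.erase x)) ∧
      v (T.erase x) % (K0 + 2 * K') = c).card ≤ A * τ := by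
    rcases (T.filter fun x => good (exc h τ (T.erase x)) ∧
        v (T.erase x) % (K0 + 2 * K') = c).eq_empty_or_nonempty with hS | ⟨x0, hx0⟩
    · rw [hS, card_empty]
      exact Nat.zero_le _
    · have hx0' := mem_filter.1 hx0
      by_cases hl : ld h T (h x0) ≤ τ
      · refine (card_le_card ?_).trans (light_card (h := h) (T := T) (τ := τ) hβA (β (h x0)))
        intro x hx
        rw [mem_filter] at hx ⊢
        have he := heq x0 hx0'.1 x hx.1 (hx0'.2.2.trans hx.2.2.symm)
        have hlx := hsep x0 hx0'.1 x hx.1 he hl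
        have h1 := hlight x0 hx0'.1 hl
        have h2 := hlight x hx.1 hlx
        exact ⟨hx.1, hlx, by omega⟩
      · refine (card_le_card ?_).trans ((heavy_card (h := h) (T := T) (τ := τ) hB
          (g (exc h τ (T.erase x0)))).trans h2)
        intro x hx
        rw [mem_filter] at hx ⊢
        have he := heq x0 hx0'.1 x hx.1 (hx0'.2.2.trans hx.2.2.symm)
        have hlx : τ < ld h T (h x) := by
          by_contra hlx
          exact hl (hsep x hx.1 x0 hx0'.1 he.symm (by omega))
        have h1 := hheavy x0 hx0'.1 (by omega)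
        have h2 := hheavy x hx.1 hlx
        exact ⟨hx.1, hlx, hx.2.1, by omega⟩
  have hcard : ∀ (P Q : X → Prop) (i1 : DecidablePred P) (i2 : DecidablePred Q), P = Q →
      (@Finset.filter X P i1 T).card = (@Finset.filter X Q i2 T).card := by
    intro P Q i1 i2 hPQ
    subst hPQ
    rw [Subsingleton.elim i1 i2]
  exact (hcard _ _ _ _ rfl).le.trans hfin

end Pool.Agent.Helper34.RB
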