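import Mathlib

/-!
# RB-17: an averaging lemma

Put the proofs into this file (keep the statements and the namespace).
-/

open Finset

namespace Pool.Agent.Helper34.RB

/-- Proof. If `∑ i ∈ I, w i * f ω i > c * ∑ i ∈ I, w i` for all `ω`, sum over `ω` (nonempty type) and
exchange the sums: `∑ i ∈ I, w i * ∑ ω, f ω i > card Ω * (c * ∑ i ∈ I, w i)`, but the left side is at
most `∑ i ∈ I, w i * (card Ω * c)` by `hf` (`Finset.exists_le_of_sum_le`,
`Finset.sum_comm`). -/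
theorem exists_avg {Ω ι : Type} [Fintype Ω] [Nonempty Ω] (I : Finset ι) (w : ι → ℝ)
    (hw : ∀ i ∈ I, 0 ≤ w i) (f : Ω → ι → ℝ) (c : ℝ)
    (hf : ∀ i ∈ I, ∑ ω, f ω i ≤ (Fintype.card Ω : ℝ) * c) :
    ∃ ω, ∑ i ∈ I, w i * f ω i ≤ c * ∑ i ∈ I, w i := by
  obtain ⟨ω, _, hω⟩ := Finset.exists_le_of_sum_le (s := (Finset.univ : Finset Ω))
    (f := fun ω => ∑ i ∈ I, w i * f ω i) (g := fun _ => c * ∑ i ∈ I, w i)
    Finset.univ_nonempty (by
      rw [Finset.sum_comm, Finset.sum_const, Finset.card_univ, nsmul_eq_mul]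
      have h1 : ∀ i ∈ I, ∑ ω, w i * f ω i ≤ w i * ((Fintype.card Ω : ℝ) * c) := by
        intro i hi
        rw [← Finset.mul_sum]
        exact mul_le_mul_of_nonneg_left (hf i hi) (hw i hi)
      refine (Finset.sum_le_sum h1).trans (le_of_eq ?_)
      rw [← Finset.sum_mul]
      ring)
  exact ⟨ω, hω⟩

/-- Proof. `∑ i ∈ I.filter p, w i = ∑ i ∈ I, if p i then w i else 0` (`Finset.sum_filter`), and each
term is `≤ w i * f i`. -/
theorem sum_filter_le {ι : Type} (I : Finset ι) (w : ι → ℝ) (hw : ∀ i ∈ I, 0 ≤ w i)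
    (p : ι → Prop) [DecidablePred p] (f : ι → ℝ) (hf0 : ∀ i ∈ I, 0 ≤ f i)
    (hf : ∀ i ∈ I, p i → 1 ≤ f i) : ∑ i ∈ I.filter p, w i ≤ ∑ i ∈ I, w i * f i := by
  rw [Finset.sum_filter]
  apply Finset.sum_le_sum
  intro i hi
  split_ifs with h
  · exact le_mul_of_one_le_right (hw i hi) (hf i hi h)
  · exact mul_nonneg (hw i hi) (hf0 i hi)

end Pool.Agent.Helper34.RB
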