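import Pool.Agent.Helper34.RB.Offset

/-!
# RB-23: the base colouring is bounded

Put the proof into this file (keep the statement and the namespace).
-/

open Finset

namespace Pool.Agent.Helper34.RB

/-- Proof. Let `T`, `c` be given and `S` the set in `BddCol`.  If `S = ∅`, done; otherwise fix
`x0 ∈ S`, `b = h x0`, `t = ld h T b`.  For `x ∈ S` the values
`v x = stat h C w TM (T.erase x) + Dsum h q M Φ TM (T.erase x)` are congruent modulo `K`, and by
`value_window` they lie in an interval of length `< C (TM + 1) ≤ K`, so `v x = v x0`, so `h x = b` by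
`same_cell`.  As in `same_cell`, `1 ≤ t ≤ TM`.  If `t ≤ 5`: `S ⊆ cell h T b` has at most `5 ≤ 56`
elements.  If `t ≥ 6`: `t = s + 1` with `5 ≤ s ≤ TM`.  By `total_erase` for `x` and `x0` (and
`v x = v x0`): `Dd t (T.erase x) + Dd s (T.erase x) = Dd t (T.erase x0) + Dd s (T.erase x0)`, and
`Dd t (T.erase x) = Dd t (T.erase x0)` by `Ds_erase_const`, so `Ds s (T.erase x) = w'` with
`w' = Ds s (T.erase x0)`.  So `S` is contained in the set of `mult_cell`
(with `Good.2.2 s`), which has at most `56` elements. -/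
theorem base_det {X : Type} [LinearOrder X] {n : ℕ} (h : X → Fin n)
    {q : ℕ → ℕ} (M : ∀ s, ℕ → Finset X → ZMod (q s)) (Φ : ∀ s, (Fin (s - 1) → ZMod (q s)) → ℕ)
    {R w C N : ℕ → ℕ} {TM K : ℕ} (hR : ∀ u, 1 ≤ R u)
    (hΦ : ∀ s, 5 ≤ s → s ≤ TM → Compr (q s) s (R s) 56 (Φ s))
    (hw : ∀ t, R t + R (t - 1) ≤ w t) (hC1 : R 1 + R 0 ≤ C 1)
    (hC : ∀ t, 1 ≤ t → t ≤ TM →
      C t + w t * N (t - 1) + w (t + 1) * N (t + 1) + 2 * (R t + R (t - 1) + R (t + 1)) ≤
        C (t + 1)) (hK : C (TM + 1) ≤ K) :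
    BddCol 56 (Good h N q M TM) (fun E => (stat h C w TM E + Dsum h q M Φ TM E) % K) := by
  classical
  have hmod : ∀ a b : ℕ, a ≤ b → a % K = b % K → b < a + K → a = b := by
    intro a b hab h1 h2
    have h3 : K ∣ b - a := (Nat.modEq_iff_dvd' hab).1 h1
    have h4 : b - a = 0 := Nat.eq_zero_of_dvd_of_lt h3 (by omega)
    omega
  intro T c
  -- the value of two members of the set is the same
  have hval : ∀ x ∈ T, ∀ y ∈ T, Good h N q M TM (T.erase x) → Good h N q M TM (T.erase y) →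
      (stat h C w TM (T.erase x) + Dsum h q M Φ TM (T.erase x)) % K =
        (stat h C w TM (T.erase y) + Dsum h q M Φ TM (T.erase y)) % K →
      stat h C w TM (T.erase x) + Dsum h q M Φ TM (T.erase x) =
        stat h C w TM (T.erase y) + Dsum h q M Φ TM (T.erase y) := by
    intro x hx y hy hgx hgy he
    have h1 := value_window hR hΦ hC1 hC hx hgx
    have h2 := value_window hR hΦ hC1 hC hy hgy
    rcases le_total (stat h C w TM (T.erase x) + Dsum h q M Φ TM (T.erase x))
      (stat h C w TM (T.erase y) + Dsum h q M Φ TM (T.erase y)) with h3 | h3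
    · exact hmod _ _ h3 he (by omega)
    · exact (hmod _ _ h3 he.symm (by omega)).symm
  rcases Finset.eq_empty_or_nonempty (T.filter fun x => Good h N q M TM (T.erase x) ∧
      (stat h C w TM (T.erase x) + Dsum h q M Φ TM (T.erase x)) % K = c) with hS | ⟨x0, hx0⟩
  · refine le_trans (le_of_eq ?_) (Nat.zero_le 56)
    rw [Finset.card_eq_zero, ← hS]
  rw [Finset.mem_filter] at hx0
  obtain ⟨hx0T, hg0, hv0⟩ := hx0
  -- everything about one member
  have hmem : ∀ x ∈ T, Good h N q M TM (T.erase x) →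
      (stat h C w TM (T.erase x) + Dsum h q M Φ TM (T.erase x)) % K = c →
      stat h C w TM (T.erase x) + Dsum h q M Φ TM (T.erase x) =
        stat h C w TM (T.erase x0) + Dsum h q M Φ TM (T.erase x0) ∧ h x = h x0 := by
    intro x hx hgx hvx
    have h1 := hval x hx x0 hx0T hgx hg0 (hvx.trans hv0.symm)
    exact ⟨h1, same_cell hR hΦ hw hC hx hx0T hgx hg0 h1⟩
  have hpos : 0 < ld h T (h x0) := ld_pos hx0T
  have hself := ld_erase_self (h := h) hx0T
  have htTM : ld h T (h x0) ≤ TM := by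
    have h1 : h x0 ∉ Bs h (T.erase x0) TM := by
      rw [hg0.2.1]
      exact Finset.notMem_empty _
    rw [mem_Bs] at h1
    omega
  by_cases ht5 : ld h T (h x0) ≤ 5
  · have h1 : (cell h T (h x0)).card ≤ 5 := ht5
    refine le_trans (Finset.card_le_card ?_) (h1.trans (by norm_num))
    intro x hx
    rw [Finset.mem_filter] at hx
    exact mem_cell.2 ⟨hx.1, (hmem x hx.1 hx.2.1 hx.2.2).2⟩
  obtain ⟨s, hs⟩ : ∃ s, ld h T (h x0) = s + 1 := ⟨ld h T (h x0) - 1, by omega⟩
  have hs5 : 5 ≤ s := by omega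
  have hsTM : s ≤ TM := by omega
  have hsI : s ∈ Icc 5 TM := Finset.mem_Icc.2 ⟨hs5, hsTM⟩
  have htI : s + 1 ∈ Icc 5 TM := Finset.mem_Icc.2 ⟨by omega, by omega⟩
  refine le_trans (Finset.card_le_card ?_)
    (mult_cell (hΦ s hs5 hsTM) (M := M s) hs (Ds h (q s) (M s) s (Φ s) (T.erase x0)))
  intro x hx
  rw [Finset.mem_filter] at hx
  obtain ⟨hxT, hgx, hvx⟩ := hx
  obtain ⟨hv, hh⟩ := hmem x hxT hgx hvx
  have ht' : ld h T (h x) ≤ TM := by rw [hh]; exact htTM
  have e1 := total_erase (C := C) (w := w) (q := q) (M := M) (Φ := Φ) hxT ht'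
  have e2 := total_erase (C := C) (w := w) (q := q) (M := M) (Φ := Φ) hx0T htTM
  rw [hh] at e1
  rw [hs] at e1 e2
  have e3 : Dd h q M Φ TM (s + 1) (T.erase x) = Dd h q M Φ TM (s + 1) (T.erase x0) := by
    unfold Dd
    rw [if_pos htI, if_pos htI]
    exact Ds_erase_const hxT hx0T hh (by rw [hh, hs])
  rw [Nat.add_sub_cancel] at e1 e2
  have e4 : Dd h q M Φ TM s (T.erase x) = Dd h q M Φ TM s (T.erase x0) := by omega
  unfold Dd at e4
  rw [if_pos hsI, if_pos hsI] at e4
  rw [Finset.mem_filter]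
  exact ⟨hxT, hh, hgx.2.2 s hsI, e4⟩

end Pool.Agent.Helper34.RB
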