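import Mathlib

/-!
# The parameters of the base colouring (project RB)
-/

namespace Pool.Agent.Helper34.RB

/-- the number of cells -/
def nc (P m : ℕ) : ℕ := 16 * P * m

/-- the bound for the number of cells of load at least `t` -/
def NN (P m t : ℕ) : ℕ := 16 * P ^ 2 * m / (8 ^ t * P ^ t * t.factorial)

/-- the moduli of the digits -/
def qq (P s : ℕ) : ℕ := s ^ 3 * P

/-- the ranges of the compressed digits -/
def RR (P s : ℕ) : ℕ := (s - 2).factorial * P ^ s

/-- the weights of the addresses -/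
def ww (P t : ℕ) : ℕ := 2 * (RR P t + RR P (t - 1))

/-- the offsets of the loads -/
def CC (P m : ℕ) : ℕ → ℕ
  | 0 => 0
  | 1 => RR P 1 + RR P 0
  | (t + 2) => CC P m (t + 1) + ww P (t + 1) * (NN P m t + 1) +
      ww P (t + 2) * (NN P m (t + 2) + 1) + 2 * (RR P (t + 1) + RR P t + RR P (t + 2))

/-- the bound for the range of the base colouring -/
def KK (P m : ℕ) : ℕ := 600 * P ^ 4 * m

lemma RR_pos {P : ℕ} (hP : 1 ≤ P) (s : ℕ) : 1 ≤ RR P s := by
  unfold RR
  exact Nat.mul_pos (Nat.factorial_pos _) (Nat.pow_pos hP)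

lemma CC_one (P m : ℕ) : CC P m 1 = RR P 1 + RR P 0 := rfl

lemma CC_succ (P m : ℕ) {t : ℕ} (ht : 1 ≤ t) :
    CC P m (t + 1) = CC P m t + ww P t * (NN P m (t - 1) + 1) +
      ww P (t + 1) * (NN P m (t + 1) + 1) + 2 * (RR P t + RR P (t - 1) + RR P (t + 1)) := by
  obtain ⟨u, rfl⟩ := Nat.exists_eq_add_of_le ht
  rw [add_comm 1 u]
  rfl

end Pool.Agent.Helper34.RB
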