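import Pool.Agent.Helper34.RB.LoadAvg
import Pool.Agent.Helper34.RB.Avg
import Pool.Agent.Helper34.RB.Param

/-!
# RB-18: choice of the cells of the base colouring

Put the proof into this file (keep the statement and the namespace).
-/

open Finset

namespace Pool.Agent.Helper34.RB

private lemma sum_half (K : ℕ) : ∑ t ∈ Icc 1 K, (1 / 2 : ℝ) ^ t = 1 - (1 / 2) ^ K := by
  induction K with
  | zero => simp
  | succ K ih =>
    rw [Finset.sum_Icc_succ_top (by omega), ih, pow_succ]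
    ring

private lemma NN_lt (P m t : ℕ) (hP : 1 ≤ P) :
    (16 * (P : ℝ) ^ 2 * m) / (8 ^ t * (P : ℝ) ^ t * t.factorial) ≤ (NN P m t : ℝ) + 1 := by
  have hb : 0 < 8 ^ t * P ^ t * t.factorial := by
    have := Nat.factorial_pos t
    positivity
  have h1 : 16 * P ^ 2 * m < (8 ^ t * P ^ t * t.factorial) * (NN P m t + 1) :=
    Nat.lt_mul_div_succ _ hb
  have hb' : (0 : ℝ) < 8 ^ t * (P : ℝ) ^ t * t.factorial := by exact_mod_cast hb
  rw [div_le_iff₀ hb']
  have h2 : (16 * (P : ℝ) ^ 2 * m) ≤ (8 ^ t * (P : ℝ) ^ t * t.factorial) * ((NN P m t : ℝ) + 1) := by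
    exact_mod_cast h1.le
  linarith

private lemma avg_eq (P m t : ℕ) (hP : 1 ≤ P) (hm : 1 ≤ m) :
    ((nc P m : ℕ) : ℝ) * ((m : ℝ) / (nc P m : ℕ)) ^ t / t.factorial =
      (16 * (P : ℝ) * m) / (16 ^ t * (P : ℝ) ^ t * t.factorial) := by
  have hP' : (0 : ℝ) < P := by exact_mod_cast hP
  have hm' : (0 : ℝ) < m := by exact_mod_cast hm
  have ht : (0 : ℝ) < t.factorial := by exact_mod_cast Nat.factorial_pos t
  have h1 : ((nc P m : ℕ) : ℝ) = 16 * P * m := by unfold nc; push_cast; ring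
  have h2 : (m : ℝ) / (16 * P * m) = 1 / (16 * P) := by
    field_simp
  rw [h1, h2, div_pow, one_pow, mul_pow]
  field_simp

private noncomputable def ff {X : Type} [LinearOrder X] {n : ℕ} (P m TM : ℕ) (h : X → Fin n)
    (E : Finset X) : ℝ :=
  ∑ t ∈ Icc 1 (TM - 1), ((Bs h E t).card : ℝ) / ((NN P m t : ℝ) + 1) + ((Bs h E TM).card : ℝ)

private lemma ff_nonneg {X : Type} [LinearOrder X] {n : ℕ} (P m TM : ℕ) (h : X → Fin n)
    (E : Finset X) : 0 ≤ ff P m TM h E := by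
  unfold ff
  refine add_nonneg (Finset.sum_nonneg fun t _ => div_nonneg (Nat.cast_nonneg _) ?_)
    (Nat.cast_nonneg _)
  exact add_nonneg (Nat.cast_nonneg _) zero_le_one

private lemma ff_bad {X : Type} [LinearOrder X] {P m TM : ℕ} (hP : 1 ≤ P)
    (h : X → Fin (nc P m)) (E : Finset X)
    (hbad : ¬ ((∀ t, (Bs h E t).card ≤ NN P m t) ∧ Bs h E TM = ∅)) : 1 ≤ ff P m TM h E := by
  have hpos : ∀ t, (0 : ℝ) ≤ ((Bs h E t).card : ℝ) / ((NN P m t : ℝ) + 1) := fun t =>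
    div_nonneg (Nat.cast_nonneg _) (add_nonneg (Nat.cast_nonneg _) zero_le_one)
  by_cases hT : Bs h E TM = ∅
  · have h1 : ∃ t, NN P m t < (Bs h E t).card := by
      by_contra hcon
      push Not at hcon
      exact hbad ⟨hcon, hT⟩
    obtain ⟨t, ht⟩ := h1
    have ht0 : t ≠ 0 := by
      rintro rfl
      have h2 : (Bs h E 0).card ≤ nc P m := by
        refine (Finset.card_le_univ _).trans ?_
        rw [Fintype.card_fin]
      have h3 : NN P m 0 = 16 * P ^ 2 * m := by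
        unfold NN
        rw [pow_zero, pow_zero, Nat.factorial_zero, one_mul, one_mul, Nat.div_one]
      have h4 : nc P m ≤ 16 * P ^ 2 * m := by
        unfold nc
        have h5 : P ≤ P ^ 2 := Nat.le_self_pow (by norm_num) P
        exact Nat.mul_le_mul_right m (Nat.mul_le_mul_left 16 h5)
      rw [h3] at ht
      exact absurd (lt_of_lt_of_le ht (h2.trans h4)) (lt_irrefl _)
    have htT : t < TM := by
      by_contra hcon
      push Not at hcon
      have h2 : Bs h E t ⊆ Bs h E TM := Bs_anti hcon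
      rw [hT] at h2
      rw [Finset.subset_empty.1 h2, Finset.card_empty] at ht
      exact absurd ht (Nat.not_lt_zero _)
    have hmem : t ∈ Icc 1 (TM - 1) := by
      rw [Finset.mem_Icc]
      exact ⟨Nat.one_le_iff_ne_zero.2 ht0, Nat.le_sub_one_of_lt htT⟩
    have h5 : (1 : ℝ) ≤ ((Bs h E t).card : ℝ) / ((NN P m t : ℝ) + 1) := by
      rw [le_div_iff₀ (add_pos_of_nonneg_of_pos (Nat.cast_nonneg _) one_pos), one_mul]
      exact_mod_cast ht
    have h6 : ((Bs h E t).card : ℝ) / ((NN P m t : ℝ) + 1) ≤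
        ∑ t ∈ Icc 1 (TM - 1), ((Bs h E t).card : ℝ) / ((NN P m t : ℝ) + 1) :=
      Finset.single_le_sum (f := fun t => ((Bs h E t).card : ℝ) / ((NN P m t : ℝ) + 1))
        (fun t _ => hpos t) hmem
    have h7 : (0 : ℝ) ≤ ((Bs h E TM).card : ℝ) := Nat.cast_nonneg _
    unfold ff
    linarith
  · have h1 : 1 ≤ (Bs h E TM).card := Finset.card_pos.2 (Finset.nonempty_iff_ne_empty.2 hT)
    have h2 : (1 : ℝ) ≤ ((Bs h E TM).card : ℝ) := by exact_mod_cast h1
    have h3 : 0 ≤ ∑ t ∈ Icc 1 (TM - 1), ((Bs h E t).card : ℝ) / ((NN P m t : ℝ) + 1) :=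
      Finset.sum_nonneg fun t _ => hpos t
    unfold ff
    linarith

private lemma ff_sum {X : Type} [LinearOrder X] [Fintype X] {P m TM : ℕ} (hP : 1 ≤ P)
    (hm : 1 ≤ m) (E : Finset X) (hE : E.card ≤ m)
    (hTM : 16 * P ^ 2 * m ≤ 16 ^ TM * P ^ TM * TM.factorial) :
    ∑ h : X → Fin (nc P m), ff P m TM h E ≤
      (Fintype.card (X → Fin (nc P m)) : ℝ) * (2 / P) := by
  have hn : 0 < nc P m := by unfold nc; exact Nat.mul_pos (Nat.mul_pos (by norm_num) hP) hm
  have hP' : (0 : ℝ) < P := by exact_mod_cast hP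
  have hm' : (0 : ℝ) < m := by exact_mod_cast hm
  have hL := load_avg (n := nc P m) hn E hE
  generalize hN : (Fintype.card (X → Fin (nc P m)) : ℝ) = N at hL ⊢
  have hN0 : 0 ≤ N := by rw [← hN]; exact Nat.cast_nonneg _
  have e1 : ∑ h : X → Fin (nc P m), ff P m TM h E = ∑ t ∈ Icc 1 (TM - 1),
      (∑ h : X → Fin (nc P m), ((Bs h E t).card : ℝ)) / ((NN P m t : ℝ) + 1) +
      ∑ h : X → Fin (nc P m), ((Bs h E TM).card : ℝ) := by
    unfold ff
    rw [Finset.sum_add_distrib, Finset.sum_comm]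
    congr 1
    refine Finset.sum_congr rfl fun t _ => ?_
    rw [Finset.sum_div]
  have e2 : ∀ t ∈ Icc 1 (TM - 1),
      (∑ h : X → Fin (nc P m), ((Bs h E t).card : ℝ)) / ((NN P m t : ℝ) + 1) ≤
      N / P * (1 / 2 : ℝ) ^ t := by
    intro t _
    have h1 := hL t
    rw [avg_eq P m t hP hm] at h1
    have h2 := NN_lt P m t hP
    have h4 : (0 : ℝ) < (NN P m t : ℝ) + 1 := add_pos_of_nonneg_of_pos (Nat.cast_nonneg _) one_pos
    rw [div_le_iff₀ h4]
    refine h1.trans ?_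
    have h5 : N * ((16 * (P : ℝ) * m) / (16 ^ t * (P : ℝ) ^ t * t.factorial)) =
        N / P * (1 / 2 : ℝ) ^ t *
          ((16 * (P : ℝ) ^ 2 * m) / (8 ^ t * (P : ℝ) ^ t * t.factorial)) := by
      have ht : (t.factorial : ℝ) ≠ 0 := by exact_mod_cast (Nat.factorial_pos t).ne'
      have h6 : (16 : ℝ) ^ t = 2 ^ t * 8 ^ t := by rw [← mul_pow]; norm_num
      rw [h6, div_pow, one_pow]
      generalize (t.factorial : ℝ) = u at ht
      field_simp
    rw [h5]
    exact mul_le_mul_of_nonneg_left h2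
      (mul_nonneg (div_nonneg hN0 hP'.le) (pow_nonneg (by norm_num) t))
  have e3 : ∑ h : X → Fin (nc P m), ((Bs h E TM).card : ℝ) ≤ N / P := by
    have h1 := hL TM
    rw [avg_eq P m TM hP hm] at h1
    refine h1.trans ?_
    have hD : (0 : ℝ) < 16 ^ TM * (P : ℝ) ^ TM * TM.factorial := by
      have ht : (0 : ℝ) < TM.factorial := by exact_mod_cast Nat.factorial_pos TM
      exact mul_pos (mul_pos (pow_pos (by norm_num) _) (pow_pos hP' _)) ht
    have h2 : (16 * (P : ℝ) ^ 2 * m) ≤ 16 ^ TM * (P : ℝ) ^ TM * TM.factorial := by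
      exact_mod_cast hTM
    generalize (16 : ℝ) ^ TM * (P : ℝ) ^ TM * TM.factorial = Dn at hD h2
    rw [mul_div_assoc', div_le_div_iff₀ hD hP']
    have h3 := mul_le_mul_of_nonneg_left h2 hN0
    calc N * (16 * (P : ℝ) * m) * P = N * (16 * (P : ℝ) ^ 2 * m) := by ring
      _ ≤ N * Dn := h3
  rw [e1]
  have h2 : 0 ≤ N / P := div_nonneg hN0 hP'.le
  have h1 : (0 : ℝ) ≤ (1 / 2) ^ (TM - 1) := pow_nonneg (by norm_num) _
  calc _ ≤ ∑ t ∈ Icc 1 (TM - 1), N / P * (1 / 2 : ℝ) ^ t + N / P :=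
        add_le_add (Finset.sum_le_sum e2) e3
    _ = N / P * (1 - (1 / 2) ^ (TM - 1)) + N / P := by rw [← Finset.mul_sum, sum_half]
    _ ≤ N / P * 1 + N / P := by
        have h3 : (1 : ℝ) - (1 / 2) ^ (TM - 1) ≤ 1 := by linarith
        exact add_le_add (mul_le_mul_of_nonneg_left h3 h2) le_rfl
    _ = N * (2 / P) := by ring

open Classical in
/-- Proof. Let `n = nc P m = 16 P m > 0`, so `m / n = 1 / (16 P)` and (`load_avg`) for `|E| ≤ m`:
`∑ h, (Bs h E t).card ≤ card (X → Fin n) * (16 P m / ((16 P) ^ t * t!))`.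

Let `f h i = ∑ t ∈ Icc 1 (TM - 1), (Bs h (S i) t).card / (NN P m t + 1) + (Bs h (S i) TM).card`
(real numbers, `≥ 0`).

(1) If `S i` is bad for `h` then `1 ≤ f h i`.  Either `Bs h (S i) TM ≠ ∅`, then the last term is
`≥ 1`.  Or `Bs h (S i) TM = ∅` and `NN P m t < (Bs h (S i) t).card` for some `t`; then `t ≠ 0`
(`Bs _ 0 = univ` has `16 P m ≤ 16 P² m = NN P m 0` elements) and `t < TM` (otherwise
`Bs h (S i) t ⊆ Bs h (S i) TM = ∅`, `Bs_anti`), and the term `t` of the first sum is `≥ 1`.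

(2) `∑ h, f h i ≤ card (X → Fin n) * (2 / P)`: for `1 ≤ t`:
`NN P m t + 1 ≥ 16 P² m / (8^t P^t t!)` (real division; `Nat.lt_floor_add_one`,
`Nat.lt_succ_floor`, `Nat.div` via `Nat.lt_div_mul_add`/`Nat.div_add_mod`), so the average of the
term `t` is at most `[16 P m / ((16 P)^t t!)] / [16 P² m / (8^t P^t t!)] = (1 / P) * (1 / 2)^t`, and
the sum over `t ∈ Icc 1 (TM - 1)` is at most `1 / P`; the average of the last term is at most
`16 P m / (16^TM P^TM TM!) ≤ 16 P m / (16 P² m) = 1 / P` by `hTM`.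

(3) `exists_avg` (with `Ω = X → Fin n`, nonempty as `n > 0`) and `sum_filter_le`. -/
theorem chooseH {X ι : Type} [LinearOrder X] [Fintype X] (I : Finset ι) (S : ι → Finset X)
    (w : ι → ℝ) (hw : ∀ i ∈ I, 0 ≤ w i) {P m TM : ℕ} (hP : 1 ≤ P) (hm : 1 ≤ m)
    (hS : ∀ i ∈ I, (S i).card ≤ m) (hTM : 16 * P ^ 2 * m ≤ 16 ^ TM * P ^ TM * TM.factorial) :
    ∃ h : X → Fin (nc P m), ∑ i ∈ I.filter (fun i =>
      ¬ ((∀ t, (Bs h (S i) t).card ≤ NN P m t) ∧ Bs h (S i) TM = ∅)), w i ≤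
        2 / P * ∑ i ∈ I, w i := by
  have hn : 0 < nc P m := by unfold nc; exact Nat.mul_pos (Nat.mul_pos (by norm_num) hP) hm
  haveI : Nonempty (X → Fin (nc P m)) := ⟨fun _ => ⟨0, hn⟩⟩
  obtain ⟨h, hh⟩ := exists_avg I w hw (fun (h : X → Fin (nc P m)) i => ff P m TM h (S i)) (2 / P)
    (fun i hi => ff_sum hP hm (S i) (hS i hi) hTM)
  refine ⟨h, ?_⟩
  refine (sum_filter_le I w hw _ (fun i => ff P m TM h (S i)) (fun i _ => ff_nonneg _ _ _ _ _)
    ?_).trans hh
  intro i _ hbad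
  exact ff_bad hP h (S i) hbad

end Pool.Agent.Helper34.RB
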