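import Pool.Agent.Helper34.RB.DigProb
import Pool.Agent.Helper34.RB.Avg
import Pool.Agent.Helper34.RB.Param

/-!
# RB-19: choice of the digit functions

Put the proofs into this file (keep the statements and the namespace).
-/

open Finset

namespace Pool.Agent.Helper34.RB

open Classical in
/-- Proof. `exists_avg` with `Ω = (Finset X → ZMod q)` and
`f M i = if dg h q M s j (S i) = 0 then 1 else 0`, whose sum over `M` is
`card Ω / q` by `card_dg_zero`; then `∑ i ∈ I, w i * f M i = ∑ i ∈ I.filter _, w i`. -/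
theorem chooseM1 {X ι : Type} [LinearOrder X] [Fintype X] {n : ℕ} (h : X → Fin n) (I : Finset ι)
    (S : ι → Finset X) (w : ι → ℝ) (hw : ∀ i ∈ I, 0 ≤ w i) {q s j : ℕ} [NeZero q] (hj1 : 1 ≤ j)
    (hjs : j < s) :
    ∃ M : Finset X → ZMod q,
      ∑ i ∈ I.filter (fun i => dg h q M s j (S i) = 0), w i ≤ 1 / q * ∑ i ∈ I, w i := by
  have hq : (q : ℝ) ≠ 0 := by exact_mod_cast NeZero.ne q
  obtain ⟨M, hM⟩ := exists_avg (Ω := Finset X → ZMod q) I w hw
    (fun M i => if dg h q M s j (S i) = 0 then 1 else 0) (1 / q) (by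
      intro i _
      rw [Finset.sum_boole]
      have h1 := card_dg_zero h (S i) (q := q) hj1 hjs
      have h2 : (((univ.filter fun M : Finset X → ZMod q => dg h q M s j (S i) = 0).card : ℕ) : ℝ)
          * q = (Fintype.card (Finset X → ZMod q) : ℝ) := by
        exact_mod_cast h1
      rw [← h2]
      apply le_of_eq
      field_simp
      try congr)
  refine ⟨M, ?_⟩
  rw [Finset.sum_filter]
  refine le_trans (le_of_eq ?_) hM
  refine Finset.sum_congr rfl fun i _ => ?_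
  split_ifs <;> simp

theorem chooseM_sum (T : ℕ) (hT : 1 ≤ T) :
    ∑ s ∈ Icc 5 T, 1 / (s : ℝ) ^ 2 ≤ 1 - 1 / (T : ℝ) := by
  induction T, hT using Nat.le_induction with
  | base => simp
  | succ T hT ih =>
    have hT' : (1 : ℝ) ≤ T := by exact_mod_cast hT
    by_cases h5 : 5 ≤ T + 1
    · rw [← Finset.insert_Icc_right_eq_Icc_add_one h5, Finset.sum_insert (by simp)]
      have h1 : 1 / (((T + 1 : ℕ) : ℝ)) ^ 2 ≤ 1 / (T : ℝ) - 1 / ((T + 1 : ℕ) : ℝ) := by
        push_cast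
        rw [div_sub_div _ _ (by positivity) (by positivity), div_le_div_iff₀ (by positivity)
          (by positivity)]
        nlinarith
      linarith
    · rw [Finset.Icc_eq_empty (by omega), Finset.sum_empty, sub_nonneg]
      push_cast
      rw [div_le_one (by positivity)]
      linarith

open Classical in
/-- Proof. For `s ≥ 1` (so `qq P s > 0`) and `1 ≤ j < s` choose `M s j` by `chooseM1`; for the other
`(s, j)` take `M s j = 0` (`choose` with a case distinction).  If `NZ` fails for `S i` at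
`s ∈ Icc 5 TM`, there is `j : Fin (s - 1)` with `dv h (qq P s) (M s) s (S i) j = 0`, i.e.
`dg h (qq P s) (M s (j + 1)) s (j + 1) (S i) = 0` with `1 ≤ j + 1 < s`.  So the filter is contained
in the union over `s ∈ Icc 5 TM`, `j ∈ Icc 1 (s - 1)` of the filters of `chooseM1`, and the sum of
`w` over it is at most
`∑ s ∈ Icc 5 TM, (s - 1) / (s ^ 3 * P) * ∑ w ≤ (1 / P) * (∑ s ∈ Icc 5 TM, 1 / s ^ 2) * ∑ w
 ≤ (1 / P) * ∑ w` (`1 / s ^ 2 ≤ 1 / (s - 1) - 1 / s`, telescoping; e.g. prove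
`∑ s ∈ Icc 5 TM, 1 / s ^ 2 ≤ 1 / 4 - 1 / TM ≤ 1` for `TM ≥ 5` by induction). -/
theorem chooseM {X ι : Type} [LinearOrder X] [Fintype X] {n : ℕ} (h : X → Fin n) (I : Finset ι)
    (S : ι → Finset X) (w : ι → ℝ) (hw : ∀ i ∈ I, 0 ≤ w i) {P : ℕ} (hP : 1 ≤ P) (TM : ℕ) :
    ∃ M : ∀ s, ℕ → Finset X → ZMod (qq P s),
      ∑ i ∈ I.filter (fun i => ¬ ∀ s ∈ Icc 5 TM, NZ h (qq P s) (M s) s (S i)), w i ≤
        1 / P * ∑ i ∈ I, w i := by
  have hP' : (1 : ℝ) ≤ P := by exact_mod_cast hP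
  have hW : 0 ≤ ∑ i ∈ I, w i := Finset.sum_nonneg hw
  have key : ∀ s j : ℕ, ∃ M : Finset X → ZMod (qq P s), 1 ≤ j → j < s →
      ∑ i ∈ I.filter (fun i => dg h (qq P s) M s j (S i) = 0), w i ≤
        1 / (qq P s : ℝ) * ∑ i ∈ I, w i := by
    intro s j
    by_cases hc : 1 ≤ j ∧ j < s
    · have : NeZero (qq P s) := ⟨by
        unfold qq
        have h1 : 0 < s := by omega
        positivity⟩
      obtain ⟨M, hM⟩ := chooseM1 h I S w hw (q := qq P s) hc.1 hc.2
      exact ⟨M, fun _ _ => hM⟩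
    · exact ⟨0, fun h1 h2 => absurd ⟨h1, h2⟩ hc⟩
  choose M hM using key
  refine ⟨M, ?_⟩
  have h1 := sum_filter_le I w hw (fun i => ¬ ∀ s ∈ Icc 5 TM, NZ h (qq P s) (M s) s (S i))
    (fun i => ∑ s ∈ Icc 5 TM, ∑ j ∈ Icc 1 (s - 1),
      if dg h (qq P s) (M s j) s j (S i) = 0 then (1 : ℝ) else 0)
    (fun i _ => Finset.sum_nonneg fun s _ => Finset.sum_nonneg fun j _ => by
      split_ifs <;> norm_num)
    (by
      intro i _ hi
      push Not at hi
      obtain ⟨s, hs, hns⟩ := hi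
      unfold NZ at hns
      push Not at hns
      obtain ⟨-, j, hj⟩ := hns
      have hj2 := j.2
      have hjm : (j : ℕ) + 1 ∈ Icc 1 (s - 1) := by
        rw [mem_Icc]
        omega
      have a1 : (1 : ℝ) ≤ ∑ j ∈ Icc 1 (s - 1),
          if dg h (qq P s) (M s j) s j (S i) = 0 then (1 : ℝ) else 0 := by
        refine le_trans (le_of_eq ?_) (Finset.single_le_sum (f := fun j =>
          if dg h (qq P s) (M s j) s j (S i) = 0 then (1 : ℝ) else 0) (fun j _ => by
            split_ifs <;> norm_num) hjm)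
        rw [if_pos]
        exact hj
      exact a1.trans (Finset.single_le_sum (f := fun s => ∑ j ∈ Icc 1 (s - 1),
          if dg h (qq P s) (M s j) s j (S i) = 0 then (1 : ℝ) else 0) (fun s _ =>
            Finset.sum_nonneg fun j _ => by split_ifs <;> norm_num) hs))
  have h2 : ∑ i ∈ I, w i * (∑ s ∈ Icc 5 TM, ∑ j ∈ Icc 1 (s - 1),
      if dg h (qq P s) (M s j) s j (S i) = 0 then (1 : ℝ) else 0) =
      ∑ s ∈ Icc 5 TM, ∑ j ∈ Icc 1 (s - 1),
        ∑ i ∈ I.filter (fun i => dg h (qq P s) (M s j) s j (S i) = 0), w i := by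
    simp_rw [Finset.mul_sum]
    rw [Finset.sum_comm]
    refine Finset.sum_congr rfl fun s _ => ?_
    rw [Finset.sum_comm]
    refine Finset.sum_congr rfl fun j _ => ?_
    rw [Finset.sum_filter]
    refine Finset.sum_congr rfl fun i _ => ?_
    split_ifs <;> simp
  have h3 : ∑ s ∈ Icc 5 TM, ∑ j ∈ Icc 1 (s - 1),
        ∑ i ∈ I.filter (fun i => dg h (qq P s) (M s j) s j (S i) = 0), w i ≤
      ∑ s ∈ Icc 5 TM, (1 / (s : ℝ) ^ 2) * (1 / P * ∑ i ∈ I, w i) := by
    refine Finset.sum_le_sum fun s hs => ?_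
    have hs5 : 5 ≤ s := (mem_Icc.1 hs).1
    have hs5' : (5 : ℝ) ≤ s := by exact_mod_cast hs5
    calc ∑ j ∈ Icc 1 (s - 1),
        ∑ i ∈ I.filter (fun i => dg h (qq P s) (M s j) s j (S i) = 0), w i
        ≤ ∑ j ∈ Icc 1 (s - 1), 1 / (qq P s : ℝ) * ∑ i ∈ I, w i := by
          refine Finset.sum_le_sum fun j hj => ?_
          rw [mem_Icc] at hj
          exact hM s j hj.1 (by omega)
      _ = ((s - 1 : ℕ) : ℝ) * (1 / (qq P s : ℝ) * ∑ i ∈ I, w i) := by
          rw [Finset.sum_const, Nat.card_Icc, nsmul_eq_mul, Nat.add_sub_cancel]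
      _ ≤ (s : ℝ) * (1 / (qq P s : ℝ) * ∑ i ∈ I, w i) := by
          apply mul_le_mul_of_nonneg_right
          · exact_mod_cast Nat.sub_le s 1
          · positivity
      _ = (1 / (s : ℝ) ^ 2) * (1 / P * ∑ i ∈ I, w i) := by
          unfold qq
          push_cast
          field_simp
  rw [← Finset.sum_mul] at h3
  have h4 : ∑ s ∈ Icc 5 TM, 1 / (s : ℝ) ^ 2 ≤ 1 := by
    rcases Nat.eq_zero_or_pos TM with h0 | h0
    · rw [h0, Finset.Icc_eq_empty (by omega), Finset.sum_empty]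
      norm_num
    · have h5 := chooseM_sum TM h0
      have h6 : 0 ≤ 1 / (TM : ℝ) := by positivity
      linarith
  have h7 : 0 ≤ 1 / (P : ℝ) * ∑ i ∈ I, w i := by positivity
  have h8 : (∑ s ∈ Icc 5 TM, 1 / (s : ℝ) ^ 2) * (1 / P * ∑ i ∈ I, w i) ≤
      1 * (1 / P * ∑ i ∈ I, w i) := mul_le_mul_of_nonneg_right h4 h7
  rw [h2] at h1
  have h9 := h1.trans (h3.trans h8)
  rw [one_mul] at h9
  refine le_trans (le_of_eq ?_) h9
  congr

end Pool.Agent.Helper34.RB
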