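import Mathlib

/-!
# RB-12: number of the functions constant on a set

Put the proof into this file (keep the statement and the namespace).
-/

open Finset

namespace Pool.Agent.Helper34.RB

/-- Proof. Fix `v₀ ∈ S`, `S' = S.erase v₀` (`A` elements).  Map a pair (`Φ` constant on `S`,
`a : S' → Fin R`) to the function `v ↦ if v ∈ S' then a v else Φ v`.  This is injective: `a` is read
off on `S'`; outside `S'` we get `Φ` (in particular `Φ v₀`), and on `S'` the function `Φ` has the
value `Φ v₀`.  So (number of such `Φ`) `* R ^ A ≤ Fintype.card (V → Fin R)`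
(`Fintype.card_le_of_injective` on `{Φ // _} × (S' → Fin R)`, `Fintype.card_fun`, `Fintype.card_coe`;
or `Finset.card_le_card_of_injOn`). -/
theorem const_count {V : Type} [Fintype V] [DecidableEq V] {R A : ℕ} (S : Finset V)
    (hS : S.card = A + 1) :
    (univ.filter fun Φ : V → Fin R => ∀ v ∈ S, ∀ v' ∈ S, Φ v = Φ v').card * R ^ A ≤
      Fintype.card (V → Fin R) := by
  classical
  obtain ⟨v0, hv0⟩ : S.Nonempty := by
    rw [← Finset.card_pos]
    omega
  have hS'c : (S.erase v0).card = A := by
    rw [Finset.card_erase_of_mem hv0, hS]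
    rfl
  let T := {Φ : V → Fin R // ∀ v ∈ S, ∀ v' ∈ S, Φ v = Φ v'}
  let f : T × (↥(S.erase v0) → Fin R) → (V → Fin R) :=
    fun p v => if h : v ∈ S.erase v0 then p.2 ⟨v, h⟩ else p.1.1 v
  have hinj : Function.Injective f := by
    rintro ⟨⟨Φ, hΦ⟩, a⟩ ⟨⟨Ψ, hΨ⟩, b⟩ h
    have h1 : a = b := by
      funext ⟨v, hv⟩
      have h0 := congrFun h v
      simp only [f, dif_pos hv] at h0
      exact h0
    have h2 : ∀ v, v ∉ S.erase v0 → Φ v = Ψ v := by
      intro v hv
      have h0 := congrFun h v
      simp only [f, dif_neg hv] at h0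
      exact h0
    have h3 : Φ = Ψ := by
      funext v
      by_cases hv : v ∈ S.erase v0
      · have hvS : v ∈ S := Finset.mem_of_mem_erase hv
        rw [hΦ v hvS v0 hv0, hΨ v hvS v0 hv0]
        exact h2 v0 (Finset.notMem_erase _ _)
      · exact h2 v hv
    subst h3
    subst h1
    rfl
  have hcard := Fintype.card_le_of_injective f hinj
  rw [Fintype.card_prod] at hcard
  have h4 : Fintype.card T =
      (univ.filter fun Φ : V → Fin R => ∀ v ∈ S, ∀ v' ∈ S, Φ v = Φ v').card :=
    Fintype.card_subtype _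
  have h5 : Fintype.card (↥(S.erase v0) → Fin R) = R ^ A := by
    rw [Fintype.card_fun, Fintype.card_fin, Fintype.card_coe, hS'c]
  rw [h4, h5] at hcard
  exact hcard

end Pool.Agent.Helper34.RB
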