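import Pool.Agent.Helper34.RB.Vv3
import Pool.Agent.Helper34.RB.ConstCount

/-!
# RB-13: existence of a good compression

Put the proof into this file (keep the statement and the namespace).
-/

open Finset

namespace Pool.Agent.Helper34.RB

/-- Proof. Let `V = Fin (s - 1) → ZMod q` (`q ^ (s - 1)` elements).  Call `Φ : V → Fin R` bad for
`(a, b, J)` (`a b : V`, `J ⊆ range (s + 1)`) if the image `S = J.image (Vv a b)` has exactly `A + 1`
elements and `Φ` is constant on `S`.  For given `(a, b, J)` the number `B` of the bad `Φ` satisfies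
`B * R ^ A ≤ Fintype.card (V → Fin R)` (`const_count`; it is `0` if the image has another size).  The
number of triples is `q ^ (2 * (s - 1)) * 2 ^ (s + 1) < R ^ A`, and `Fintype.card (V → Fin R) =
R ^ _ > 0`; so the number of all `Φ` that are bad for some triple is less than
`Fintype.card (V → Fin R)`: if `B(a,b,J)` is the number for a triple,
`(∑ B) * R ^ A ≤ (number of triples) * card < R ^ A * card`.  So some `Φ : V → Fin R` is bad for no
triple (`Finset.card_biUnion_le`, `Finset.exists_mem_notMem_of_card_lt_card` or by contradiction).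
Take `fun v => (Φ v : ℕ)`; it is `< R`.

It is good: let `a`, `b`, `w` be given and
`I = (range (s + 1)).filter fun i => (∀ j, Vv a b i j ≠ 0) ∧ Φ (Vv a b i) = w`, and suppose
`I.card > 2 A`.  Every fibre of `Vv a b` on `I` has at most `2` elements (`Vv_fib`), so
`I.card ≤ 2 * (I.image (Vv a b)).card` (`Finset.card_le_mul_card_image`), so the image has at least
`A + 1` elements; take a subset `S` of it with exactly `A + 1` elements
(`Finset.exists_subset_card_eq`) and `J = I.filter (fun i => Vv a b i ∈ S)`: `J.image (Vv a b) = S`,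
and `Φ` is constant on `S`: `Φ` is bad for `(a, b, J)`, contradiction. -/
theorem compr_exists {q s R A : ℕ} [NeZero q] (hR : 0 < R)
    (hlt : q ^ (2 * (s - 1)) * 2 ^ (s + 1) < R ^ A) :
    ∃ Φ : (Fin (s - 1) → ZMod q) → ℕ, Compr q s R (2 * A) Φ := by
  classical
  by_contra hno
  push Not at hno
  have hRne : Nonempty (Fin R) := ⟨⟨0, hR⟩⟩
  let V := Fin (s - 1) → ZMod q
  have hcV : Fintype.card V = q ^ (s - 1) := by
    simp [V, ZMod.card]
  let bad : V × V × Finset ℕ → Finset (V → Fin R) := fun x =>
    if (x.2.2.image (Vv x.1 x.2.1)).card = A + 1 then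
      univ.filter fun Φ : V → Fin R => ∀ v ∈ x.2.2.image (Vv x.1 x.2.1),
        ∀ v' ∈ x.2.2.image (Vv x.1 x.2.1), Φ v = Φ v'
    else ∅
  have hbad : ∀ x, (bad x).card * R ^ A ≤ Fintype.card (V → Fin R) := by
    intro x
    simp only [bad]
    split_ifs with h
    · exact const_count _ h
    · simp
  let Ts : Finset (V × V × Finset ℕ) := univ ×ˢ univ ×ˢ (range (s + 1)).powerset
  have hTs : Ts.card = q ^ (2 * (s - 1)) * 2 ^ (s + 1) := by
    simp only [Ts, card_product, card_univ, card_powerset, card_range, hcV]
    ring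
  have hcov : (univ : Finset (V → Fin R)) ⊆ Ts.biUnion bad := by
    intro Φ _
    have h1 := hno fun v => (Φ v : ℕ)
    unfold Compr at h1
    push Not at h1
    obtain ⟨a, b, w, hw⟩ := h1 fun v => (Φ v).isLt
    set I := (range (s + 1)).filter fun i =>
      (∀ j, Vv a b i j ≠ 0) ∧ ((Φ (Vv a b i) : Fin R) : ℕ) = w with hI
    have hIc : I.card ≤ 2 * (I.image (Vv a b)).card := by
      apply Finset.card_le_mul_card_image
      intro v hv
      refine le_trans (Finset.card_le_card ?_) (Vv_fib a b v)
      intro i hi
      rw [mem_filter] at hi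
      rw [hI, mem_filter] at hi
      rw [mem_filter]
      exact ⟨hi.1.1, hi.1.2.1, hi.2⟩
    have himc : A + 1 ≤ (I.image (Vv a b)).card := by
      have : 2 * A < I.card := hw
      omega
    obtain ⟨S, hS, hSc⟩ := Finset.exists_subset_card_eq himc
    rw [mem_biUnion]
    refine ⟨(a, b, I.filter fun i => Vv a b i ∈ S), ?_, ?_⟩
    · simp only [Ts, mem_product, mem_univ, true_and, mem_powerset]
      intro i hi
      rw [mem_filter, hI, mem_filter] at hi
      exact hi.1.1
    · have himg : (I.filter fun i => Vv a b i ∈ S).image (Vv a b) = S := by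
        ext v
        rw [mem_image]
        constructor
        · rintro ⟨i, hi, rfl⟩
          exact (mem_filter.mp hi).2
        · intro hv
          obtain ⟨i, hi, hiv⟩ := mem_image.mp (hS hv)
          exact ⟨i, mem_filter.mpr ⟨hi, by rw [hiv]; exact hv⟩, hiv⟩
      simp only [bad]
      rw [if_pos (by rw [himg]; exact hSc), mem_filter, himg]
      refine ⟨mem_univ _, fun v hv v' hv' => ?_⟩
      have key : ∀ u ∈ S, ((Φ u : Fin R) : ℕ) = w := by
        intro u hu
        obtain ⟨i, hi, hiu⟩ := mem_image.mp (hS hu)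
        rw [hI, mem_filter] at hi
        rw [← hiu]
        exact hi.2.2
      exact Fin.ext ((key v hv).trans (key v' hv').symm)
  have hle : Fintype.card (V → Fin R) ≤ ∑ x ∈ Ts, (bad x).card := by
    rw [← card_univ]
    exact (card_le_card hcov).trans card_biUnion_le
  have hsum : (∑ x ∈ Ts, (bad x).card) * R ^ A ≤ Ts.card * Fintype.card (V → Fin R) := by
    rw [sum_mul, ← smul_eq_mul, ← sum_const]
    exact sum_le_sum fun x _ => hbad x
  have hpos : 0 < Fintype.card (V → Fin R) := Fintype.card_pos
  have h2 : Fintype.card (V → Fin R) * R ^ A ≤ Ts.card * Fintype.card (V → Fin R) :=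
    (Nat.mul_le_mul_right _ hle).trans hsum
  rw [hTs] at h2
  have h3 : q ^ (2 * (s - 1)) * 2 ^ (s + 1) * Fintype.card (V → Fin R) <
      R ^ A * Fintype.card (V → Fin R) := Nat.mul_lt_mul_of_pos_right hlt hpos
  rw [mul_comm (R ^ A)] at h3
  exact absurd h2 (not_le.mpr h3)

end Pool.Agent.Helper34.RB
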