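import Pool.Agent.Helper34.RB.Param

/-!
# RB-20: two numerical facts

Put the proofs into this file (keep the statements and the namespace).
-/

namespace Pool.Agent.Helper34.RB

private theorem num_mul {x a b c d : ℕ} (h0 : x ≤ c * a) (h1 : a < b) (h2 : c ≤ d) (h3 : 0 < c) :
    x < d * b :=
  lt_of_le_of_lt h0 (lt_of_lt_of_le (Nat.mul_lt_mul_of_pos_left h1 h3) (Nat.mul_le_mul_right _ h2))

private theorem num_aux {s : ℕ} (hs : 1 ≤ s) : (s + 1) ^ s ≤ 3 * s ^ s := by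
  have h0 : (0 : ℝ) < s := by exact_mod_cast hs
  have h1 : (1 + 1 / (s : ℝ)) ^ s ≤ 3 := by
    have h2 : 1 + 1 / (s : ℝ) ≤ Real.exp (1 / (s : ℝ)) := by
      have := Real.add_one_le_exp (1 / (s : ℝ))
      linarith
    have h3 : (1 + 1 / (s : ℝ)) ^ s ≤ Real.exp (1 / (s : ℝ)) ^ s :=
      pow_le_pow_left₀ (by positivity) h2 s
    have h4 : Real.exp (1 / (s : ℝ)) ^ s = Real.exp 1 := by
      rw [← Real.exp_nat_mul]
      congr 1
      field_simp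
    have h5 := Real.exp_one_lt_d9
    linarith
  have h2 : ((s : ℝ) + 1) ^ s ≤ 3 * (s : ℝ) ^ s := by
    have h3 : ((s : ℝ) + 1) ^ s = (1 + 1 / (s : ℝ)) ^ s * (s : ℝ) ^ s := by
      rw [← mul_pow]
      congr 1
      field_simp
    rw [h3]
    exact mul_le_mul_of_nonneg_right h1 (by positivity)
  exact_mod_cast h2

/-- Proof. Induction on `s` from `5`: `5 ^ 24 * 2 ^ 6 < 6 ^ 28` (`norm_num`).  Step: the left side is
multiplied by `2 (s+1)^(6 s) / s^(6 (s-1))`, and `(s + 1) ^ s ≤ 3 * s ^ s` (from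
`(1 + 1/s)^s ≤ exp 1 < 3`: `Real.add_one_le_exp`, `Real.exp_one_lt_d9`), so
`(s+1)^(6s) ≤ 3^6 * s^(6s) = 729 * s^6 * s^(6(s-1))`; the right side is multiplied by
`(s - 1) ^ 28`, and `1458 * s^6 ≤ (s - 1)^28` for `s ≥ 5` (`s ≤ 2 (s - 1)`, so
`1458 s^6 ≤ 1458 * 64 * (s-1)^6 ≤ 4^22 (s-1)^6`). -/
theorem num_s {s : ℕ} (hs : 5 ≤ s) :
    s ^ (6 * (s - 1)) * 2 ^ (s + 1) < (s - 2).factorial ^ 28 := by
  induction s, hs using Nat.le_induction with
  | base => norm_num [Nat.factorial]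
  | succ s hs ih =>
    obtain ⟨m, rfl⟩ : ∃ m, s = m + 5 := ⟨s - 5, by omega⟩
    have e1 : m + 5 + 1 - 1 = m + 5 := by omega
    have e2 : m + 5 + 1 - 2 = m + 4 := by omega
    have e3 : m + 5 - 1 = m + 4 := by omega
    have e4 : m + 5 - 2 = m + 3 := by omega
    rw [e1, e2]
    rw [e3, e4] at ih
    have h1 := num_aux (s := m + 5) (by omega)
    have h2 : (m + 5 + 1) ^ (6 * (m + 5)) ≤ 729 * (m + 5) ^ 6 * (m + 5) ^ (6 * (m + 4)) := by
      calc (m + 5 + 1) ^ (6 * (m + 5)) = ((m + 5 + 1) ^ (m + 5)) ^ 6 := by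
            rw [← pow_mul, mul_comm]
        _ ≤ (3 * (m + 5) ^ (m + 5)) ^ 6 := Nat.pow_le_pow_left h1 6
        _ = 729 * (m + 5) ^ (6 * (m + 5)) := by
            rw [mul_pow, ← pow_mul, mul_comm (m + 5) 6]
            norm_num
        _ = 729 * (m + 5) ^ 6 * (m + 5) ^ (6 * (m + 4)) := by
            rw [mul_assoc, ← pow_add]
            congr 2
            ring
    have h3 : 1458 * (m + 5) ^ 6 ≤ (m + 4) ^ 28 := by
      have h4 : (m + 5) ^ 6 ≤ (2 * (m + 4)) ^ 6 := Nat.pow_le_pow_left (by omega) 6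
      have h5 : (4 : ℕ) ^ 22 ≤ (m + 4) ^ 22 := Nat.pow_le_pow_left (by omega) 22
      calc 1458 * (m + 5) ^ 6 ≤ 1458 * (2 * (m + 4)) ^ 6 := Nat.mul_le_mul_left _ h4
        _ = 93312 * (m + 4) ^ 6 := by
            rw [mul_pow]
            ring
        _ ≤ 4 ^ 22 * (m + 4) ^ 6 := Nat.mul_le_mul_right _ (by norm_num)
        _ ≤ (m + 4) ^ 22 * (m + 4) ^ 6 := Nat.mul_le_mul_right _ h5
        _ = (m + 4) ^ 28 := by rw [← pow_add]
    have h6 : (m + 4).factorial = (m + 4) * (m + 3).factorial := Nat.factorial_succ (m + 3)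
    have h7 : (m + 5 + 1) ^ (6 * (m + 5)) * 2 ^ (m + 5 + 1 + 1) ≤
        1458 * (m + 5) ^ 6 * ((m + 5) ^ (6 * (m + 4)) * 2 ^ (m + 5 + 1)) := by
      refine (Nat.mul_le_mul_right _ h2).trans (le_of_eq ?_)
      rw [pow_succ 2 (m + 5 + 1)]
      ring
    have h8 : 0 < 1458 * (m + 5) ^ 6 := Nat.mul_pos (by norm_num) (Nat.pow_pos (Nat.succ_pos _))
    have h9 := num_mul h7 ih h3 h8
    rw [h6, mul_pow]
    exact h9

/-- Proof. `(s^3 P)^(2 (s-1)) = s^(6 (s-1)) * P^(2 (s-1))` and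
`((s-2)! P^s)^28 = ((s-2)!)^28 * P^(28 s)` with `P^(2 (s-1)) ≤ P^(28 s)`. -/
theorem num_q {P s : ℕ} (hP : 1 ≤ P) (hs : 5 ≤ s) :
    qq P s ^ (2 * (s - 1)) * 2 ^ (s + 1) < RR P s ^ 28 := by
  have h1 := num_s hs
  unfold qq RR
  have h2 : P ^ (2 * (s - 1)) ≤ P ^ (28 * s) := Nat.pow_le_pow_right hP (by omega)
  have h3 : 0 < P ^ (2 * (s - 1)) := Nat.pow_pos hP
  calc (s ^ 3 * P) ^ (2 * (s - 1)) * 2 ^ (s + 1)
      = (s ^ (6 * (s - 1)) * 2 ^ (s + 1)) * P ^ (2 * (s - 1)) := by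
        rw [mul_pow, ← pow_mul]
        have : 3 * (2 * (s - 1)) = 6 * (s - 1) := by ring
        rw [this]
        ring
    _ < (s - 2).factorial ^ 28 * P ^ (2 * (s - 1)) := mul_lt_mul_of_pos_right h1 h3
    _ ≤ (s - 2).factorial ^ 28 * P ^ (28 * s) := mul_le_mul_of_nonneg_left h2 (Nat.zero_le _)
    _ = ((s - 2).factorial * P ^ s) ^ 28 := by
        rw [mul_pow, ← pow_mul, mul_comm s 28]

end Pool.Agent.Helper34.RB
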