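import Pool.Agent.Helper34.RB.Param

/-!
# RB-21: the range of the base colouring

Put the proof into this file (keep the statement and the namespace).
-/

namespace Pool.Agent.Helper34.RB

private lemma range_step {P m a : ℕ} (hP : 1 ≤ P) (hm : 1 ≤ m)
    (h : 16 ^ a * P ^ a * a.factorial < 16 * P ^ 2 * m) :
    ((ww P (a + 1) * (NN P m a + 1) + ww P (a + 2) * (NN P m (a + 2) + 1) +
      2 * (RR P (a + 1) + RR P a + RR P (a + 2)) : ℕ) : ℝ) ≤
      289 * ((P : ℝ) ^ 4 * m) / 8 ^ a := by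
  have hP1 : (1 : ℝ) ≤ P := by exact_mod_cast hP
  have hm1 : (1 : ℝ) ≤ m := by exact_mod_cast hm
  have hP0 : (0 : ℝ) < P := by linarith
  have hfa : (0 : ℝ) < (a.factorial : ℝ) := by exact_mod_cast Nat.factorial_pos a
  have hfa2 : (0 : ℝ) < ((a + 2).factorial : ℝ) := by exact_mod_cast Nat.factorial_pos (a + 2)
  have h8 : (0 : ℝ) < 8 ^ a := by positivity
  -- the natural numbers
  have r1 : RR P (a + 1) ≤ a.factorial * P ^ (a + 1) :=
    Nat.mul_le_mul (Nat.factorial_le (by omega)) le_rfl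
  have r0 : RR P a ≤ a.factorial * P ^ (a + 1) :=
    Nat.mul_le_mul (Nat.factorial_le (by omega)) (Nat.pow_le_pow_right hP (by omega))
  have r2 : RR P (a + 2) = a.factorial * P ^ (a + 2) := rfl
  have rs : a.factorial * P ^ (a + 1) ≤ a.factorial * P ^ (a + 2) :=
    Nat.mul_le_mul le_rfl (Nat.pow_le_pow_right hP (by omega))
  have w1 : ww P (a + 1) ≤ 4 * (a.factorial * P ^ (a + 1)) := by
    have : ww P (a + 1) = 2 * (RR P (a + 1) + RR P a) := rfl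
    omega
  have w2 : ww P (a + 2) ≤ 4 * (a.factorial * P ^ (a + 2)) := by
    have : ww P (a + 2) = 2 * (RR P (a + 2) + RR P (a + 1)) := rfl
    omega
  have hn : ww P (a + 1) * (NN P m a + 1) + ww P (a + 2) * (NN P m (a + 2) + 1) +
      2 * (RR P (a + 1) + RR P a + RR P (a + 2)) ≤
      4 * (a.factorial * P ^ (a + 1)) * NN P m a +
      4 * (a.factorial * P ^ (a + 2)) * NN P m (a + 2) + 14 * (a.factorial * P ^ (a + 2)) := by
    have e1 : ww P (a + 1) * NN P m a ≤ 4 * (a.factorial * P ^ (a + 1)) * NN P m a :=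
      Nat.mul_le_mul w1 le_rfl
    have e2 : ww P (a + 2) * NN P m (a + 2) ≤ 4 * (a.factorial * P ^ (a + 2)) * NN P m (a + 2) :=
      Nat.mul_le_mul w2 le_rfl
    rw [mul_add, mul_add, mul_one, mul_one]
    omega
  have hn' : ((ww P (a + 1) * (NN P m a + 1) + ww P (a + 2) * (NN P m (a + 2) + 1) +
      2 * (RR P (a + 1) + RR P a + RR P (a + 2)) : ℕ) : ℝ) ≤
      4 * ((a.factorial : ℝ) * P ^ (a + 1)) * (NN P m a : ℝ) +
      4 * ((a.factorial : ℝ) * P ^ (a + 2)) * (NN P m (a + 2) : ℝ) +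
      14 * ((a.factorial : ℝ) * P ^ (a + 2)) := by
    exact_mod_cast hn
  refine hn'.trans ?_
  -- the terms
  have n0 : (NN P m a : ℝ) ≤ 16 * (P : ℝ) ^ 2 * m / (8 ^ a * (P : ℝ) ^ a * (a.factorial : ℝ)) := by
    unfold NN
    refine (Nat.cast_div_le).trans (le_of_eq ?_)
    push_cast
    rfl
  have n2 : (NN P m (a + 2) : ℝ) ≤
      16 * (P : ℝ) ^ 2 * m / (8 ^ (a + 2) * (P : ℝ) ^ (a + 2) * ((a + 2).factorial : ℝ)) := by
    unfold NN
    refine (Nat.cast_div_le).trans (le_of_eq ?_)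
    push_cast
    rfl
  have hPm : (P : ℝ) ^ 3 * m ≤ (P : ℝ) ^ 4 * m := by
    have h1 : (P : ℝ) ^ 3 ≤ (P : ℝ) ^ 4 := pow_le_pow_right₀ hP1 (by norm_num)
    exact mul_le_mul_of_nonneg_right h1 (by positivity)
  have hPm2 : (P : ℝ) ^ 2 * m ≤ (P : ℝ) ^ 4 * m := by
    have h1 : (P : ℝ) ^ 2 ≤ (P : ℝ) ^ 4 := pow_le_pow_right₀ hP1 (by norm_num)
    exact mul_le_mul_of_nonneg_right h1 (by positivity)
  have t1 : 4 * ((a.factorial : ℝ) * P ^ (a + 1)) * (NN P m a : ℝ) ≤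
      64 * ((P : ℝ) ^ 4 * m) / 8 ^ a := by
    calc 4 * ((a.factorial : ℝ) * P ^ (a + 1)) * (NN P m a : ℝ)
        ≤ 4 * ((a.factorial : ℝ) * P ^ (a + 1)) *
          (16 * (P : ℝ) ^ 2 * m / (8 ^ a * (P : ℝ) ^ a * (a.factorial : ℝ))) :=
          mul_le_mul_of_nonneg_left n0 (by positivity)
      _ = 64 * ((P : ℝ) ^ 3 * m) / 8 ^ a := by
          field_simp
          ring
      _ ≤ 64 * ((P : ℝ) ^ 4 * m) / 8 ^ a := by
          apply div_le_div_of_nonneg_right _ h8.le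
          linarith
  have t2 : 4 * ((a.factorial : ℝ) * P ^ (a + 2)) * (NN P m (a + 2) : ℝ) ≤
      1 * ((P : ℝ) ^ 4 * m) / 8 ^ a := by
    have hff : (a.factorial : ℝ) ≤ ((a + 2).factorial : ℝ) := by
      exact_mod_cast Nat.factorial_le (by omega)
    calc 4 * ((a.factorial : ℝ) * P ^ (a + 2)) * (NN P m (a + 2) : ℝ)
        ≤ 4 * ((a.factorial : ℝ) * P ^ (a + 2)) *
          (16 * (P : ℝ) ^ 2 * m / (8 ^ (a + 2) * (P : ℝ) ^ (a + 2) * ((a + 2).factorial : ℝ))) :=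
          mul_le_mul_of_nonneg_left n2 (by positivity)
      _ = ((a.factorial : ℝ) / ((a + 2).factorial : ℝ)) * ((P : ℝ) ^ 2 * m / 8 ^ a) := by
          rw [pow_add 8 a 2]
          field_simp
          ring
      _ ≤ 1 * ((P : ℝ) ^ 2 * m / 8 ^ a) := by
          apply mul_le_mul_of_nonneg_right _ (by positivity)
          rw [div_le_one hfa2]
          exact hff
      _ ≤ 1 * ((P : ℝ) ^ 4 * m) / 8 ^ a := by
          rw [one_mul, one_mul]
          exact div_le_div_of_nonneg_right hPm2 h8.le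
  have t3 : 14 * ((a.factorial : ℝ) * P ^ (a + 2)) ≤ 224 * ((P : ℝ) ^ 4 * m) / 8 ^ a := by
    have h1 : (16 : ℝ) ^ a * (P : ℝ) ^ a * (a.factorial : ℝ) ≤ 16 * (P : ℝ) ^ 2 * m := by
      exact_mod_cast h.le
    have h2 : (8 : ℝ) ^ a ≤ 16 ^ a := pow_le_pow_left₀ (by norm_num) (by norm_num) a
    rw [le_div_iff₀ h8]
    have h3 : 14 * ((a.factorial : ℝ) * P ^ (a + 2)) * 8 ^ a ≤
        14 * ((a.factorial : ℝ) * P ^ (a + 2)) * 16 ^ a :=
      mul_le_mul_of_nonneg_left h2 (by positivity)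
    refine h3.trans ?_
    have h4 : 14 * ((a.factorial : ℝ) * P ^ (a + 2)) * 16 ^ a =
        14 * (P : ℝ) ^ 2 * ((16 : ℝ) ^ a * (P : ℝ) ^ a * (a.factorial : ℝ)) := by
      rw [pow_add (P : ℝ) a 2]
      ring
    rw [h4]
    calc 14 * (P : ℝ) ^ 2 * ((16 : ℝ) ^ a * (P : ℝ) ^ a * (a.factorial : ℝ))
        ≤ 14 * (P : ℝ) ^ 2 * (16 * (P : ℝ) ^ 2 * m) :=
          mul_le_mul_of_nonneg_left h1 (by positivity)
      _ = 224 * ((P : ℝ) ^ 4 * m) := by ring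
  have hsum : 64 * ((P : ℝ) ^ 4 * m) / 8 ^ a + 1 * ((P : ℝ) ^ 4 * m) / 8 ^ a +
      224 * ((P : ℝ) ^ 4 * m) / 8 ^ a = 289 * ((P : ℝ) ^ 4 * m) / 8 ^ a := by ring
  linarith

/-- Proof.  Let `D = P ^ 4 * m ≥ 1` (real number).  Claim, by induction on `t ≤ TM`:
`CC P m (t + 1) ≤ D * (600 - 598 / 8 ^ t)`.

`t = 0`: `CC P m 1 = P + 1 ≤ 2 D` (`RR P 1 = P`, `RR P 0 = 1`).

Step: for `1 ≤ t ≤ TM` (`CC_succ`),
`CC (t+1) - CC t = w t (N (t-1) + 1) + w (t+1) (N (t+1) + 1) + 2 (R t + R (t-1) + R (t+1))`.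
* `R (t - 1) ≤ R t` for `t ≥ 1` (`Nat.factorial_le`, `Nat.pow_le_pow_right`), so `w t ≤ 4 R t`.
* `N t ≤ 16 P² m / (8^t P^t t!)` (real division; `Nat.cast_div_le`).
* `w t * N (t-1) ≤ 4 (t-2)! P^t * 16 P² m / (8^(t-1) P^(t-1) (t-1)!) ≤ 64 P³ m / 8^(t-1)`, as
  `(t-2)! ≤ (t-1)!`.
* `w (t+1) * N (t+1) ≤ 4 (t-1)! P^(t+1) * 16 P² m / (8^(t+1) P^(t+1) (t+1)!) ≤ P² m / 8^(t-1)`.
* the rest is `w t + w (t+1) + 2 (R t + R (t-1) + R (t+1)) ≤ 4 R t + 4 R (t+1) + 4 R t + 2 R (t+1)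
  ≤ 14 R (t+1) = 14 (t-1)! P^(t+1)`, and by `hmin (t-1)`:
  `16^(t-1) P^(t-1) (t-1)! < 16 P² m`, so `(t-1)! P^(t+1) ≤ 16 P⁴ m / 16^(t-1) ≤ 16 D / 8^(t-1)`.
Sum: at most `D * (64 + 1 + 224) / 8^(t-1) = 289 D / 8^(t-1)`, and the claim needs an increment
`≤ 598 D (1 / 8^(t-1) - 1 / 8^t) = 523.25 D / 8^(t-1)`. -/
theorem range_le {P m TM : ℕ} (hP : 1 ≤ P) (hm : 1 ≤ m)
    (hmin : ∀ t < TM, 16 ^ t * P ^ t * t.factorial < 16 * P ^ 2 * m) :
    CC P m (TM + 1) ≤ KK P m := by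
  have hP1 : (1 : ℝ) ≤ P := by exact_mod_cast hP
  have hm1 : (1 : ℝ) ≤ m := by exact_mod_cast hm
  have hD1 : (P : ℝ) ≤ (P : ℝ) ^ 4 * m := by
    calc (P : ℝ) = (P : ℝ) ^ 1 * 1 := by ring
      _ ≤ (P : ℝ) ^ 4 * m :=
        mul_le_mul (pow_le_pow_right₀ hP1 (by norm_num)) hm1 (by norm_num) (by positivity)
  have claim : ∀ t ≤ TM, (CC P m (t + 1) : ℝ) ≤ ((P : ℝ) ^ 4 * m) * (600 - 598 / 8 ^ t) := by
    intro t
    induction t with
    | zero =>
      intro _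
      have h1 : CC P m (0 + 1) = P + 1 := by
        rw [zero_add, CC_one]
        unfold RR
        simp
      rw [h1]
      push_cast
      rw [pow_zero]
      linarith
    | succ a ih =>
      intro ha
      have h1 := ih (by omega)
      have h2 := range_step hP hm (hmin a (by omega))
      have h3 := CC_succ P m (t := a + 1) (by omega)
      have h4 : a + 1 - 1 = a := by omega
      rw [h4] at h3
      have h5 : (CC P m (a + 1 + 1) : ℝ) = (CC P m (a + 1) : ℝ) +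
          ((ww P (a + 1) * (NN P m a + 1) + ww P (a + 2) * (NN P m (a + 2) + 1) +
            2 * (RR P (a + 1) + RR P a + RR P (a + 2)) : ℕ) : ℝ) := by
        rw [h3]
        push_cast
        ring
      rw [h5]
      have h8 : (0 : ℝ) < 8 ^ a := by positivity
      have h6 : ((P : ℝ) ^ 4 * m) * (600 - 598 / 8 ^ (a + 1)) =
          ((P : ℝ) ^ 4 * m) * (600 - 598 / 8 ^ a) + (4186 / 8) * ((P : ℝ) ^ 4 * m) / 8 ^ a := by
        rw [pow_succ]
        field_simp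
        ring
      have h7 : 289 * ((P : ℝ) ^ 4 * m) / 8 ^ a ≤ (4186 / 8) * ((P : ℝ) ^ 4 * m) / 8 ^ a := by
        apply div_le_div_of_nonneg_right _ h8.le
        apply mul_le_mul_of_nonneg_right (by norm_num)
        positivity
      rw [h6]
      linarith
  have h1 := claim TM le_rfl
  have h2 : (CC P m (TM + 1) : ℝ) ≤ (KK P m : ℝ) := by
    refine h1.trans ?_
    unfold KK
    push_cast
    have h3 : (0 : ℝ) ≤ 598 / 8 ^ TM := by positivity
    have h4 : (0 : ℝ) ≤ (P : ℝ) ^ 4 * m := by positivity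
    nlinarith
  exact_mod_cast h2

end Pool.Agent.Helper34.RB
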