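import Pool.Agent.Helper34.RB.BaseDet
import Pool.Agent.Helper34.RB.ChooseH
import Pool.Agent.Helper34.RB.ChooseM
import Pool.Agent.Helper34.RB.Compress
import Pool.Agent.Helper34.RB.Num
import Pool.Agent.Helper34.RB.Range

/-!
# RB-24: the base colouring (assembly, helper34)
-/

open Finset

namespace Pool.Agent.Helper34.RB

lemma exists_TM (P m : ℕ) (hP : 1 ≤ P) :
    ∃ t, 16 * P ^ 2 * m ≤ 16 ^ t * P ^ t * t.factorial := by
  refine ⟨16 * P ^ 2 * m, ?_⟩
  have h1 : 16 * P ^ 2 * m ≤ 16 ^ (16 * P ^ 2 * m) := (Nat.lt_pow_self (by norm_num)).le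
  calc 16 * P ^ 2 * m ≤ 16 ^ (16 * P ^ 2 * m) * 1 * 1 := by simpa using h1
    _ ≤ _ := by
      gcongr
      · exact Nat.pow_pos hP
      · exact Nat.factorial_pos _

lemma sum_filter_or_le {ι : Type} (I : Finset ι) (w : ι → ℝ) (hw : ∀ i ∈ I, 0 ≤ w i)
    (p q r : ι → Prop) [DecidablePred p] [DecidablePred q] [DecidablePred r]
    (h : ∀ i ∈ I, r i → p i ∨ q i) :
    ∑ i ∈ I.filter r, w i ≤ ∑ i ∈ I.filter p, w i + ∑ i ∈ I.filter q, w i := by
  classical
  rw [sum_filter, sum_filter, sum_filter, ← sum_add_distrib]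
  refine sum_le_sum fun i hi => ?_
  have h0 := hw i hi
  by_cases h1 : r i
  · rcases h i hi h1 with h2 | h2
    · rw [if_pos h1, if_pos h2]; split_ifs <;> linarith
    · rw [if_pos h1, if_pos h2]; split_ifs <;> linarith
  · rw [if_neg h1]; split_ifs <;> linarith

open Classical in
theorem base_final {X ι : Type} [LinearOrder X] [Fintype X] (I : Finset ι) (S : ι → Finset X)
    (w : ι → ℝ) (hw : ∀ i ∈ I, 0 ≤ w i) {P m : ℕ} (hP : 1 ≤ P) (hm : 1 ≤ m)
    (hS : ∀ i ∈ I, (S i).card ≤ m) :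
    ∃ (good : Finset X → Prop) (g : Finset X → ℕ), BddCol 56 good g ∧ (∀ E, g E < KK P m) ∧
      ∑ i ∈ I.filter (fun i => ¬ good (S i)), w i ≤ 3 / P * ∑ i ∈ I, w i := by
  have hex := exists_TM P m hP
  set TM := Nat.find hex with hTMdef
  have hTM : 16 * P ^ 2 * m ≤ 16 ^ TM * P ^ TM * TM.factorial := Nat.find_spec hex
  have hmin : ∀ t < TM, 16 ^ t * P ^ t * t.factorial < 16 * P ^ 2 * m :=
    fun t ht => not_le.mp (Nat.find_min hex ht)
  obtain ⟨h, hh⟩ := chooseH I S w hw hP hm hS hTM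
  obtain ⟨M, hM⟩ := chooseM h I S w hw hP TM
  have hΦex : ∀ s, ∃ Φ : (Fin (s - 1) → ZMod (qq P s)) → ℕ,
      5 ≤ s → Compr (qq P s) s (RR P s) 56 Φ := by
    intro s
    by_cases hs : 5 ≤ s
    · have : NeZero (qq P s) := ⟨by unfold qq; positivity⟩
      obtain ⟨Φ, hΦ⟩ := compr_exists (q := qq P s) (s := s) (R := RR P s) (A := 28)
        (RR_pos hP s) (num_q hP hs)
      exact ⟨Φ, fun _ => hΦ⟩
    · exact ⟨fun _ => 0, fun h' => absurd h' hs⟩
  choose Φ hΦ using hΦex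
  refine ⟨Good h (NN P m) (qq P) M TM,
    fun E => (stat h (CC P m) (ww P) TM E + Dsum h (qq P) M Φ TM E) % KK P m, ?_, ?_, ?_⟩
  · refine base_det h M Φ (RR_pos hP) (fun s hs _ => hΦ s hs) (fun t => by unfold ww; omega)
      (by rw [CC_one]) (fun t ht _ => ?_) (range_le hP hm hmin)
    rw [CC_succ P m ht]
    have h1 : ww P t * NN P m (t - 1) ≤ ww P t * (NN P m (t - 1) + 1) :=
      Nat.mul_le_mul le_rfl (Nat.le_succ _)
    have h2 : ww P (t + 1) * NN P m (t + 1) ≤ ww P (t + 1) * (NN P m (t + 1) + 1) :=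
      Nat.mul_le_mul le_rfl (Nat.le_succ _)
    omega
  · intro E
    exact Nat.mod_lt _ (by unfold KK; positivity)
  · have h2 := sum_filter_or_le I w hw
      (fun i => ¬ ((∀ t, (Bs h (S i) t).card ≤ NN P m t) ∧ Bs h (S i) TM = ∅))
      (fun i => ¬ ∀ s ∈ Icc 5 TM, NZ h (qq P s) (M s) s (S i))
      (fun i => ¬ Good h (NN P m) (qq P) M TM (S i)) (fun i _ hi => by
        by_contra hcon
        rw [not_or, not_not, not_not] at hcon
        exact hi ⟨hcon.1.1, hcon.1.2, hcon.2⟩)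
    refine h2.trans ((add_le_add hh hM).trans (le_of_eq ?_))
    ring

end Pool.Agent.Helper34.RB
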