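import Pool.Agent.Helper34.RB.Rank

/-!
# RB-05: the average number of excess elements

Put the proofs into this file (keep the statements and the namespace).
-/

open Finset

namespace Pool.Agent.Helper34.RB

section

variable {X : Type} [LinearOrder X] {G : ℕ}

/-- Proof. `exc h τ E` is the disjoint union over `b` of its intersections with the cells `b`
(`Finset.card_eq_sum_card_fiberwise` with the map `h`); on the cell `b` the map `rk h E` is injective
(`rk_inj`) with values in `Finset.Ico τ (ld h E b)` (`rk_lt_ld`), so this part has at most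
`ld h E b - τ` elements (natural subtraction).  Finally `(d - τ : ℕ) ≤ (1 / θ) * exp (θ d - θ τ)`: if
`d ≤ τ` the left side is `0`; otherwise with `y = θ (d - τ)`: `y ≤ exp y` (`Real.add_one_le_exp`). -/
theorem card_exc_le (h : X → Fin G) (τ : ℕ) {θ : ℝ} (hθ : 0 < θ) (E : Finset X) :
    ((exc h τ E).card : ℝ) ≤ ∑ b : Fin G, (1 / θ) * Real.exp (θ * ld h E b - θ * τ) := by
  have h1 : (exc h τ E).card = ∑ b : Fin G, ((exc h τ E).filter (fun x => h x = b)).card :=
    Finset.card_eq_sum_card_fiberwise (fun x _ => Finset.mem_coe.2 (mem_univ (h x)))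
  rw [h1, Nat.cast_sum]
  refine Finset.sum_le_sum fun b _ => ?_
  have h2 : ((exc h τ E).filter (fun x => h x = b)).card ≤ ld h E b - τ := by
    rw [← Nat.card_Ico]
    refine Finset.card_le_card_of_injOn (rk h E) ?_ ?_
    · intro x hx
      rw [Finset.mem_coe, mem_filter] at hx
      obtain ⟨hx1, hx2⟩ := hx
      unfold exc at hx1
      rw [mem_filter] at hx1
      rw [Finset.mem_coe, mem_Ico]
      refine ⟨hx1.2, ?_⟩
      rw [← hx2]
      exact rk_lt_ld hx1.1
    · intro x hx y hy hxy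
      rw [Finset.mem_coe, mem_filter] at hx hy
      obtain ⟨hx1, hx2⟩ := hx
      obtain ⟨hy1, hy2⟩ := hy
      unfold exc at hx1 hy1
      rw [mem_filter] at hx1 hy1
      exact rk_inj hx1.1 hy1.1 (hx2.trans hy2.symm) hxy
  have h3 : (((exc h τ E).filter (fun x => h x = b)).card : ℝ) ≤ ((ld h E b - τ : ℕ) : ℝ) := by
    exact_mod_cast h2
  refine h3.trans ?_
  rcases le_total (ld h E b) τ with h4 | h4
  · rw [Nat.sub_eq_zero_of_le h4, Nat.cast_zero]
    positivity
  · rw [Nat.cast_sub h4, one_div, ← div_eq_inv_mul, le_div_iff₀ hθ]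
    have h5 := Real.add_one_le_exp (θ * ld h E b - θ * τ)
    linarith

/-- Proof. `exp (θ * ld h E b) = ∏ x : X, (if x ∈ E ∧ h x = b then exp θ else 1)`
(`Finset.prod_ite`/`Finset.prod_const`, `Real.exp_nat_mul`).  By `Finset.prod_univ_sum`
(or `Fintype.piFinset_univ`, `Finset.sum_prod_piFinset`) the sum over all `h` is
`∏ x : X, ∑ c : Fin G, (if x ∈ E ∧ c = b then exp θ else 1)`; the factor is `G` if `x ∉ E` and
`G - 1 + exp θ = G * (1 + (exp θ - 1) / G)` if `x ∈ E`; and
`Fintype.card (X → Fin G) = G ^ Fintype.card X`. -/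
theorem exp_ld_sum [Fintype X] (hG : 0 < G) (θ : ℝ) (E : Finset X) (b : Fin G) :
    ∑ h : X → Fin G, Real.exp (θ * ld h E b) =
      (Fintype.card (X → Fin G) : ℝ) * (1 + (Real.exp θ - 1) / G) ^ E.card := by
  classical
  have hG' : (G : ℝ) ≠ 0 := by exact_mod_cast hG.ne'
  have h1 : ∀ h : X → Fin G, Real.exp (θ * ld h E b) =
      ∏ x : X, (if x ∈ E ∧ h x = b then Real.exp θ else 1) := by
    intro h
    rw [Finset.prod_ite, Finset.prod_const, Finset.prod_const_one, mul_one, mul_comm,
      Real.exp_nat_mul]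
    congr 1
    unfold ld cell
    congr 1
    ext x
    simp
  simp_rw [h1]
  have h2 := Finset.prod_univ_sum (fun _ : X => (univ : Finset (Fin G)))
    (fun x c => if x ∈ E ∧ c = b then Real.exp θ else (1 : ℝ))
  rw [Fintype.piFinset_univ] at h2
  rw [← h2]
  have h3 : ∀ x : X, ∑ c : Fin G, (if x ∈ E ∧ c = b then Real.exp θ else (1 : ℝ)) =
      (G : ℝ) * (if x ∈ E then 1 + (Real.exp θ - 1) / G else 1) := by
    intro x
    by_cases hx : x ∈ E
    · rw [if_pos hx]
      have e1 : ∀ c : Fin G, (if x ∈ E ∧ c = b then Real.exp θ else (1 : ℝ)) =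
          1 + (if c = b then Real.exp θ - 1 else 0) := by
        intro c
        by_cases hc : c = b
        · rw [if_pos ⟨hx, hc⟩, if_pos hc]
          ring
        · rw [if_neg (fun h => hc h.2), if_neg hc, add_zero]
      rw [Finset.sum_congr rfl (fun c _ => e1 c), Finset.sum_add_distrib, Finset.sum_ite_eq']
      simp
      field_simp
    · rw [if_neg hx, Finset.sum_congr rfl (fun c _ => if_neg (fun h => hx h.1))]
      simp
  rw [Finset.prod_congr rfl (fun x _ => h3 x), Finset.prod_mul_distrib, Finset.prod_const,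
    Finset.prod_ite_mem, Finset.univ_inter, Finset.prod_const, Fintype.card_fun, Fintype.card_fin,
    Finset.card_univ]
  push_cast
  rfl

/-- Proof. Sum `card_exc_le` over `h`, exchange the sums, use `exp_ld_sum` for each `b`
(`exp (θ ld - θ τ) = exp (θ ld) * exp (-θ τ)`), and
`(1 + (exp θ - 1) / G) ^ E.card ≤ exp ((exp θ - 1) / G) ^ k = exp ((exp θ - 1) k / G)`
(`Real.add_one_le_exp`, `1 ≤ 1 + (exp θ - 1) / G`, `pow_le_pow_left₀`, `pow_le_pow_right₀`). -/
theorem exc_avg [Fintype X] (hG : 0 < G) {k τ : ℕ} {θ : ℝ} (hθ : 0 < θ) (E : Finset X)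
    (hE : E.card ≤ k) :
    ∑ h : X → Fin G, ((exc h τ E).card : ℝ) ≤ (Fintype.card (X → Fin G) : ℝ) *
      ((G / θ) * Real.exp ((Real.exp θ - 1) * k / G - θ * τ)) := by
  have hG' : (0 : ℝ) < G := by exact_mod_cast hG
  have h1 : ∑ h : X → Fin G, ((exc h τ E).card : ℝ) ≤
      ∑ h : X → Fin G, ∑ b : Fin G, (1 / θ) * Real.exp (θ * ld h E b - θ * τ) :=
    Finset.sum_le_sum fun h _ => card_exc_le h τ hθ E
  refine h1.trans ?_
  rw [Finset.sum_comm]
  have h2 : ∀ b : Fin G, ∑ h : X → Fin G, (1 / θ) * Real.exp (θ * ld h E b - θ * τ) =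
      (1 / θ) * Real.exp (-(θ * τ)) *
        ((Fintype.card (X → Fin G) : ℝ) * (1 + (Real.exp θ - 1) / G) ^ E.card) := by
    intro b
    rw [← exp_ld_sum hG θ E b, Finset.mul_sum]
    refine Finset.sum_congr rfl fun h _ => ?_
    rw [sub_eq_add_neg, Real.exp_add]
    ring
  rw [Finset.sum_congr rfl (fun b _ => h2 b), Finset.sum_const, Finset.card_univ, Fintype.card_fin,
    nsmul_eq_mul]
  have h3 : 0 ≤ (Real.exp θ - 1) / G := by
    have := Real.add_one_le_exp θ
    apply div_nonneg _ hG'.le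
    linarith
  have h4 : (1 + (Real.exp θ - 1) / G) ^ E.card ≤ Real.exp ((Real.exp θ - 1) * k / G) := by
    calc (1 + (Real.exp θ - 1) / G) ^ E.card ≤ (1 + (Real.exp θ - 1) / G) ^ k :=
          pow_le_pow_right₀ (by linarith) hE
      _ ≤ (Real.exp ((Real.exp θ - 1) / G)) ^ k := by
          refine pow_le_pow_left₀ (by linarith) ?_ k
          have := Real.add_one_le_exp ((Real.exp θ - 1) / G)
          linarith
      _ = Real.exp ((Real.exp θ - 1) * k / G) := by
          rw [← Real.exp_nat_mul]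
          congr 1
          ring
  have h5 : Real.exp ((Real.exp θ - 1) * k / G - θ * τ) =
      Real.exp ((Real.exp θ - 1) * k / G) * Real.exp (-(θ * τ)) := by
    rw [sub_eq_add_neg, Real.exp_add]
  rw [h5]
  have h6 : (0 : ℝ) ≤ G * ((1 / θ) * Real.exp (-(θ * τ)) * (Fintype.card (X → Fin G) : ℝ)) := by
    positivity
  calc (G : ℝ) * ((1 / θ) * Real.exp (-(θ * τ)) *
        ((Fintype.card (X → Fin G) : ℝ) * (1 + (Real.exp θ - 1) / G) ^ E.card))
      = (G * ((1 / θ) * Real.exp (-(θ * τ)) * (Fintype.card (X → Fin G) : ℝ))) *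
          (1 + (Real.exp θ - 1) / G) ^ E.card := by ring
    _ ≤ (G * ((1 / θ) * Real.exp (-(θ * τ)) * (Fintype.card (X → Fin G) : ℝ))) *
          Real.exp ((Real.exp θ - 1) * k / G) := mul_le_mul_of_nonneg_left h4 h6
    _ = _ := by ring

end

end Pool.Agent.Helper34.RB
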