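import Pool.Agent.Helper34.RB.AmpDet
import Pool.Agent.Helper34.RB.ExcAvg
import Pool.Agent.Helper34.RB.BaseFinal

/-!
# RB-25: bounded families of positive density

Put the proof into this file (keep the statement and the namespace).
-/

open Finset

namespace Pool.Agent.Helper34.RB

open Classical in
/-- Proof. `W = ∑ i ∈ I, w i`.
(1) `exists_avg` with `Ω = X → Fin G`, `f h i = (exc h τ (S i)).card` and `exc_avg` gives `h` with
`∑ i ∈ I, w i * (exc h τ (S i)).card ≤ (m / P) * W` (by `hmG`, `(G/θ) exp(...) ≤ m / P`).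
Let `I₁ = I.filter (fun i => (exc h τ (S i)).card ≤ m)`; the others have total weight at most
`W / P` (`sum_filter_le` with `f i = (exc h τ (S i)).card / m`).
(2) `base_final` for `I₁` and the sets `exc h τ (S i)`: `good`, `g`, and the bad `i ∈ I₁` have total
weight at most `3 / P * ∑ i ∈ I₁, w i ≤ 3 / P * W`.  So the set
`I₂ = I.filter (fun i => good (exc h τ (S i)))` has `∑ i ∈ I₂, w i ≥ (1 - 4 / P) * W`.
(3) Let `β b = b / 112 + 1` (for `b : Fin G`; natural division), `K0 = (G + 111) / 112`,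
`K' = KK P m`.  Then `1 ≤ β b ≤ K0` (`b ≤ G - 1`) and every value occurs for at most `112` cells
(`b` with `b / 112 = v - 1`: `112 (v - 1) ≤ b < 112 v`; inject into a range of length `112`).
`amp_det` with `A = 112`, `A0 = 56` (`56 * (τ + 1) ≤ 112 * τ` as `τ ≥ 1`): for every `c` the family
`F_c` is `Bdd (112 * τ)`.  Every `i ∈ I₂` is in exactly one `F_c`, `c < K0 + 2 * K'`; so
`∑ i ∈ I₂, w i = ∑ c ∈ range (K0 + 2 K'), ∑ i ∈ I.filter (F_c (S i)), w i`
(`Finset.sum_fiberwise_of_maps_to`), and some `c` has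
`(K0 + 2 K') * ∑ i ∈ I.filter (F_c (S i)), w i ≥ ∑ i ∈ I₂, w i`
(`Finset.exists_le_of_sum_le` / `Finset.sum_le_card_nsmul`); finally
`K0 + 2 * K' = (G + 111) / 112 + 1200 * P ^ 4 * m`. -/
theorem comb {X ι : Type} [LinearOrder X] [Fintype X] (I : Finset ι) (S : ι → Finset X)
    (w : ι → ℝ) (hw : ∀ i ∈ I, 0 ≤ w i) {k τ P G m : ℕ} (hτ : 1 ≤ τ) (hP : 1 ≤ P) (hG : 1 ≤ G)
    (hm : 1 ≤ m) (hS : ∀ i ∈ I, (S i).card ≤ k) {θ : ℝ} (hθ : 0 < θ)
    (hmG : (P : ℝ) * ((G / θ) * Real.exp ((Real.exp θ - 1) * k / G - θ * τ)) ≤ m) :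
    ∃ F : Finset X → Prop, Bdd (112 * τ) F ∧
      (1 - 4 / (P : ℝ)) * ∑ i ∈ I, w i ≤
        (((G + 111) / 112 + 1200 * P ^ 4 * m : ℕ) : ℝ) *
          ∑ i ∈ I.filter (fun i => F (S i)), w i := by
  have hPr : (0 : ℝ) < P := by exact_mod_cast hP
  have hmr : (0 : ℝ) < m := by exact_mod_cast hm
  have : Nonempty (Fin G) := ⟨⟨0, hG⟩⟩
  have : Nonempty (X → Fin G) := inferInstance
  have hW0 : 0 ≤ ∑ i ∈ I, w i := Finset.sum_nonneg hw
  -- (1)
  obtain ⟨h, hh⟩ := exists_avg (Ω := X → Fin G) I w hw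
    (fun h i => ((exc h τ (S i)).card : ℝ)) ((m : ℝ) / P) (fun i hi => by
      refine (exc_avg hG hθ (S i) (hS i hi)).trans ?_
      apply mul_le_mul_of_nonneg_left _ (Nat.cast_nonneg _)
      rw [le_div_iff₀ hPr]
      linarith)
  have hbad1 : ∑ i ∈ I.filter (fun i => ¬ (exc h τ (S i)).card ≤ m), w i ≤
      1 / P * ∑ i ∈ I, w i := by
    have h1 := sum_filter_le I w hw (fun i => ¬ (exc h τ (S i)).card ≤ m)
      (fun i => ((exc h τ (S i)).card : ℝ) / m) (fun i _ => by positivity) (fun i _ hi => by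
        rw [one_le_div hmr]
        push Not at hi
        exact_mod_cast hi.le)
    refine h1.trans ?_
    have h2 : ∑ i ∈ I, w i * (((exc h τ (S i)).card : ℝ) / m) =
        (∑ i ∈ I, w i * ((exc h τ (S i)).card : ℝ)) / m := by
      rw [Finset.sum_div]
      exact Finset.sum_congr rfl fun i _ => by ring
    rw [h2, div_le_iff₀ hmr]
    refine hh.trans (le_of_eq ?_)
    ring
  -- (2)
  obtain ⟨good, g, hB, hg, hbad2⟩ := base_final (I.filter fun i => (exc h τ (S i)).card ≤ m)
    (fun i => exc h τ (S i)) w (fun i hi => hw i (Finset.mem_filter.1 hi).1) hP hm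
    (fun i hi => (Finset.mem_filter.1 hi).2)
  have hI1 : ∑ i ∈ I.filter (fun i => (exc h τ (S i)).card ≤ m), w i ≤ ∑ i ∈ I, w i :=
    Finset.sum_le_sum_of_subset_of_nonneg (Finset.filter_subset _ _) fun i hi _ => hw i hi
  have hbad3 : ∑ i ∈ I.filter (fun i => ¬ good (exc h τ (S i))), w i ≤
      4 / P * ∑ i ∈ I, w i := by
    rw [← Finset.sum_filter_add_sum_filter_not (I.filter fun i => ¬ good (exc h τ (S i)))
      (fun i => (exc h τ (S i)).card ≤ m)]
    have e1 : (I.filter fun i => ¬ good (exc h τ (S i))).filter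
        (fun i => (exc h τ (S i)).card ≤ m) =
        (I.filter fun i => (exc h τ (S i)).card ≤ m).filter
          (fun i => ¬ good (exc h τ (S i))) := by
      rw [Finset.filter_filter, Finset.filter_filter]
      exact Finset.filter_congr fun i _ => and_comm
    have e2 : ∑ i ∈ (I.filter fun i => ¬ good (exc h τ (S i))).filter
        (fun i => ¬ (exc h τ (S i)).card ≤ m), w i ≤
        ∑ i ∈ I.filter (fun i => ¬ (exc h τ (S i)).card ≤ m), w i := by
      refine Finset.sum_le_sum_of_subset_of_nonneg ?_ ?_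
      · intro i hi
        rw [Finset.mem_filter, Finset.mem_filter] at hi
        rw [Finset.mem_filter]
        exact ⟨hi.1.1, hi.2⟩
      · intro i hi _
        exact hw i (Finset.mem_filter.1 hi).1
    rw [e1]
    have e3 : 3 / (P : ℝ) * ∑ i ∈ I.filter (fun i => (exc h τ (S i)).card ≤ m), w i ≤
        3 / P * ∑ i ∈ I, w i := mul_le_mul_of_nonneg_left hI1 (by positivity)
    have e4 : 4 / (P : ℝ) * ∑ i ∈ I, w i = 3 / P * ∑ i ∈ I, w i + 1 / P * ∑ i ∈ I, w i := by
      ring
    rw [e4]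
    linarith
  have hI2 : (1 - 4 / (P : ℝ)) * ∑ i ∈ I, w i ≤
      ∑ i ∈ I.filter (fun i => good (exc h τ (S i))), w i := by
    have h1 := Finset.sum_filter_add_sum_filter_not I (fun i => good (exc h τ (S i))) w
    have h2 : (1 - 4 / (P : ℝ)) * ∑ i ∈ I, w i = ∑ i ∈ I, w i - 4 / P * ∑ i ∈ I, w i := by ring
    rw [h2]
    linarith
  -- (3)
  let β : Fin G → ℕ := fun b => (b : ℕ) / 112 + 1
  have hβ1 : ∀ b, 1 ≤ β b := fun b => Nat.le_add_left 1 _
  have hβK : ∀ b, β b ≤ (G + 111) / 112 := by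
    intro b
    have := b.2
    show (b : ℕ) / 112 + 1 ≤ (G + 111) / 112
    omega
  have hβA : ∀ v, (univ.filter fun b => β b = v).card ≤ 112 := by
    intro v
    have h1 : (univ.filter fun b => β b = v).card ≤ (Finset.range 112).card := by
      refine Finset.card_le_card_of_injOn (fun b => (b : ℕ) % 112) ?_ ?_
      · intro b _
        exact Finset.mem_coe.2 (Finset.mem_range.2 (Nat.mod_lt _ (by norm_num)))
      · intro b hb b' hb' hbb
        have h2 : (b : ℕ) / 112 + 1 = v := (Finset.mem_filter.1 (Finset.mem_coe.1 hb)).2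
        have h3 : (b' : ℕ) / 112 + 1 = v := (Finset.mem_filter.1 (Finset.mem_coe.1 hb')).2
        have h4 : (b : ℕ) % 112 = (b' : ℕ) % 112 := hbb
        apply Fin.ext
        omega
    rwa [Finset.card_range] at h1
  have hdet := fun c => amp_det (K0 := (G + 111) / 112) (K' := KK P m) (A0 := 56) (A := 112)
    (τ := τ) h hβ1 hβK hβA hg hB (by omega) c
  have hM : (G + 111) / 112 + 2 * KK P m = (G + 111) / 112 + 1200 * P ^ 4 * m := by
    unfold KK
    ring
  have hMpos : 0 < (G + 111) / 112 + 1200 * P ^ 4 * m := by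
    have h1 : 1 ≤ (G + 111) / 112 := by omega
    omega
  rw [hM] at hdet
  set M' := (G + 111) / 112 + 1200 * P ^ 4 * m with hM'
  let v : Finset X → ℕ := fun E => pot h β τ E + ((G + 111) / 112 + KK P m) * (exc h τ E).card +
    g (exc h τ E)
  have hsum : ∑ i ∈ I.filter (fun i => good (exc h τ (S i))), w i =
      ∑ c ∈ Finset.range M', ∑ i ∈ (I.filter fun i => good (exc h τ (S i))).filter
        (fun i => v (S i) % M' = c), w i := by
    refine (Finset.sum_fiberwise_of_maps_to ?_ w).symm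
    intro i _
    exact Finset.mem_range.2 (Nat.mod_lt _ hMpos)
  have hMr : (0 : ℝ) < M' := by exact_mod_cast hMpos
  obtain ⟨c, _, hc⟩ : ∃ c ∈ Finset.range M',
      (∑ i ∈ I.filter (fun i => good (exc h τ (S i))), w i) / M' ≤
      ∑ i ∈ (I.filter fun i => good (exc h τ (S i))).filter (fun i => v (S i) % M' = c), w i := by
    apply Finset.exists_le_of_sum_le (Finset.nonempty_range_iff.2 hMpos.ne')
    rw [← hsum, Finset.sum_const, Finset.card_range, nsmul_eq_mul]
    rw [mul_div_cancel₀ _ hMr.ne']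
  refine ⟨_, hdet c, hI2.trans ?_⟩
  rw [div_le_iff₀ hMr, mul_comm] at hc
  refine hc.trans (le_of_eq ?_)
  rw [Finset.filter_filter]
  congr 1
  refine Finset.sum_congr (Finset.ext fun i => ?_) fun _ _ => rfl
  simp only [Finset.mem_filter, v]

end Pool.Agent.Helper34.RB
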