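import Mathlib

/-!
# RB-26: the parameters, part 1

Put the proofs into this file (keep the statements and the namespace).
-/

namespace Pool.Agent.Helper34.RB

/-- Proof. `L = log r > 0` (`r ≥ 2`), `s = √(r L)`, `u = √(r / L)`; `u * s = r`, `s = u * L`,
`u ^ 2 * L = r` (`Real.sqrt_eq_iff`, `Real.mul_self_sqrt`, ...).  From `199 s < r = u s`: `199 < u`.
So `r = u^2 L ≥ 39601 L ≥ 39601 * 0.69 > 27000` (`Real.log_two_gt_d9`, `log r ≥ log 2`), hence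
`L ≥ 10` (`exp 10 < 27000`: `Real.exp_one_lt_d9`, `exp 10 = (exp 1)^10`; `Real.le_log_iff_exp_le`).
Take `P = ⌈u⌉₊`, so `u ≤ P < u + 1 ≤ (200/199) u`, and `P > 199`, so `200 ≤ P`.
* `r / P ≤ r / u = s`.
* `P^2 * L ≤ (200/199)^2 u^2 L = (200/199)^2 r ≤ 1.02 r`.
* `P ≤ 2 u ≤ u L = s`; `s < r / 199`, in particular `P < r`.
* `1990 ≤ s` as `s = u L ≥ 199 * 10`. -/
theorem facts {r : ℕ} (hr : 2 ≤ r) (hlt : 199 * √((r : ℝ) * Real.log r) < r) :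
    ∃ P : ℕ, 200 ≤ P ∧ P < r ∧ (r : ℝ) / P ≤ √((r : ℝ) * Real.log r) ∧
      (P : ℝ) ^ 2 * Real.log r ≤ 1.02 * r ∧ 10 ≤ Real.log r ∧
      (P : ℝ) ≤ √((r : ℝ) * Real.log r) ∧ 1990 ≤ √((r : ℝ) * Real.log r) := by
  have hr2 : (2 : ℝ) ≤ (r : ℝ) := by exact_mod_cast hr
  have hr0 : (0 : ℝ) < (r : ℝ) := by linarith
  have hL2 : Real.log 2 ≤ Real.log r := Real.log_le_log (by norm_num) hr2
  have hlog2 := Real.log_two_gt_d9
  have hL069 : 0.69 ≤ Real.log r := by linarith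
  have hL0 : 0 < Real.log r := by linarith
  have hsq : √((r : ℝ) * Real.log r) * √((r : ℝ) * Real.log r) = (r : ℝ) * Real.log r :=
    Real.mul_self_sqrt (by positivity)
  have hs0 : 0 < √((r : ℝ) * Real.log r) := Real.sqrt_pos.mpr (by positivity)
  have hexp10 : Real.exp 10 < 27000 := by
    have h1 : Real.exp 10 = (Real.exp 1) ^ 10 := by
      rw [← Real.exp_nat_mul]; norm_num
    rw [h1]
    calc (Real.exp 1) ^ 10 ≤ (2.7182818286 : ℝ) ^ 10 :=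
          pow_le_pow_left₀ (Real.exp_pos 1).le Real.exp_one_lt_d9.le 10
      _ < 27000 := by norm_num
  have hLexp : Real.exp 10 ≤ (r : ℝ) → 10 ≤ Real.log r := fun h => (Real.le_log_iff_exp_le hr0).mpr h
  set L := Real.log r with hL
  set s := √((r : ℝ) * L) with hs
  set u : ℝ := (r : ℝ) / s with hu
  have hus : u * s = r := by rw [hu]; field_simp
  have hu199 : 199 < u := by
    rw [hu, lt_div_iff₀ hs0]
    exact hlt
  have hu0 : 0 < u := by linarith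
  have hsL : s = u * L := by
    have h1 : s * s = u * L * s := by
      rw [hsq, ← hus]; ring
    exact mul_right_cancel₀ hs0.ne' h1
  have huL : u * u * L = r := by
    rw [← hus, hsL]; ring
  have hr27 : 27000 ≤ (r : ℝ) := by
    rw [← huL]
    have h1 : 199 * 199 ≤ u * u := by nlinarith
    nlinarith
  have hL10 : 10 ≤ L := hLexp (by linarith)
  have hPl : u ≤ (⌈u⌉₊ : ℝ) := Nat.le_ceil u
  have hPu : (⌈u⌉₊ : ℝ) < u + 1 := Nat.ceil_lt_add_one hu0.le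
  have hPu' : (⌈u⌉₊ : ℝ) ≤ 200 / 199 * u := by linarith
  have hP199 : 199 < ⌈u⌉₊ := by
    have : (199 : ℝ) < (⌈u⌉₊ : ℝ) := by linarith
    exact_mod_cast this
  have hPs : (⌈u⌉₊ : ℝ) ≤ s := by
    rw [hsL]
    nlinarith
  refine ⟨⌈u⌉₊, hP199, ?_, ?_, ?_, hL10, hPs, ?_⟩
  · have : (⌈u⌉₊ : ℝ) < (r : ℝ) := by linarith
    exact_mod_cast this
  · rw [div_le_iff₀ (by linarith)]
    nlinarith
  · have h1 : (⌈u⌉₊ : ℝ) ^ 2 ≤ (200 / 199 * u) ^ 2 := pow_le_pow_left₀ (by linarith) hPu' 2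
    calc (⌈u⌉₊ : ℝ) ^ 2 * L ≤ (200 / 199 * u) ^ 2 * L := mul_le_mul_of_nonneg_right h1 hL0.le
      _ = (200 / 199) ^ 2 * (u * u * L) := by ring
      _ = (200 / 199) ^ 2 * r := by rw [huL]
      _ ≤ 1.02 * r := mul_le_mul_of_nonneg_right (by norm_num) hr0.le
  · rw [hsL]
    nlinarith

/-- Proof. `exp θ - 1 ≤ θ + θ ^ 2` for `0 ≤ θ ≤ 1` (`Real.abs_exp_sub_one_sub_id_le`), with
`θ = 50 / P ≤ 1/4`, `ε = 2 θ = 100 / P ≤ 1 / 2`.  `k / G ≤ τ / (1 + ε)` by `hG`.  So the exponent is at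
most `τ ((θ + θ²) / (1 + ε) - θ) = τ (θ² - θ ε) / (1 + ε) = - τ θ² / (1 + ε) ≤ - τ θ² / 1.5`, and
`θ² τ = 2500 τ / P² ≥ 2500 τ L / (1.02 r) ≥ (2500 / 1.02) * (0.98 / 112) * L ≥ 21 L` since
`112 τ ≥ 0.98 r`.  So the exponent is `≤ -14 L ≤ - 12 L`, and `exp (- 12 L) = (r : ℝ) ^ (-12)`. -/
theorem expo {r P τ k G : ℕ} (hr : 2 ≤ r) (hP : 200 ≤ P)
    (hPL : (P : ℝ) ^ 2 * Real.log r ≤ 1.02 * r) (hτ : 0.98 * (r : ℝ) ≤ 112 * τ)
    (hG0 : 1 ≤ G) (hG : (1 + 100 / (P : ℝ)) * k ≤ G * τ) :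
    Real.exp ((Real.exp (50 / (P : ℝ)) - 1) * k / G - 50 / (P : ℝ) * τ) ≤
      1 / (r : ℝ) ^ 12 := by
  have hr2 : (2 : ℝ) ≤ (r : ℝ) := by exact_mod_cast hr
  have hr0 : (0 : ℝ) < (r : ℝ) := by linarith
  have hL0 : 0 < Real.log r := Real.log_pos (by linarith)
  have hP2 : (200 : ℝ) ≤ (P : ℝ) := by exact_mod_cast hP
  have hP0 : (0 : ℝ) < (P : ℝ) := by linarith
  have hGR : (1 : ℝ) ≤ (G : ℝ) := by exact_mod_cast hG0
  have hG0' : (0 : ℝ) < (G : ℝ) := by linarith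
  set θ : ℝ := 50 / (P : ℝ) with hθ
  have hθ0 : 0 < θ := by positivity
  have hθ1 : θ ≤ 1 / 4 := by
    rw [hθ, div_le_iff₀ hP0]
    linarith
  have h100 : 100 / (P : ℝ) = 2 * θ := by
    rw [hθ]; ring
  rw [h100] at hG
  have hexpθ : Real.exp θ - 1 ≤ θ + θ ^ 2 := by
    have h1 := Real.abs_exp_sub_one_sub_id_le (x := θ) (by rw [abs_of_pos hθ0]; linarith)
    have h2 := (abs_le.mp h1).2
    linarith
  set κ : ℝ := (k : ℝ) / (G : ℝ) with hκ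
  have hκ0 : 0 ≤ κ := by positivity
  have hκτ : (1 + 2 * θ) * κ ≤ τ := by
    rw [hκ, ← mul_div_assoc, div_le_iff₀ hG0']
    linarith
  have hτ0 : (0 : ℝ) ≤ (τ : ℝ) := Nat.cast_nonneg τ
  have h1 : (Real.exp θ - 1) * k / G = (Real.exp θ - 1) * κ := by
    rw [hκ]; ring
  have h2 : (Real.exp θ - 1) * κ ≤ (θ + θ ^ 2) * κ := mul_le_mul_of_nonneg_right hexpθ hκ0
  have h3 : (θ + θ ^ 2) * κ - θ * τ ≤ - (θ ^ 2 * τ / 1.5) := by
    have h4 : κ ≤ τ / (1 + 2 * θ) := by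
      rw [le_div_iff₀ (by linarith)]
      linarith
    have h5 : (θ + θ ^ 2) * κ ≤ (θ + θ ^ 2) * (τ / (1 + 2 * θ)) :=
      mul_le_mul_of_nonneg_left h4 (by positivity)
    have h6 : (θ + θ ^ 2) * (τ / (1 + 2 * θ)) - θ * τ = - (θ ^ 2 * τ / (1 + 2 * θ)) := by
      have : (1 + 2 * θ) ≠ 0 := by positivity
      field_simp
      ring
    have h7 : θ ^ 2 * τ / 1.5 ≤ θ ^ 2 * τ / (1 + 2 * θ) :=
      div_le_div_of_nonneg_left (by positivity) (by linarith) (by linarith)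
    linarith
  have h8 : 21 * Real.log r ≤ θ ^ 2 * τ := by
    have h9 : θ ^ 2 = 2500 / (P : ℝ) ^ 2 := by
      rw [hθ, div_pow]; norm_num
    rw [h9, div_mul_eq_mul_div, le_div_iff₀ (by positivity)]
    nlinarith
  have h10 : (Real.exp θ - 1) * k / G - θ * τ ≤ - (12 * Real.log r) := by
    rw [h1]
    have h11 : 12 * Real.log r ≤ θ ^ 2 * τ / 1.5 := by
      rw [le_div_iff₀ (by norm_num)]
      nlinarith
    linarith
  calc Real.exp ((Real.exp θ - 1) * k / G - θ * τ) ≤ Real.exp (- (12 * Real.log r)) :=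
        Real.exp_le_exp.mpr h10
    _ = 1 / (r : ℝ) ^ 12 := by
        rw [Real.exp_neg, one_div]
        congr 1
        rw [mul_comm, Real.exp_mul, Real.exp_log hr0]
        norm_cast

end Pool.Agent.Helper34.RB
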