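import Mathlib

/-!
# RB-27: the parameters, part 2

Put the proof into this file (keep the statement and the namespace).
-/



namespace Pool.Agent.Helper34.RB

theorem final_ineq {r P τ : ℕ} {s : ℝ} (hP : 200 ≤ P) (hPr : P < r) (hs1 : (r : ℝ) / P ≤ s)
    (hPs : (P : ℝ) ≤ s) (hs : 1990 ≤ s) (hlt : 199 * s < r) (hτ0 : 1 ≤ τ)
    (hτ : (r : ℝ) - P - 111 ≤ 112 * τ) {k G m : ℕ}
    (hk : P * r * (3 + 1200 * P ^ 4) ≤ k)
    (hG : (G : ℝ) ≤ (1 + 100 / (P : ℝ)) * k / τ + 1) (hm : (m : ℝ) ≤ G / (r : ℝ) ^ 9 + 1) :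
    ((r : ℝ) - 199 * s) * (((G + 111) / 112 + 1200 * P ^ 4 * m : ℕ) : ℝ) ≤
      (1 - 4 / (P : ℝ)) * k := by
  have hP' : (200 : ℝ) ≤ P := by exact_mod_cast hP
  have hP0 : (0 : ℝ) < P := by linarith
  have hPr' : (P : ℝ) < r := by exact_mod_cast hPr
  have hr0 : (0 : ℝ) < r := by linarith
  have hτ' : (1 : ℝ) ≤ τ := by exact_mod_cast hτ0
  have hτp : (0 : ℝ) < τ := by linarith
  have hG0 : (0 : ℝ) ≤ G := Nat.cast_nonneg _
  have hm0 : (0 : ℝ) ≤ m := Nat.cast_nonneg _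
  have hk0 : (0 : ℝ) ≤ k := Nat.cast_nonneg _
  have hk' : (P : ℝ) * r * (3 + 1200 * (P : ℝ) ^ 4) ≤ k := by exact_mod_cast hk
  have hrbig : (134400 : ℝ) ≤ r := by linarith
  -- the natural division
  have h1 : (((G + 111) / 112 + 1200 * P ^ 4 * m : ℕ) : ℝ) ≤
      ((G : ℝ) + 111) / 112 + 1200 * (P : ℝ) ^ 4 * m := by
    push_cast
    have h2 : (((G + 111) / 112 : ℕ) : ℝ) ≤ ((G + 111 : ℕ) : ℝ) / ((112 : ℕ) : ℝ) :=
      Nat.cast_div_le
    push_cast at h2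
    linarith
  -- the term with m
  have h3 : 134400 * (P : ℝ) ^ 4 / (r : ℝ) ^ 9 ≤ 1 / P := by
    rw [div_le_div_iff₀ (by positivity) hP0]
    have h4 : (P : ℝ) ^ 5 ≤ (r : ℝ) ^ 5 := pow_le_pow_left₀ hP0.le hPr'.le 5
    have h5 : (1 : ℝ) ≤ (r : ℝ) ^ 3 := one_le_pow₀ (by linarith)
    have h6 : (134400 : ℝ) * (r : ℝ) ^ 5 ≤ (r : ℝ) * (r : ℝ) ^ 5 :=
      mul_le_mul_of_nonneg_right hrbig (by positivity)
    calc 134400 * (P : ℝ) ^ 4 * P = 134400 * (P : ℝ) ^ 5 := by ring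
      _ ≤ 134400 * (r : ℝ) ^ 5 := by linarith
      _ ≤ (r : ℝ) * (r : ℝ) ^ 5 := h6
      _ = (r : ℝ) ^ 6 * 1 := by ring
      _ ≤ (r : ℝ) ^ 6 * (r : ℝ) ^ 3 := mul_le_mul_of_nonneg_left h5 (by positivity)
      _ = 1 * (r : ℝ) ^ 9 := by ring
  have h7 : 1200 * (P : ℝ) ^ 4 * m ≤ (G / 112) * (1 / P) + 1200 * (P : ℝ) ^ 4 := by
    have h8 : 1200 * (P : ℝ) ^ 4 * m ≤ 1200 * (P : ℝ) ^ 4 * (G / (r : ℝ) ^ 9 + 1) :=
      mul_le_mul_of_nonneg_left hm (by positivity)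
    have h9 : 1200 * (P : ℝ) ^ 4 * (G / (r : ℝ) ^ 9 + 1) =
        (G / 112) * (134400 * (P : ℝ) ^ 4 / (r : ℝ) ^ 9) + 1200 * (P : ℝ) ^ 4 := by
      field_simp
      ring
    have h10 : ((G : ℝ) / 112) * (134400 * (P : ℝ) ^ 4 / (r : ℝ) ^ 9) ≤ (G / 112) * (1 / P) :=
      mul_le_mul_of_nonneg_left h3 (by positivity)
    linarith
  have hP1 : 1 / (P : ℝ) ≤ 1 / 200 := one_div_le_one_div_of_le (by norm_num) hP'
  have hP1' : 0 < 1 / (P : ℝ) := by positivity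
  set x : ℝ := 1 / (P : ℝ) with hx
  have e100 : 100 / (P : ℝ) = 100 * x := by rw [hx]; ring
  have e4 : 4 / (P : ℝ) = 4 * x := by rw [hx]; ring
  have hxP : x * P = 1 := by rw [hx]; field_simp
  have hrx : (r : ℝ) * x ≤ s := by
    have : (r : ℝ) * x = r / P := by rw [hx]; ring
    rw [this]
    exact hs1
  rw [e100] at hG
  rw [e4]
  set y : ℝ := (k : ℝ) / (112 * τ) with hy
  have hy0 : 0 ≤ y := by positivity
  have hyk : y * (112 * τ) = k := by rw [hy]; field_simp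
  have hG2 : (G : ℝ) / 112 ≤ (1 + 100 * x) * y + 1 / 112 := by
    have : (1 + 100 * x) * (k : ℝ) / τ = 112 * ((1 + 100 * x) * y) := by
      rw [hy]
      field_simp
    rw [this] at hG
    linarith
  have hB : ((G : ℝ) + 111) / 112 + 1200 * (P : ℝ) ^ 4 * m ≤
      (1 + 102 * x) * y + (3 + 1200 * (P : ℝ) ^ 4) := by
    have h11 : ((G : ℝ) / 112) * (1 + x) ≤ ((1 + 100 * x) * y + 1 / 112) * (1 + x) :=
      mul_le_mul_of_nonneg_right hG2 (by linarith)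
    have h12 : (1 + 100 * x) * (1 + x) ≤ 1 + 102 * x := by nlinarith
    have h13 : (1 + 100 * x) * (1 + x) * y ≤ (1 + 102 * x) * y :=
      mul_le_mul_of_nonneg_right h12 hy0
    have h14 : ((1 + 100 * x) * y + 1 / 112) * (1 + x) =
        (1 + 100 * x) * (1 + x) * y + 1 / 112 * (1 + x) := by ring
    have h15 : ((G : ℝ) / 112) * (1 + x) = G / 112 + (G / 112) * x := by ring
    have h16 : ((G : ℝ) + 111) / 112 = G / 112 + 111 / 112 := by ring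
    rw [h16]
    linarith
  have hpos : 0 < (r : ℝ) - 199 * s := by linarith
  have hmain : ((r : ℝ) - 199 * s) * (1 + 102 * x) ≤ (1 - 5 * x) * (112 * τ) := by
    have h17 : ((r : ℝ) - 199 * s) * (1 + 102 * x) ≤ r - 97 * s := by
      have : 0 ≤ 199 * s * (102 * x) := by
        have : 0 ≤ s := by linarith
        positivity
      nlinarith
    have h18 : (1 - 5 * x) * ((r : ℝ) - P - 111) ≤ (1 - 5 * x) * (112 * τ) :=
      mul_le_mul_of_nonneg_left hτ (by linarith)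
    have h19 : (r : ℝ) - 97 * s ≤ (1 - 5 * x) * ((r : ℝ) - P - 111) := by
      nlinarith
    linarith
  have hmain2 : ((r : ℝ) - 199 * s) * ((1 + 102 * x) * y) ≤ (1 - 5 * x) * k := by
    calc ((r : ℝ) - 199 * s) * ((1 + 102 * x) * y) =
          (((r : ℝ) - 199 * s) * (1 + 102 * x)) * y := by ring
      _ ≤ ((1 - 5 * x) * (112 * τ)) * y := mul_le_mul_of_nonneg_right hmain hy0
      _ = (1 - 5 * x) * (y * (112 * τ)) := by ring
      _ = (1 - 5 * x) * k := by rw [hyk]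
  have hrest : ((r : ℝ) - 199 * s) * (3 + 1200 * (P : ℝ) ^ 4) ≤ x * k := by
    have h20 : ((r : ℝ) - 199 * s) * (3 + 1200 * (P : ℝ) ^ 4) ≤
        r * (3 + 1200 * (P : ℝ) ^ 4) :=
      mul_le_mul_of_nonneg_right (by linarith) (by positivity)
    have h21 : x * ((P : ℝ) * r * (3 + 1200 * (P : ℝ) ^ 4)) ≤ x * k :=
      mul_le_mul_of_nonneg_left hk' hP1'.le
    have h22 : x * ((P : ℝ) * r * (3 + 1200 * (P : ℝ) ^ 4)) =
        r * (3 + 1200 * (P : ℝ) ^ 4) := by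
      rw [← mul_assoc, ← mul_assoc, hxP, one_mul]
    linarith
  calc ((r : ℝ) - 199 * s) * (((G + 111) / 112 + 1200 * P ^ 4 * m : ℕ) : ℝ)
      ≤ ((r : ℝ) - 199 * s) * ((1 + 102 * x) * y + (3 + 1200 * (P : ℝ) ^ 4)) :=
        mul_le_mul_of_nonneg_left (h1.trans hB) hpos.le
    _ = ((r : ℝ) - 199 * s) * ((1 + 102 * x) * y) +
        ((r : ℝ) - 199 * s) * (3 + 1200 * (P : ℝ) ^ 4) := by ring
    _ ≤ (1 - 5 * x) * k + x * k := add_le_add hmain2 hrest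
    _ = (1 - 4 * x) * k := by ring

end Pool.Agent.Helper34.RB
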