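import Pool.Agent.Helper34.RB.Comb
import Pool.Agent.Helper34.RB.Facts
import Pool.Agent.Helper34.RB.Facts2

/-!
# RB-28: bounded families, asymptotic form (assembly, helper34)
-/

open Finset

namespace Pool.Agent.Helper34.RB

lemma Bdd.mono {X : Type} [LinearOrder X] {r r' : ℕ} (h : r ≤ r') {F : Finset X → Prop}
    (hF : Bdd r F) : Bdd r' F := fun T => (hF T).trans h

open Classical in
theorem comb_asym {r : ℕ} (hr : 2 ≤ r) (hlt : 199 * √((r : ℝ) * Real.log r) < r) :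
    ∃ P : ℕ, 200 ≤ P ∧ P < r ∧ (r : ℝ) / P ≤ √((r : ℝ) * Real.log r) ∧
      ∃ k0 : ℕ, ∀ k ≥ k0, ∀ {X ι : Type} [LinearOrder X] [Fintype X] (I : Finset ι)
        (S : ι → Finset X) (w : ι → ℝ), (∀ i ∈ I, 0 ≤ w i) → (∀ i ∈ I, (S i).card ≤ k) →
        ∃ F : Finset X → Prop, Bdd (r - P) F ∧
          ((r : ℝ) - 199 * √((r : ℝ) * Real.log r)) * ∑ i ∈ I, w i ≤
            k * ∑ i ∈ I.filter (fun i => F (S i)), w i := by
  obtain ⟨P, hP, hPr, hrP, hPL, hL, hPs, hs⟩ := facts hr hlt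
  refine ⟨P, hP, hPr, hrP, P * r * (3 + 1200 * P ^ 4) + 1, ?_⟩
  intro k hk X ι _ _ I S w hw hS
  set s := √((r : ℝ) * Real.log r) with hsdef
  have hrR : (2 : ℝ) ≤ r := by exact_mod_cast hr
  have hPR : (200 : ℝ) ≤ P := by exact_mod_cast hP
  set τ := (r - P) / 112 with hτdef
  have hτ1 : 112 * τ ≤ r - P := Nat.mul_div_le _ _
  have hτ2 : r - P ≤ 112 * τ + 111 := by omega
  have hτ3 : (r : ℝ) - P - 111 ≤ 112 * τ := by
    have : (r : ℝ) ≤ 112 * τ + 111 + P := by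
      have : r ≤ 112 * τ + 111 + P := by omega
      exact_mod_cast this
    linarith
  have hτ4 : 0.98 * (r : ℝ) ≤ 112 * τ := by
    have : (P : ℝ) ≤ r / 199 := by linarith
    have : (111 : ℝ) ≤ r / 199 := by linarith
    norm_num at *
    linarith
  have hτ0 : 1 ≤ τ := by
    by_contra hcon
    have : τ = 0 := by omega
    rw [this] at hτ4
    norm_num at hτ4
    linarith
  have hτR : (1 : ℝ) ≤ τ := by exact_mod_cast hτ0
  have hk1 : 1 ≤ k := by omega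
  have hkR : (1 : ℝ) ≤ k := by exact_mod_cast hk1
  -- the parameters
  set G := ⌈(1 + 100 / (P : ℝ)) * k / τ⌉₊ with hGdef
  have hx0 : 0 < (1 + 100 / (P : ℝ)) * k / τ := by positivity
  have hG1 : (1 + 100 / (P : ℝ)) * k / τ ≤ G := Nat.le_ceil _
  have hG2 : (G : ℝ) ≤ (1 + 100 / (P : ℝ)) * k / τ + 1 := (Nat.ceil_lt_add_one hx0.le).le
  have hG0 : 1 ≤ G := Nat.ceil_pos.mpr hx0
  have hGR : (1 : ℝ) ≤ G := by exact_mod_cast hG0
  have hG3 : (1 + 100 / (P : ℝ)) * k ≤ G * τ := by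
    rwa [div_le_iff₀ (by linarith)] at hG1
  set m := ⌈(G : ℝ) / (r : ℝ) ^ 9⌉₊ with hmdef
  have hy0 : 0 < (G : ℝ) / (r : ℝ) ^ 9 := by positivity
  have hm1 : (G : ℝ) / (r : ℝ) ^ 9 ≤ m := Nat.le_ceil _
  have hm2 : (m : ℝ) ≤ G / (r : ℝ) ^ 9 + 1 := (Nat.ceil_lt_add_one hy0.le).le
  have hm0 : 1 ≤ m := Nat.ceil_pos.mpr hy0
  have hexp := expo (k := k) hr hP hPL hτ4 hG0 hG3
  have hθ : (0 : ℝ) < 50 / (P : ℝ) := by positivity
  have hmG : (P : ℝ) * ((G / (50 / (P : ℝ))) *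
      Real.exp ((Real.exp (50 / (P : ℝ)) - 1) * k / G - 50 / (P : ℝ) * τ)) ≤ m := by
    refine le_trans ?_ hm1
    have h1 : (P : ℝ) * ((G / (50 / (P : ℝ))) *
        Real.exp ((Real.exp (50 / (P : ℝ)) - 1) * k / G - 50 / (P : ℝ) * τ)) ≤
        (P : ℝ) * ((G / (50 / (P : ℝ))) * (1 / (r : ℝ) ^ 12)) := by
      gcongr
    refine h1.trans ?_
    have hPr' : (P : ℝ) ≤ r := by exact_mod_cast hPr.le
    have hP2 : (P : ℝ) ^ 2 ≤ r ^ 2 := by gcongr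
    have h2 : (P : ℝ) * ((G / (50 / (P : ℝ))) * (1 / (r : ℝ) ^ 12)) =
        (G : ℝ) * P ^ 2 / (50 * r ^ 12) := by
      field_simp
    rw [h2, div_le_div_iff₀ (by positivity) (by positivity)]
    have h3 : (G : ℝ) * P ^ 2 * r ^ 9 ≤ G * r ^ 2 * r ^ 9 := by gcongr
    refine h3.trans ?_
    have h4 : (r : ℝ) ^ 2 * r ^ 9 ≤ 50 * r ^ 12 := by
      have : (r : ℝ) ^ 12 = r * (r ^ 2 * r ^ 9) := by ring
      rw [this]
      nlinarith [show (0 : ℝ) < r ^ 2 * r ^ 9 by positivity]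
    nlinarith
  obtain ⟨F, hF1, hF2⟩ := comb I S w hw hτ0 (by omega : 1 ≤ P) hG0 hm0 hS hθ hmG
  refine ⟨F, hF1.mono hτ1, ?_⟩
  set W := ∑ i ∈ I, w i with hW
  set V := ∑ i ∈ I.filter (fun i => F (S i)), w i with hV
  have hW0 : 0 ≤ W := sum_nonneg hw
  have hV0 : 0 ≤ V := sum_nonneg fun i hi => hw i (mem_filter.mp hi).1
  have hfin := final_ineq hP hPr hrP hPs hs hlt hτ0 hτ3 (by omega : P * r * (3 + 1200 * P ^ 4) ≤ k)
    hG2 hm2
  have h1P : 0 < 1 - 4 / (P : ℝ) := by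
    have : 4 / (P : ℝ) ≤ 4 / 200 := by gcongr
    linarith [show (4 : ℝ) / 200 < 1 by norm_num]
  have ha : 0 ≤ (r : ℝ) - 199 * s := by linarith
  have h2 : ((r : ℝ) - 199 * s) * ((1 - 4 / (P : ℝ)) * W) ≤
      (1 - 4 / (P : ℝ)) * k * V := by
    calc ((r : ℝ) - 199 * s) * ((1 - 4 / (P : ℝ)) * W) ≤
        ((r : ℝ) - 199 * s) * ((((G + 111) / 112 + 1200 * P ^ 4 * m : ℕ) : ℝ) * V) := by
          gcongr
      _ = (((r : ℝ) - 199 * s) * (((G + 111) / 112 + 1200 * P ^ 4 * m : ℕ) : ℝ)) * V := by ring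
      _ ≤ (1 - 4 / (P : ℝ)) * k * V := by gcongr
  have h3 : (1 - 4 / (P : ℝ)) * (((r : ℝ) - 199 * s) * W) ≤ (1 - 4 / (P : ℝ)) * (k * V) := by
    linarith
  exact le_of_mul_le_mul_left h3 h1P

end Pool.Agent.Helper34.RB
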