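import Mathlib

/-!
# Project RB (MP_277c78_nt): bounded families of finite sets, definitions

`X` is a linearly ordered set (in the application: the primes), `h : X → κ` distributes it to cells.
-/

open Finset

namespace Pool.Agent.Helper34.RB

section

variable {X κ : Type} [LinearOrder X] [DecidableEq κ]

open Classical in
/-- every finite set has at most `r` one-element deletions in the family `F` -/
def Bdd (r : ℕ) (F : Finset X → Prop) : Prop :=
  ∀ T : Finset X, (T.filter fun x => F (T.erase x)).card ≤ r

open Classical in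
/-- bounded partial colouring: for every set `T`, every colour occurs at most `A` times among the
good one-element deletions of `T` -/
def BddCol (A : ℕ) (good : Finset X → Prop) (g : Finset X → ℕ) : Prop :=
  ∀ (T : Finset X) (w : ℕ),
    (T.filter fun x => good (T.erase x) ∧ g (T.erase x) = w).card ≤ A

/-- the elements of `E` in the cell `b` -/
def cell (h : X → κ) (E : Finset X) (b : κ) : Finset X := E.filter fun x => h x = b

/-- the load of the cell `b` -/
def ld (h : X → κ) (E : Finset X) (b : κ) : ℕ := (cell h E b).card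

/-- the rank (starting with `0`) of `x` in its cell -/
def rk (h : X → κ) (E : Finset X) (x : X) : ℕ := (E.filter fun y => h y = h x ∧ y < x).card

/-- the excess elements: those of rank at least `τ` -/
def exc (h : X → κ) (τ : ℕ) (E : Finset X) : Finset X := E.filter fun x => τ ≤ rk h E x

/-- the potential of the main cells -/
def pot [Fintype κ] (h : X → κ) (β : κ → ℕ) (τ : ℕ) (E : Finset X) : ℕ :=
  ∑ b : κ, β b * min (ld h E b) τ

end

/-! ### the base colouring -/

section

variable {X : Type} [LinearOrder X] {n : ℕ}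

/-- `b'` is before `b` in the direction number `t` (the directions alternate) -/
def dir (t : ℕ) (b b' : Fin n) : Prop := if t % 2 = 1 then b' < b else b < b'

instance (t : ℕ) (b b' : Fin n) : Decidable (dir t b b') := by unfold dir; infer_instance

/-- the cells of load at least `t` -/
def Bs (h : X → Fin n) (E : Finset X) (t : ℕ) : Finset (Fin n) :=
  univ.filter fun b => t ≤ ld h E b

/-- the cells of load exactly `s` -/
def Os (h : X → Fin n) (E : Finset X) (s : ℕ) : Finset (Fin n) :=
  univ.filter fun b => ld h E b = s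

/-- number of the cells of load `≥ u` before `b` in direction `t` -/
def before (h : X → Fin n) (E : Finset X) (t u : ℕ) (b : Fin n) : ℕ :=
  ((Bs h E u).filter fun b' => dir t b b').card

/-- pairs `(b, b')`, `b` of load `≥ t`, `b'` of load `≥ t - 1` and before `b` in direction `t` -/
def Psi (h : X → Fin n) (E : Finset X) (t : ℕ) : ℕ :=
  ∑ b ∈ Bs h E t, before h E t (t - 1) b

/-- the static potential -/
def stat (h : X → Fin n) (C w : ℕ → ℕ) (TM : ℕ) (E : Finset X) : ℕ :=
  ∑ t ∈ Icc 1 (TM + 1), (C t * (Bs h E t).card + w t * Psi h E t)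

/-- the address of the cell `b` (of load `t`) -/
def addr (h : X → Fin n) (w : ℕ → ℕ) (T : Finset X) (t : ℕ) (b : Fin n) : ℕ :=
  w t * before h T t (t - 1) b + w (t + 1) * before h T t (t + 1) b

/-- the choice of elements of rank `j` (in the cells of `U`: of rank `j - 1`) in the cells of `O` -/
def chs (h : X → Fin n) (E : Finset X) (O : Finset (Fin n)) (j : ℕ) (U : Finset (Fin n)) :
    Finset X :=
  E.filter fun x => h x ∈ O ∧ rk h E x = if h x ∈ U then j - 1 else j

/-- the digit number `j` of the cells of load `s`: the product over these cells of the operators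
`(element of rank j) - (element of rank j - 1)` applied to the function `M` -/
def dg (h : X → Fin n) (q : ℕ) (M : Finset X → ZMod q) (s j : ℕ) (E : Finset X) : ZMod q :=
  ∑ U ∈ (Os h E s).powerset, (-1) ^ U.card * M (chs h E (Os h E s) j U)

/-- the vector of the child number `i` -/
def Vv {q s : ℕ} (A B : Fin (s - 1) → ZMod q) (i : ℕ) : Fin (s - 1) → ZMod q :=
  fun j => if (j : ℕ) + 1 < i then A j else if (j : ℕ) + 1 = i then A j + B j else B j

/-- a compression `Φ` of vectors to `R` values is good if no value occurs more than `A` times among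
the children vectors without zero entry -/
def Compr (q s R A : ℕ) (Φ : (Fin (s - 1) → ZMod q) → ℕ) : Prop :=
  (∀ v, Φ v < R) ∧ ∀ (a b : Fin (s - 1) → ZMod q) (w : ℕ),
    ((range (s + 1)).filter fun i => (∀ j, Vv a b i j ≠ 0) ∧ Φ (Vv a b i) = w).card ≤ A

/-- the vector of digits of the cells of load `s` -/
def dv (h : X → Fin n) (q : ℕ) (M : ℕ → Finset X → ZMod q) (s : ℕ) (E : Finset X) :
    Fin (s - 1) → ZMod q :=
  fun j => dg h q (M (j + 1)) s (j + 1) E

/-- the compressed digits of the cells of load `s` -/
def Ds (h : X → Fin n) (q : ℕ) (M : ℕ → Finset X → ZMod q)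
    (s : ℕ) (Φ : (Fin (s - 1) → ZMod q) → ℕ) (E : Finset X) : ℕ :=
  if Os h E s = ∅ then 0 else Φ (dv h q M s E)

/-- `E` has no zero digit -/
def NZ (h : X → Fin n) (q : ℕ) (M : ℕ → Finset X → ZMod q) (s : ℕ) (E : Finset X) : Prop :=
  (Os h E s).Nonempty → ∀ j : Fin (s - 1), dv h q M s E j ≠ 0

/-- the digit of the load-`s` cells of `T` with the element `c` of one more cell added -/
def part (h : X → Fin n) (q : ℕ) (M : Finset X → ZMod q) (s j : ℕ) (T : Finset X) (c : X) :
    ZMod q :=
  ∑ U ∈ (Os h T s).powerset, (-1) ^ U.card * M (insert c (chs h T (Os h T s) j U))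

/-- the compressed digits of load `u`, if `u` is in the range `[5, TM]` -/
def Dd (h : X → Fin n) (q : ℕ → ℕ) (M : ∀ s, ℕ → Finset X → ZMod (q s))
    (Φ : ∀ s, (Fin (s - 1) → ZMod (q s)) → ℕ) (TM u : ℕ) (E : Finset X) : ℕ :=
  if u ∈ Icc 5 TM then Ds h (q u) (M u) u (Φ u) E else 0

/-- the sum of the compressed digits -/
def Dsum (h : X → Fin n) (q : ℕ → ℕ) (M : ∀ s, ℕ → Finset X → ZMod (q s))
    (Φ : ∀ s, (Fin (s - 1) → ZMod (q s)) → ℕ) (TM : ℕ) (E : Finset X) : ℕ :=
  ∑ s ∈ Icc 5 TM, Ds h (q s) (M s) s (Φ s) E

/-- the good sets of the base colouring -/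
def Good (h : X → Fin n) (N q : ℕ → ℕ) (M : ∀ s, ℕ → Finset X → ZMod (q s)) (TM : ℕ)
    (E : Finset X) : Prop :=
  (∀ t, (Bs h E t).card ≤ N t) ∧ Bs h E TM = ∅ ∧ ∀ s ∈ Icc 5 TM, NZ h (q s) (M s) s E

end

end Pool.Agent.Helper34.RB
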