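import Pool.Agent.Helper34.RB.Rank

/-!
# RB-10: a digit vanishes for exactly one `q`-th of all functions `M`

Put the proof into this file (keep the statement and the namespace).
-/

open Finset

namespace Pool.Agent.Helper34.RB

/-- Proof. Let `O = Os h E s`, `S₀ = chs h E O j ∅`.

(1) For `U ∈ O.powerset`, `U ≠ ∅`: `chs h E O j U ≠ S₀`.  Take `b ∈ U ⊆ O`; its load is `s > j`, so
there is `y ∈ E`, `h y = b`, `rk h E y = j` (`exists_rk`); `y ∈ S₀`, but `y ∉ chs h E O j U` since
there the condition is `rk h E y = j - 1` and `j ≥ 1`.

(2) Hence for `a : ZMod q` and `M' = fun S => M S + if S = S₀ then a else 0`: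
`dg h q M' s j E = dg h q M s j E + a` (the sum defining `dg` is additive in `M`, and only the term
`U = ∅` of the function `if S = S₀ then a else 0` is nonzero, with sign `(-1) ^ 0 = 1`).

(3) For every `c`, the set `{M | dg M = 0}` is in bijection with `{M | dg M = c}` (add `c` at `S₀`;
the inverse adds `-c`), so all `q` fibres of `M ↦ dg M : ZMod q` have the same number of elements,
and their sum is the number of all `M` (`Finset.card_eq_sum_card_fiberwise`, `ZMod.card q`). -/
theorem card_dg_zero {X : Type} [LinearOrder X] [Fintype X] {n : ℕ} (h : X → Fin n)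
    (E : Finset X) {q s j : ℕ} [NeZero q] (hj1 : 1 ≤ j) (hjs : j < s) :
    (univ.filter fun M : Finset X → ZMod q => dg h q M s j E = 0).card * q =
      Fintype.card (Finset X → ZMod q) := by
  classical
  set O := Os h E s with hO
  set S₀ := chs h E O j ∅ with hS₀
  have h1 : ∀ U ∈ O.powerset, U ≠ ∅ → chs h E O j U ≠ S₀ := by
    intro U hU hne heq
    obtain ⟨b, hb⟩ := Finset.nonempty_iff_ne_empty.mpr hne
    have hbO : b ∈ O := (mem_powerset.mp hU) hb
    have hld : ld h E b = s := by
      rw [hO, Os, mem_filter] at hbO
      exact hbO.2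
    obtain ⟨y, hyE, hyb, hyr⟩ := exists_rk (h := h) (E := E) (b := b) (i := j) (by omega)
    have hy0 : y ∈ S₀ := by
      rw [hS₀, chs, mem_filter]
      refine ⟨hyE, by rw [hyb]; exact hbO, ?_⟩
      simp [hyr]
    rw [← heq, chs, mem_filter, hyb, if_pos hb] at hy0
    omega
  have h2 : ∀ (M : Finset X → ZMod q) (a : ZMod q),
      dg h q (fun S => M S + if S = S₀ then a else 0) s j E = dg h q M s j E + a := by
    intro M a
    unfold dg
    rw [← hO]
    simp only [mul_add, Finset.sum_add_distrib]
    congr 1
    rw [Finset.sum_eq_single_of_mem ∅ (Finset.empty_mem_powerset O)]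
    · simp [hS₀]
    · intro U hU hne
      rw [if_neg (h1 U hU hne), mul_zero]
  have h3 : ∀ c : ZMod q, (univ.filter fun M : Finset X → ZMod q => dg h q M s j E = c).card =
      (univ.filter fun M : Finset X → ZMod q => dg h q M s j E = 0).card := by
    intro c
    apply Finset.card_nbij' (fun M => fun S => M S + if S = S₀ then -c else 0)
      (fun M => fun S => M S + if S = S₀ then c else 0)
    · intro M hM
      simp only [coe_filter, mem_univ, true_and, Set.mem_ofPred_eq] at hM ⊢
      rw [h2, hM, add_neg_cancel]
    · intro M hM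
      simp only [coe_filter, mem_univ, true_and, Set.mem_ofPred_eq] at hM ⊢
      rw [h2, hM, zero_add]
    · intro M _
      funext S
      by_cases hS : S = S₀
      · simp [hS]
      · simp [hS]
    · intro M _
      funext S
      by_cases hS : S = S₀
      · simp [hS]
      · simp [hS]
  have h4 := Finset.card_eq_sum_card_fiberwise
    (f := fun M : Finset X → ZMod q => dg h q M s j E) (s := univ) (t := univ)
    (fun _ _ => by simp)
  rw [Finset.sum_congr rfl (fun c _ => h3 c), Finset.sum_const, smul_eq_mul, Finset.card_univ,
    Finset.card_univ, ZMod.card q] at h4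
  rw [h4, mul_comm]

end Pool.Agent.Helper34.RB
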