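import Pool.Agent.Helper34.RB.Rank

/-!
# RB-08: the digits of a child at its new load

Put the proof into this file (keep the statement and the namespace).
-/

open Finset

namespace Pool.Agent.Helper34.RB

/-- Deleting `x` from a cell of load `s + 1` makes it a cell of load `s`; the digit number `j` of
`T.erase x` at load `s` is the difference of `part` at the elements of rank `j` and `j - 1` of this
cell (ranks in `T.erase x`).

Proof. Let `b = h x`, `E = T.erase x`, `O = Os h T s`.  Then `b ∉ O` (its load is `s + 1`) and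
`Os h E s = insert b O` (`ld_erase_self`, `ld_erase_ne`).  Hence (`Finset.sum_powerset_insert`)
`dg h q M s j E = ∑ U ∈ O.powerset, (-1)^U.card * M (chs h E (insert b O) j U)
  + ∑ U ∈ O.powerset, (-1)^(insert b U).card * M (chs h E (insert b O) j (insert b U))`,
and `(insert b U).card = U.card + 1` as `b ∉ U`.  It remains to see, for `U ⊆ O`,
`chs h E (insert b O) j U = insert c1 (chs h T O j U)` and
`chs h E (insert b O) j (insert b U) = insert c0 (chs h T O j U)`.  `ext y`:
* if `h y = b`: `y` is in the left set iff `y ∈ E` and `rk h E y = j` (resp. `= j - 1`), iff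
  `y = c1` (resp. `y = c0`) by `rk_inj`; and `y ∉ chs h T O j U` as `b ∉ O`.
* if `h y ≠ b`: `y ≠ c1`, `y ≠ c0`, `y ≠ x`, `y ∈ E ↔ y ∈ T`, `rk h E y = rk h T y`
  (`rk_erase_of_not`), `h y ∈ insert b O ↔ h y ∈ O`, `h y ∈ insert b U ↔ h y ∈ U`. -/
theorem dg_erase {X : Type} [LinearOrder X] {n : ℕ} {h : X → Fin n} {T : Finset X} {x : X}
    {q s j : ℕ} (M : Finset X → ZMod q) (hx : x ∈ T) (hs : ld h T (h x) = s + 1) {c0 c1 : X}
    (hc0 : c0 ∈ T.erase x) (hh0 : h c0 = h x) (hr0 : rk h (T.erase x) c0 = j - 1)
    (hc1 : c1 ∈ T.erase x) (hh1 : h c1 = h x) (hr1 : rk h (T.erase x) c1 = j) :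
    dg h q M s j (T.erase x) = part h q M s j T c1 - part h q M s j T c0 := by
  classical
  have hbO : h x ∉ Os h T s := by
    rw [mem_Os]
    omega
  have hOs : Os h (T.erase x) s = insert (h x) (Os h T s) := by
    ext b'
    rw [Finset.mem_insert, mem_Os, mem_Os]
    by_cases hb : b' = h x
    · subst hb
      have h1 := ld_erase_self (h := h) hx
      simp only [true_or, iff_true]
      omega
    · rw [ld_erase_ne hb]
      simp [hb]
  -- elements of other cells
  have hne : ∀ y, h y ≠ h x → (y ∈ T.erase x ↔ y ∈ T) := by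
    intro y hy
    rw [Finset.mem_erase]
    refine ⟨fun h1 => h1.2, fun h1 => ⟨?_, h1⟩⟩
    rintro rfl
    exact hy rfl
  have hrk : ∀ y, h y ≠ h x → rk h (T.erase x) y = rk h T y := fun y hy =>
    rk_erase_of_not fun h1 => hy h1.1
  have key1 : ∀ U ∈ (Os h T s).powerset, chs h (T.erase x) (insert (h x) (Os h T s)) j U =
      insert c1 (chs h T (Os h T s) j U) := by
    intro U hU
    have hbU : h x ∉ U := fun h1 => hbO (Finset.mem_powerset.1 hU h1)
    ext y
    unfold chs
    rw [Finset.mem_insert, Finset.mem_filter, Finset.mem_filter]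
    by_cases hy : h y = h x
    · rw [hy, if_neg hbU]
      constructor
      · rintro ⟨h1, -, h2⟩
        exact Or.inl (rk_inj h1 hc1 (hy.trans hh1.symm) (h2.trans hr1.symm))
      · rintro (h1 | h1)
        · rw [h1]
          exact ⟨hc1, Finset.mem_insert_self _ _, hr1⟩
        · exact absurd h1.2.1 hbO
    · have hyc : y ≠ c1 := fun h1 => hy (h1 ▸ hh1)
      rw [hne y hy, hrk y hy, Finset.mem_insert]
      simp only [hy, hyc, false_or]
  have key0 : ∀ U ∈ (Os h T s).powerset,
      chs h (T.erase x) (insert (h x) (Os h T s)) j (insert (h x) U) =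
      insert c0 (chs h T (Os h T s) j U) := by
    intro U hU
    ext y
    unfold chs
    rw [Finset.mem_insert, Finset.mem_filter, Finset.mem_filter]
    by_cases hy : h y = h x
    · rw [hy, if_pos (Finset.mem_insert_self _ _)]
      constructor
      · rintro ⟨h1, -, h2⟩
        exact Or.inl (rk_inj h1 hc0 (hy.trans hh0.symm) (h2.trans hr0.symm))
      · rintro (h1 | h1)
        · rw [h1]
          exact ⟨hc0, Finset.mem_insert_self _ _, hr0⟩
        · exact absurd h1.2.1 hbO
    · have hyc : y ≠ c0 := fun h1 => hy (h1 ▸ hh0)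
      rw [hne y hy, hrk y hy]
      simp only [Finset.mem_insert, hy, hyc, false_or]
  unfold dg part
  rw [hOs, Finset.sum_powerset_insert hbO, sub_eq_add_neg, ← Finset.sum_neg_distrib]
  congr 1
  · refine Finset.sum_congr rfl fun U hU => ?_
    rw [key1 U hU]
  · refine Finset.sum_congr rfl fun U hU => ?_
    have hbU : h x ∉ U := fun h1 => hbO (Finset.mem_powerset.1 hU h1)
    rw [key0 U hU, Finset.card_insert_of_notMem hbU, pow_succ]
    ring

end Pool.Agent.Helper34.RB
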