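import Pool.Agent.Helper34.RB.Rank

/-!
# RB-01: the excess elements after a deletion

Put the proofs into this file (keep the statements and the namespace).
-/

open Finset

namespace Pool.Agent.Helper34.RB

section

variable {X κ : Type} [LinearOrder X] [DecidableEq κ] {h : X → κ} {T : Finset X} {x : X} {τ : ℕ}

/-- Light deletions do not change the excess elements.

Proof. `ext y`.  If `h y = h x` then `y ∈ T` has rank `< ld h T (h x) ≤ τ` (`rk_lt_ld`), and the
rank in `T.erase x` is at most that (`rk_erase_le`), so `y` is on neither side.  If `h y ≠ h x` then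
`y ≠ x` and the rank does not change (`rk_erase_of_not`). -/
theorem exc_light (hl : ld h T (h x) ≤ τ) : exc h τ (T.erase x) = exc h τ T := by
  ext y
  simp only [exc, mem_filter, mem_erase]
  by_cases hy : h y = h x
  · constructor
    · rintro ⟨⟨_, hyT⟩, h2⟩
      have h1 := rk_lt_ld (h := h) hyT
      rw [hy] at h1
      have h3 : rk h (T.erase x) y ≤ rk h T y := rk_erase_le
      omega
    · rintro ⟨hyT, h2⟩
      have h1 := rk_lt_ld (h := h) hyT
      rw [hy] at h1
      omega
  · rw [rk_erase_of_not (fun hh => hy hh.1)]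
    have hne : y ≠ x := fun hh => hy (by rw [hh])
    tauto

/-- Heavy deletions remove exactly one excess element, the element `z` of the same cell and of rank
`max (rank of x) τ`.

Proof. `z` exists by `exists_rk` (both `rk h T x` (`rk_lt_ld`) and `τ` are `< ld h T (h x)`); it is
in `exc h τ T`.  For the equality, `ext y`; let `y ∈ T` (otherwise both sides are false).
* `h y ≠ h x`: `y ≠ x`, `y ≠ z`, the rank is unchanged (`rk_erase_of_not`).
* `y = x`: the left side is false.  The right side says `τ ≤ rk h T x` and `x ≠ z`; but then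
  `rk h T z = rk h T x`, so `z = x` (`rk_inj`), contradiction.
* `h y = h x`, `y < x`: rank unchanged.  If `τ ≤ rk h T y`, then `rk h T z = rk h T x > rk h T y`
  (`rk_lt_rk`), so `y ≠ z`.
* `h y = h x`, `x < y`: `rk h (T.erase x) y + 1 = rk h T y` (`rk_erase_of_lt`) and
  `rk h T x < rk h T y`; hence `y = z` iff `rk h T y = max (rk h T x) τ` iff `rk h T y = τ`; and
  `τ ≤ rk h T y - 1` iff `τ ≤ rk h T y` and `rk h T y ≠ τ`. -/
theorem exc_heavy (hx : x ∈ T) (hh : τ < ld h T (h x)) :
    ∃ z ∈ exc h τ T, h z = h x ∧ rk h T z = max (rk h T x) τ ∧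
      exc h τ (T.erase x) = (exc h τ T).erase z := by
  have hxl := rk_lt_ld (h := h) hx
  obtain ⟨z, hzT, hzx, hzr⟩ := exists_rk (h := h) (E := T) (b := h x)
    (i := max (rk h T x) τ) (max_lt hxl hh)
  refine ⟨z, mem_filter.mpr ⟨hzT, by rw [hzr]; exact le_max_right _ _⟩, hzx, hzr, ?_⟩
  ext y
  simp only [exc, mem_filter, mem_erase]
  by_cases hyT : y ∈ T
  swap
  · constructor
    · rintro ⟨⟨_, h1⟩, _⟩; exact absurd h1 hyT
    · rintro ⟨_, h1, _⟩; exact absurd h1 hyT
  by_cases hy : h y = h x
  swap
  · rw [rk_erase_of_not (fun hh => hy hh.1)]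
    have hne : y ≠ x := fun h1 => hy (by rw [h1])
    have hnz : y ≠ z := fun h1 => hy (by rw [h1, hzx])
    tauto
  rcases lt_trichotomy y x with hlt | heq | hlt
  · have hr : rk h (T.erase x) y = rk h T y :=
      rk_erase_of_not (fun h1 => absurd h1.2 (not_lt.mpr hlt.le))
    have hrx : rk h T y < rk h T x := rk_lt_rk hyT hy hlt
    rw [hr]
    constructor
    · rintro ⟨⟨_, _⟩, h2⟩
      refine ⟨?_, hyT, h2⟩
      rintro rfl
      rw [hzr] at hrx
      have := le_max_left (rk h T x) τ
      omega
    · rintro ⟨_, _, h2⟩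
      exact ⟨⟨hlt.ne, hyT⟩, h2⟩
  · subst heq
    constructor
    · rintro ⟨⟨h1, _⟩, _⟩; exact absurd rfl h1
    · rintro ⟨h1, _, h2⟩
      exfalso
      apply h1
      refine rk_inj hyT hzT hzx.symm ?_
      rw [hzr, max_eq_left h2]
  · have hr : rk h (T.erase x) y + 1 = rk h T y := rk_erase_of_lt hx hy hlt
    have hrx : rk h T x < rk h T y := rk_lt_rk hx hy.symm hlt
    have hyz : y = z ↔ rk h T y = max (rk h T x) τ := by
      constructor
      · intro h1; rw [h1, hzr]
      · intro h1; exact rk_inj hyT hzT (hy.trans hzx.symm) (h1.trans hzr.symm)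
    rw [ne_eq y z, hyz]
    constructor
    · rintro ⟨⟨_, _⟩, h2⟩
      refine ⟨?_, hyT, by omega⟩
      intro h3
      rcases max_cases (rk h T x) τ with ⟨h4, _⟩ | ⟨h4, _⟩ <;> omega
    · rintro ⟨h1, _, h2⟩
      refine ⟨⟨hlt.ne', hyT⟩, ?_⟩
      by_contra h3
      apply h1
      have h4 : rk h T y = τ := by omega
      rw [max_eq_right (by omega)]
      exact h4

end

end Pool.Agent.Helper34.RB
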