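import Mathlib

/-!
# RB-30: few integers are divisible by the square of a large prime

Put the proof into this file (keep the statement and the namespace).
-/

open Finset

namespace Pool.Agent.Helper34.RB

private theorem rough_sq_sum {y : ℕ} (hy : 1 ≤ y) (N : ℕ) (hN : y ≤ N) :
    ∑ d ∈ Icc (y + 1) N, 1 / (d : ℝ) ^ 2 ≤ 1 / (y : ℝ) - 1 / (N : ℝ) := by
  induction N, hN using Nat.le_induction with
  | base => simp
  | succ N hN ih =>
    rw [Finset.sum_Icc_succ_top (by omega)]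
    have hN0 : (0 : ℝ) < N := by exact_mod_cast (by omega : 0 < N)
    have h1 : 1 / ((N + 1 : ℕ) : ℝ) ^ 2 ≤ 1 / (N : ℝ) - 1 / ((N + 1 : ℕ) : ℝ) := by
      push_cast
      rw [div_sub_div _ _ (by positivity) (by positivity)]
      rw [div_le_div_iff₀ (by positivity) (by positivity)]
      nlinarith
    linarith

private theorem rough_one {N d : ℕ} (hd : 1 ≤ d) :
    ∑ a ∈ Icc 1 N, (if d ^ 2 ∣ a then 1 / (a : ℝ) else 0) ≤
      1 / (d : ℝ) ^ 2 * ∑ b ∈ Icc 1 N, 1 / (b : ℝ) := by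
  classical
  rw [← Finset.sum_filter]
  have hd2 : 0 < d ^ 2 := by positivity
  have h1 : ∀ a ∈ (Icc 1 N).filter (fun a => d ^ 2 ∣ a),
      1 / (a : ℝ) = 1 / (d : ℝ) ^ 2 * (1 / ((a / d ^ 2 : ℕ) : ℝ)) := by
    intro a ha
    rw [mem_filter] at ha
    obtain ⟨b, rfl⟩ := ha.2
    rw [Nat.mul_div_cancel_left b hd2]
    push_cast
    rw [one_div_mul_one_div]
  rw [Finset.sum_congr rfl h1, ← Finset.mul_sum]
  refine mul_le_mul_of_nonneg_left ?_ (by positivity)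
  have hinj : ∀ a ∈ (Icc 1 N).filter (fun a => d ^ 2 ∣ a),
      ∀ a' ∈ (Icc 1 N).filter (fun a => d ^ 2 ∣ a), a / d ^ 2 = a' / d ^ 2 → a = a' := by
    intro a ha a' ha' h
    rw [mem_filter] at ha ha'
    rw [← Nat.div_mul_cancel ha.2, ← Nat.div_mul_cancel ha'.2, h]
  rw [← Finset.sum_image (f := fun b : ℕ => 1 / (b : ℝ)) (g := fun a => a / d ^ 2)
    (fun a ha a' ha' h => hinj a ha a' ha' h)]
  refine Finset.sum_le_sum_of_subset_of_nonneg ?_ (fun b _ _ => by positivity)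
  intro b hb
  rw [mem_image] at hb
  obtain ⟨a, ha, rfl⟩ := hb
  rw [mem_filter, mem_Icc] at ha
  rw [mem_Icc]
  refine ⟨Nat.div_pos (Nat.le_of_dvd (by omega) ha.2) hd2, (Nat.div_le_self _ _).trans ha.1.2⟩

open Classical in
/-- Proof. The set on the left is contained in the union over `d ∈ Icc (y + 1) N` of
`{a ∈ Icc 1 N : d ^ 2 ∣ a}` (a prime `p` with `p ^ 2 ∣ a ≤ N`, `a ≥ 1`, is `≤ N`), and
`∑ a ∈ Icc 1 N, d ^ 2 ∣ a, 1 / a ≤ 1 / d ^ 2 * ∑ b ∈ Icc 1 N, 1 / b` (`a = d ^ 2 b`, `b ≤ N`,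
injective map `a ↦ a / d ^ 2`).  So the left side is at most
`(∑ d ∈ Icc (y + 1) N, 1 / d ^ 2) * ∑ b ∈ Icc 1 N, 1 / b`, and
`∑ d ∈ Icc (y + 1) N, 1 / d ^ 2 ≤ ∑ (1 / (d - 1) - 1 / d) ≤ 1 / y` (telescoping; induction on `N`:
`∑ d ∈ Icc (y + 1) N, 1 / d ^ 2 ≤ 1 / y - 1 / N` for `N ≥ y ≥ 1`; for `N < y` the sum is empty). -/
theorem rough {N y : ℕ} (hy : 1 ≤ y) :
    ∑ a ∈ (Icc 1 N).filter (fun a => ∃ p, p.Prime ∧ y < p ∧ p ^ 2 ∣ a), 1 / (a : ℝ) ≤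
      1 / (y : ℝ) * ∑ a ∈ Icc 1 N, 1 / (a : ℝ) := by
  have h1 : ∑ a ∈ (Icc 1 N).filter (fun a => ∃ p, p.Prime ∧ y < p ∧ p ^ 2 ∣ a), 1 / (a : ℝ) ≤
      ∑ a ∈ Icc 1 N, ∑ d ∈ Icc (y + 1) N, (if d ^ 2 ∣ a then 1 / (a : ℝ) else 0) := by
    rw [Finset.sum_filter]
    refine Finset.sum_le_sum (fun a ha => ?_)
    rw [mem_Icc] at ha
    have hnn : ∀ d ∈ Icc (y + 1) N, (0 : ℝ) ≤ (if d ^ 2 ∣ a then 1 / (a : ℝ) else 0) := by
      intro d _
      split_ifs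
      · positivity
      · exact le_rfl
    split_ifs with hp
    · obtain ⟨p, -, hyp, hpa⟩ := hp
      have hle : p ^ 2 ≤ a := Nat.le_of_dvd (by omega) hpa
      have hpp : p ≤ p ^ 2 := Nat.le_self_pow (by norm_num) p
      have h2 := Finset.single_le_sum hnn (mem_Icc.mpr ⟨by omega, by omega⟩ : p ∈ Icc (y + 1) N)
      rw [if_pos hpa] at h2
      exact h2
    · exact Finset.sum_nonneg hnn
  refine h1.trans ?_
  rw [Finset.sum_comm]
  have h2 : ∑ d ∈ Icc (y + 1) N, ∑ a ∈ Icc 1 N, (if d ^ 2 ∣ a then 1 / (a : ℝ) else 0) ≤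
      ∑ d ∈ Icc (y + 1) N, 1 / (d : ℝ) ^ 2 * ∑ b ∈ Icc 1 N, 1 / (b : ℝ) := by
    refine Finset.sum_le_sum (fun d hd => ?_)
    rw [mem_Icc] at hd
    exact rough_one (by omega)
  refine h2.trans ?_
  rw [← Finset.sum_mul]
  refine mul_le_mul_of_nonneg_right ?_ (Finset.sum_nonneg (fun b _ => by positivity))
  rcases le_or_gt y N with hN | hN
  · have h3 := rough_sq_sum hy N hN
    have h4 : (0 : ℝ) ≤ 1 / (N : ℝ) := by positivity
    linarith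
  · rw [Finset.Icc_eq_empty (by omega), Finset.sum_empty]
    positivity

end Pool.Agent.Helper34.RB
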