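import Pool.Agent.Helper16.UB.Final

/-!
# RB-31: few integers have many prime factors

Put the proof into this file (keep the statement and the namespace).
-/

open Finset Filter

namespace Pool.Agent.Helper34.RB

/-- Proof. Let `z = 1 + δ`, `l = log (log N)`.  For `a` in the filter `om a > z l` (real;
`Nat.lt_of_floor_lt`), so `1 ≤ z ^ (om a - z l)` (real power) and
`∑ filter 1 / a ≤ z ^ (- z l) * ∑ a ∈ Icc 1 N, z ^ om a / a ≤ z ^ (- z l) * exp (z (W N + 1))`
(`Helper16.UB.sum_le_exp`), and `W N ≤ l + C` (`Helper16.UB.exists_W_le`, `N ≥ 2`).  So the left side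
is at most `exp (z (C + 1)) * exp ((z - z log z) l)`, with `c = z - z log z < 1`
(`Real.log_lt_sub_one_of_pos` for `1 / z ≠ 1`; see `Helper16.UB.one_sub_log_lt`), and
`log N = exp l` for `N ≥ 3`.  So the quotient by `log N` is at most `exp (z (C + 1)) * exp ((c - 1) l)`,
which tends to `0` as `l = ll N → ∞` (`Helper16.UB.tendsto_ll`; see the proof of
`Helper16.UB.t3`). -/
theorem tail {δ η : ℝ} (hδ : 0 < δ) (hη : 0 < η) :
    ∀ᶠ N : ℕ in atTop,
      ∑ a ∈ (Icc 1 N).filter (fun a => ⌊(1 + δ) * Real.log (Real.log N)⌋₊ < Helper16.UB.om a),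
        1 / (a : ℝ) ≤ η * Real.log N := by
  obtain ⟨C, hC⟩ := Helper16.UB.exists_W_le
  set z : ℝ := 1 + δ with hz
  have hz1 : 1 < z := by rw [hz]; linarith
  have hz0 : 0 < z := by linarith
  set c : ℝ := z - z * Real.log z with hc
  have hc1 : c < 1 := by
    have h1 := Real.log_lt_sub_one_of_pos (x := 1 / z) (by positivity)
      (by rw [ne_eq, div_eq_one_iff_eq hz0.ne']; exact hz1.ne)
    rw [one_div, Real.log_inv] at h1
    have h2 : z * (-Real.log z) < z * (z⁻¹ - 1) := mul_lt_mul_of_pos_left h1 hz0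
    have h3 : z * (z⁻¹ - 1) = 1 - z := by field_simp
    rw [h3] at h2
    linarith
  have hlim : Tendsto (fun N : ℕ => Real.exp (z * (C + 1)) *
      Real.exp (-((1 - c) * Helper16.UB.ll N))) atTop (nhds 0) := by
    have h2 : Tendsto (fun N : ℕ => (1 - c) * Helper16.UB.ll N) atTop atTop :=
      Helper16.UB.tendsto_ll.const_mul_atTop (by linarith)
    have h3 := (Real.tendsto_exp_neg_atTop_nhds_zero.comp h2).const_mul (Real.exp (z * (C + 1)))
    rw [mul_zero] at h3
    exact h3
  filter_upwards [hlim.eventually (gt_mem_nhds hη), Helper16.UB.tendsto_ll.eventually_gt_atTop 0,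
    Helper16.UB.tendsto_log_nat.eventually_ge_atTop 1, eventually_ge_atTop 2] with N hN hll hL1 hN2
  have hL : (0 : ℝ) < Real.log N := by linarith
  set l : ℝ := Helper16.UB.ll N with hl
  have hle : Real.log (Real.log N) = l := rfl
  have hexpl : Real.exp l = Real.log N := Real.exp_log hL
  have hpt : ∀ a ∈ (Icc 1 N).filter (fun a => ⌊z * Real.log (Real.log N)⌋₊ < Helper16.UB.om a),
      1 / (a : ℝ) ≤ z ^ (-(z * l)) * (z ^ Helper16.UB.om a / a) := by
    intro a ha
    rw [mem_filter] at ha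
    have h1 : z * l < Helper16.UB.om a := Nat.lt_of_floor_lt ha.2
    have h2 : (1 : ℝ) ≤ z ^ (-(z * l)) * z ^ Helper16.UB.om a := by
      rw [← Real.rpow_natCast, ← Real.rpow_add hz0]
      exact Real.one_le_rpow hz1.le (by linarith)
    have h3 : (0 : ℝ) ≤ 1 / (a : ℝ) := by positivity
    calc 1 / (a : ℝ) = 1 * (1 / (a : ℝ)) := (one_mul _).symm
      _ ≤ (z ^ (-(z * l)) * z ^ Helper16.UB.om a) * (1 / (a : ℝ)) :=
        mul_le_mul_of_nonneg_right h2 h3
      _ = z ^ (-(z * l)) * (z ^ Helper16.UB.om a / a) := by ring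
  have hpos : (0 : ℝ) ≤ z ^ (-(z * l)) := (Real.rpow_pos_of_pos hz0 _).le
  have hs := Helper16.UB.sum_le_exp z hz0.le N
  have hW := hC N hN2
  rw [hle] at hW
  have hrp : z ^ (-(z * l)) = Real.exp (-(z * Real.log z * l)) := by
    rw [Real.rpow_def_of_pos hz0]
    congr 1
    ring
  calc ∑ a ∈ (Icc 1 N).filter (fun a => ⌊z * Real.log (Real.log N)⌋₊ < Helper16.UB.om a),
        1 / (a : ℝ)
      ≤ ∑ a ∈ (Icc 1 N).filter (fun a => ⌊z * Real.log (Real.log N)⌋₊ < Helper16.UB.om a),
        z ^ (-(z * l)) * (z ^ Helper16.UB.om a / a) := sum_le_sum hpt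
    _ ≤ ∑ a ∈ Icc 1 N, z ^ (-(z * l)) * (z ^ Helper16.UB.om a / a) :=
        sum_le_sum_of_subset_of_nonneg (filter_subset _ _) fun a _ _ => by positivity
    _ = z ^ (-(z * l)) * ∑ a ∈ Icc 1 N, z ^ Helper16.UB.om a / a := by rw [mul_sum]
    _ ≤ Real.exp (-(z * Real.log z * l)) * Real.exp (z * (C + 1) + z * l) := by
        rw [hrp]
        apply mul_le_mul_of_nonneg_left _ (Real.exp_pos _).le
        refine hs.trans (Real.exp_le_exp.2 ?_)
        nlinarith
    _ = (Real.exp (z * (C + 1)) * Real.exp (-((1 - c) * l))) * Real.log N := by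
        rw [← hexpl, ← Real.exp_add, ← Real.exp_add, ← Real.exp_add]
        congr 1
        rw [hc]
        ring
    _ ≤ η * Real.log N := mul_le_mul_of_nonneg_right hN.le hL.le

end Pool.Agent.Helper34.RB
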