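import Pool.Agent.Helper34.RB.CombAsym
import Pool.Agent.Helper34.RB.Adm
import Pool.Agent.Helper34.RB.Rough
import Pool.Agent.Helper34.RB.Tail
import Pool.Agent.Helper34.RB.BaseFinal

/-!
# RB-32: the lower bound (assembly, helper34)
-/

open Finset Filter

namespace Pool.Agent.Helper34.RB

open Helper16.UB (Admissible M om ll)

lemma le_M {r N : ℕ} {A : Finset ℕ} (hA : Admissible r N A) :
    ∑ n ∈ A, 1 / (n : ℝ) ≤ M r N := by
  unfold M
  apply le_csSup
  · refine ⟨∑ n ∈ Icc 1 N, 1 / (n : ℝ), ?_⟩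
    rintro s ⟨B, hB, rfl⟩
    exact sum_le_sum_of_subset_of_nonneg hB.1 fun i _ _ => by positivity
  · exact ⟨A, hA, rfl⟩

lemma M_nonneg (r N : ℕ) : 0 ≤ M r N := by
  have h : Admissible r N ∅ := by
    refine ⟨empty_subset _, fun m _ => ?_⟩
    unfold Helper16.UB.R
    simp
  simpa using le_M h

lemma harm_ge (N : ℕ) : Real.log N ≤ ∑ b ∈ Icc 1 N, 1 / (b : ℝ) := by
  have h := log_add_one_le_harmonic N
  rw [harmonic_eq_sum_Icc] at h
  push_cast at h
  have h1 : ∑ b ∈ Icc 1 N, 1 / (b : ℝ) = ∑ b ∈ Icc 1 N, ((b : ℝ))⁻¹ :=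
    sum_congr rfl fun b _ => one_div _
  rw [h1]
  refine le_trans ?_ h
  rcases Nat.eq_zero_or_pos N with h0 | h0
  · subst h0; simp
  · apply Real.log_le_log (by exact_mod_cast h0)
    linarith

lemma card_Sof_le {y N a : ℕ} (ha : 1 ≤ a) : (Sof y N a).card ≤ om a := by
  unfold om
  apply card_le_card_of_injOn (fun p : Fin (N + 1) => (p : ℕ))
  · intro p hp
    have hp' := mem_coe.mp hp
    unfold Sof at hp'
    rw [mem_filter] at hp'
    exact mem_coe.mpr (Nat.mem_primeFactors.mpr ⟨hp'.2.1, hp'.2.2.2, by omega⟩)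
  · intro p _ q _ hpq
    exact Fin.val_injective hpq

open Classical in
/-- the weight of the admissible candidates -/
lemma weight_ge {P N k : ℕ} (hP : 1 ≤ P) {η : ℝ}
    (ht : ∑ a ∈ (Icc 1 N).filter (fun a => k < om a), 1 / (a : ℝ) ≤ η * Real.log N) :
    (1 - 1 / (P : ℝ) - η) * Real.log N ≤
      ∑ a ∈ (Icc 1 N).filter (fun a => (∀ p, p.Prime → P < p → ¬ p ^ 2 ∣ a) ∧
        (Sof P N a).card ≤ k), 1 / (a : ℝ) := by
  have hP0 : (1 : ℝ) ≤ P := by exact_mod_cast hP
  have h1 := rough (N := N) hP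
  have h2 := harm_ge N
  have hw : ∀ a ∈ Icc 1 N, 0 ≤ 1 / (a : ℝ) := fun a _ => by positivity
  have h3 := sum_filter_or_le (Icc 1 N) (fun a : ℕ => 1 / (a : ℝ)) hw
    (fun a => ∃ p, p.Prime ∧ P < p ∧ p ^ 2 ∣ a) (fun a => k < om a)
    (fun a => ¬ ((∀ p, p.Prime → P < p → ¬ p ^ 2 ∣ a) ∧ (Sof P N a).card ≤ k))
    (fun a ha hn => by
      by_contra hcon
      push Not at hcon
      exact hn ⟨hcon.1, (card_Sof_le (mem_Icc.mp ha).1).trans hcon.2⟩)
  have h4 := sum_filter_add_sum_filter_not (Icc 1 N)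
    (fun a => (∀ p, p.Prime → P < p → ¬ p ^ 2 ∣ a) ∧ (Sof P N a).card ≤ k)
    (fun a : ℕ => 1 / (a : ℝ))
  have h5 : 0 ≤ 1 - 1 / (P : ℝ) := by
    rw [sub_nonneg, div_le_one (by linarith)]; exact hP0
  have h6 : (1 - 1 / (P : ℝ)) * Real.log N ≤
      (1 - 1 / (P : ℝ)) * ∑ b ∈ Icc 1 N, 1 / (b : ℝ) := by gcongr
  linarith

lemma real_final {r s P ε δ l L k a V Wt : ℝ} (hr : 0 < r) (hP : 200 ≤ P) (hrP : r / P ≤ s)
    (hs : 0 ≤ s) (ha : a = r - 199 * s) (ha0 : 0 < a) (hε : 0 < ε) (hε1 : ε ≤ 1)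
    (hδ : δ = ε / (3 * r)) (hr2 : 2 ≤ r) (hl : 0 < l) (hL : 0 ≤ L) (hk0 : 0 < k)
    (hk : k ≤ (1 + δ) * l) (hW : (1 - 1 / P - δ) * L ≤ Wt) (hV : a * Wt ≤ k * V) :
    (r - 200 * s - ε) * (L / l) ≤ V := by
  have hδ0 : 0 < δ := by rw [hδ]; positivity
  have hδ1 : δ ≤ 1 / 6 := by
    rw [hδ, div_le_div_iff₀ (by positivity) (by norm_num)]
    nlinarith
  have hrδ : r * δ = ε / 3 := by rw [hδ]; field_simp
  have hP1 : 1 / P ≤ 1 / 200 := by gcongr
  have hx : 0 < 1 - 1 / P - δ := by linarith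
  have hx1 : 1 - 1 / P - δ ≤ 1 := by
    have : 0 < 1 / P := by positivity
    linarith
  have har : a ≤ r := by rw [ha]; linarith
  -- `a x ≥ (r - 200 s - ε) (1 + δ)`
  have h1 : a / P ≤ s := by
    refine le_trans ?_ hrP
    gcongr
  have h2 : (r - 200 * s - ε) * (1 + δ) ≤ a * (1 - 1 / P - δ) := by
    have e1 : a * (1 - 1 / P - δ) = a - a / P - a * δ := by ring
    rw [e1]
    have e2 : a * δ ≤ ε / 3 := by
      rw [← hrδ]; gcongr
    have e3 : (r - 200 * s - ε) * δ ≤ ε / 3 := by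
      rw [← hrδ]
      gcongr
      linarith
    have e4 : (r - 200 * s - ε) * (1 + δ) = r - 200 * s - ε + (r - 200 * s - ε) * δ := by ring
    rw [e4, ha] at *
    linarith
  -- conclusion
  have hV0 : 0 ≤ V := by
    have : 0 ≤ k * V := le_trans (mul_nonneg ha0.le (le_trans (by positivity) hW)) hV
    exact nonneg_of_mul_nonneg_right this hk0
  have h3 : a * ((1 - 1 / P - δ) * L) ≤ k * V := le_trans (by gcongr) hV
  have h4 : k * V ≤ (1 + δ) * l * V := by gcongr
  have h5 : (r - 200 * s - ε) * (1 + δ) * L ≤ (1 + δ) * l * V := by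
    calc (r - 200 * s - ε) * (1 + δ) * L ≤ a * (1 - 1 / P - δ) * L := by gcongr
      _ = a * ((1 - 1 / P - δ) * L) := by ring
      _ ≤ _ := h3.trans h4
  have h6 : (1 + δ) * ((r - 200 * s - ε) * L) ≤ (1 + δ) * (l * V) := by linarith
  have h7 : (r - 200 * s - ε) * L ≤ l * V := le_of_mul_le_mul_left h6 (by linarith)
  rw [← mul_div_assoc, div_le_iff₀ hl]
  linarith

theorem lower {r : ℕ} (hr : 2 ≤ r) {ε : ℝ} (hε : 0 < ε) :
    ∀ᶠ N : ℕ in atTop, ((r : ℝ) - 200 * √((r : ℝ) * Real.log r) - ε) *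
      (Real.log N / Real.log (Real.log N)) ≤ M r N := by
  classical
  set s := √((r : ℝ) * Real.log r) with hsdef
  have hs0 : 0 ≤ s := Real.sqrt_nonneg _
  have hrR : (2 : ℝ) ≤ r := by exact_mod_cast hr
  have hll := Helper16.UB.tendsto_ll
  by_cases hlt : 199 * s < r
  swap
  · filter_upwards [hll.eventually_ge_atTop 1, eventually_ge_atTop 1] with N hN hN1
    refine le_trans ?_ (M_nonneg r N)
    apply mul_nonpos_of_nonpos_of_nonneg
    · linarith
    · apply div_nonneg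
      · exact Real.log_natCast_nonneg N
      · exact le_trans zero_le_one hN
  · obtain ⟨P, hP, hPr, hrP, k0, hk0⟩ := comb_asym hr hlt
    have hPR : (200 : ℝ) ≤ P := by exact_mod_cast hP
    set ε' := min ε 1 with hε'
    have hε'0 : 0 < ε' := lt_min hε one_pos
    set δ := ε' / (3 * (r : ℝ)) with hδdef
    have hδ0 : 0 < δ := by positivity
    filter_upwards [hll.eventually_ge_atTop (1 : ℝ), hll.eventually_ge_atTop (k0 + 1 : ℝ),
      eventually_ge_atTop 1, tail hδ0 hδ0] with N hl1 hlk hN1 ht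
    set k := ⌊(1 + δ) * Real.log (Real.log N)⌋₊ with hkdef
    have hlpos : (0 : ℝ) < Real.log (Real.log N) := lt_of_lt_of_le one_pos hl1
    have hkle : (k : ℝ) ≤ (1 + δ) * Real.log (Real.log N) :=
      Nat.floor_le (by positivity)
    have hkge : k0 + 1 ≤ k := by
      apply Nat.le_floor
      push_cast
      refine hlk.trans ?_
      have : Real.log (Real.log N) ≤ (1 + δ) * Real.log (Real.log N) := by nlinarith
      exact this
    set I := (Icc 1 N).filter (fun a => (∀ p, p.Prime → P < p → ¬ p ^ 2 ∣ a) ∧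
        (Sof P N a).card ≤ k) with hI
    obtain ⟨F, hF1, hF2⟩ := hk0 k (by omega) I (Sof P N) (fun a => 1 / (a : ℝ))
      (fun a _ => by positivity) (fun a ha => (mem_filter.mp ha).2.2)
    have hW := weight_ge (P := P) (N := N) (k := k) (by omega) ht
    have hadm : Admissible ((r - P) + P) N (I.filter fun a => F (Sof P N a)) := by
      refine adm (by omega) F hF1 _ fun a ha => ?_
      rw [mem_filter] at ha
      have h1 := mem_filter.mp ha.1
      have h2 := mem_Icc.mp h1.1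
      exact ⟨h2.1, h2.2, h1.2.1, ha.2⟩
    rw [Nat.sub_add_cancel hPr.le] at hadm
    have hM := le_M hadm
    refine le_trans ?_ hM
    have hfin := real_final (r := r) (s := s) (P := P) (ε := ε') (δ := δ)
      (l := Real.log (Real.log N)) (L := Real.log N) (k := k) (a := (r : ℝ) - 199 * s)
      (V := ∑ n ∈ I.filter (fun a => F (Sof P N a)), 1 / (n : ℝ))
      (Wt := ∑ a ∈ I, 1 / (a : ℝ)) (by linarith) hPR hrP hs0 rfl (by linarith) hε'0
      (min_le_right _ _) hδdef hrR hlpos (Real.log_natCast_nonneg N)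
      (by exact_mod_cast (by omega : 0 < k)) hkle hW hF2
    refine le_trans ?_ hfin
    have h8 : 0 ≤ Real.log N / Real.log (Real.log N) :=
      div_nonneg (Real.log_natCast_nonneg N) hlpos.le
    have h9 : ε' ≤ ε := min_le_left _ _
    gcongr

end Pool.Agent.Helper34.RB
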