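import Pool.Agent.Helper34.RB.Rank

/-!
# RB-09: digits of other loads do not change

Put the proofs into this file (keep the statements and the namespace).
-/

open Finset

namespace Pool.Agent.Helper34.RB

section

variable {X : Type} [LinearOrder X] {n : ℕ} {h : X → Fin n} {T E E' : Finset X} {x y : X}
  {q s : ℕ}

private lemma rk_cell_inv {E : Finset X} {x : X} :
    rk h E x = ((cell h E (h x)).filter (· < x)).card := by
  unfold rk cell
  rw [Finset.filter_filter]

private lemma chs_congr_inv {O U : Finset (Fin n)} (hc : ∀ b ∈ O, cell h E b = cell h E' b)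
    (j : ℕ) : chs h E O j U = chs h E' O j U := by
  ext x
  unfold chs
  simp only [mem_filter]
  by_cases hO : h x ∈ O
  · have h1 := hc _ hO
    have h2 : x ∈ E ↔ x ∈ E' := by
      have h3 : x ∈ cell h E (h x) ↔ x ∈ cell h E' (h x) := by rw [h1]
      simpa only [mem_cell, and_true] using h3
    rw [rk_cell_inv, rk_cell_inv (E := E'), h1, h2]
  · tauto

/-- Proof. `rk h E x = ((cell h E (h x)).filter (· < x)).card` only depends on the cell.  Hence
`chs h E (Os h E s) j U = chs h E' (Os h E' s) j U` for every `U`: an element `x` of the left set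
has `h x ∈ Os h E s`, `x ∈ E`, i.e. `x ∈ cell h E (h x) = cell h E' (h x)`, and the ranks agree. -/
theorem dg_congr (M : Finset X → ZMod q) (hO : Os h E s = Os h E' s)
    (hc : ∀ b ∈ Os h E s, cell h E b = cell h E' b) (j : ℕ) :
    dg h q M s j E = dg h q M s j E' := by
  unfold dg
  rw [← hO]
  exact Finset.sum_congr rfl (fun U _ => by rw [chs_congr_inv hc])

/-- Proof. From `dg_congr` for each digit. -/
theorem Ds_congr {M : ℕ → Finset X → ZMod q} {Φ : (Fin (s - 1) → ZMod q) → ℕ}
    (hO : Os h E s = Os h E' s) (hc : ∀ b ∈ Os h E s, cell h E b = cell h E' b) :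
    Ds h q M s Φ E = Ds h q M s Φ E' := by
  have h1 : dv h q M s E = dv h q M s E' := funext fun j => dg_congr _ hO hc _
  unfold Ds
  rw [h1, hO]

/-- Proof. `Ds_congr`: the cell `h x` has load `t = ld h T (h x) ≠ s` in `T` and `t - 1 ≠ s` in
`T.erase x`, all the others are unchanged (`cell_erase_ne`, `ld_erase_ne`, `ld_erase_self`). -/
theorem Ds_erase_of_ne {M : ℕ → Finset X → ZMod q} {Φ : (Fin (s - 1) → ZMod q) → ℕ} (hx : x ∈ T)
    (h1 : s ≠ ld h T (h x)) (h2 : s + 1 ≠ ld h T (h x)) :
    Ds h q M s Φ (T.erase x) = Ds h q M s Φ T := by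
  have h3 := ld_erase_self (h := h) hx
  apply Ds_congr
  · ext b
    rw [mem_Os, mem_Os]
    by_cases hb : b = h x
    · subst hb
      omega
    · rw [ld_erase_ne hb]
  · intro b hb
    rw [mem_Os] at hb
    apply cell_erase_ne
    rintro rfl
    omega

/-- Proof. `Ds_congr`: the cell `h x = h y` has load `t - 1 ≠ t` in both sets (`t ≥ 1`), all the
other cells agree with those of `T`. -/
theorem Ds_erase_const {t : ℕ} {M : ℕ → Finset X → ZMod q} {Φ : (Fin (t - 1) → ZMod q) → ℕ}
    (hx : x ∈ T) (hy : y ∈ T) (hxy : h x = h y) (ht : t = ld h T (h x)) :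
    Ds h q M t Φ (T.erase x) = Ds h q M t Φ (T.erase y) := by
  have h3 := ld_erase_self (h := h) hx
  have h4 := ld_erase_self (h := h) hy
  apply Ds_congr
  · ext b
    rw [mem_Os, mem_Os]
    by_cases hb : b = h x
    · subst hb
      rw [hxy] at h3 ht ⊢
      omega
    · rw [ld_erase_ne hb, ld_erase_ne (fun h' => hb (h'.trans hxy.symm))]
  · intro b hb
    rw [mem_Os] at hb
    have hb1 : b ≠ h x := by
      rintro rfl
      omega
    rw [cell_erase_ne hb1, cell_erase_ne (fun h' => hb1 (h'.trans hxy.symm))]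

end

end Pool.Agent.Helper34.RB
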