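import Pool.Agent.Helper34.RB.Rank

/-!
# RB-16: the average number of cells of load at least `t`

Put the proofs into this file (keep the statements and the namespace).
-/

open Finset

namespace Pool.Agent.Helper34.RB

section

variable {X : Type} [LinearOrder X] [Fintype X] {n : ℕ}

/-- Proof. Such `h` correspond to the functions on the complement of `A`: e.g. this filter is
`Fintype.piFinset (fun x => if x ∈ A then {b} else univ)` with `∏ x, (if x ∈ A then 1 else n)`
elements (`Fintype.card_piFinset`), and `∏ x, (if x ∈ A then 1 else n) * n ^ A.card = n ^ card X`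
(`Finset.prod_ite`, `Finset.prod_pow_boole`, ...). -/
theorem card_const_on (A : Finset X) (b : Fin n) :
    (univ.filter fun h : X → Fin n => ∀ x ∈ A, h x = b).card * n ^ A.card =
      Fintype.card (X → Fin n) := by
  have h1 : (univ.filter fun h : X → Fin n => ∀ x ∈ A, h x = b) =
      Fintype.piFinset (fun x => if x ∈ A then ({b} : Finset (Fin n)) else univ) := by
    ext h
    simp only [mem_filter, mem_univ, true_and, Fintype.mem_piFinset]
    constructor
    · intro hh x
      split_ifs with hx
      · simp [hh x hx]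
      · simp
    · intro hh x hx
      have := hh x
      rw [if_pos hx] at this
      simpa using this
  rw [h1, Fintype.card_piFinset]
  have h2 : ∀ x : X, (if x ∈ A then ({b} : Finset (Fin n)) else univ).card =
      if x ∈ A then 1 else n := by
    intro x; split_ifs <;> simp
  simp only [h2]
  rw [Finset.prod_ite, Finset.prod_const_one, one_mul, Finset.prod_const, ← pow_add,
    Fintype.card_fun, Fintype.card_fin]
  congr 1
  have h3 : (univ.filter fun x => x ∉ A) = Aᶜ := by ext x; simp
  rw [h3, Finset.card_compl]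
  have := Finset.card_le_univ A
  omega

/-- Proof. If `t ≤ ld h E b` there is a `t`-element subset `A` of `E` with `h = b` on `A`
(`Finset.exists_subset_card_eq` in `cell h E b`), so
`(Bs h E t).card ≤ ∑ b, ∑ A ∈ E.powersetCard t, (if ∀ x ∈ A, h x = b then 1 else 0)`.  Sum over `h`,
exchange the sums, use `card_const_on`: the sum is at most
`n * (E.card.choose t) * (card (X → Fin n) / n ^ t)`, and
`E.card.choose t ≤ E.card ^ t / t! ≤ m ^ t / t!` (`Nat.choose_le_pow_div`,
`Finset.card_powersetCard`). -/
theorem load_avg (hn : 0 < n) {m : ℕ} (E : Finset X) (hE : E.card ≤ m) (t : ℕ) :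
    ∑ h : X → Fin n, ((Bs h E t).card : ℝ) ≤
      (Fintype.card (X → Fin n) : ℝ) * (n * ((m : ℝ) / n) ^ t / t.factorial) := by
  classical
  have hpt : ∀ h : X → Fin n, ((Bs h E t).card : ℝ) ≤
      ∑ b : Fin n, ∑ A ∈ E.powersetCard t, (if ∀ x ∈ A, h x = b then (1 : ℝ) else 0) := by
    intro h
    have : ((Bs h E t).card : ℝ) = ∑ b : Fin n, if t ≤ ld h E b then (1 : ℝ) else 0 := by
      unfold Bs
      rw [Finset.sum_boole]
    rw [this]
    apply Finset.sum_le_sum
    intro b _
    by_cases hb : t ≤ ld h E b
    · rw [if_pos hb]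
      obtain ⟨A, hA1, hA2⟩ := Finset.exists_subset_card_eq (s := cell h E b) hb
      have hAE : A ∈ E.powersetCard t := by
        rw [Finset.mem_powersetCard]
        exact ⟨hA1.trans cell_subset, hA2⟩
      have hAb : ∀ x ∈ A, h x = b := fun x hx => (mem_cell.mp (hA1 hx)).2
      calc (1 : ℝ) = if ∀ x ∈ A, h x = b then (1 : ℝ) else 0 := by rw [if_pos hAb]
        _ ≤ _ := Finset.single_le_sum
            (f := fun A => if ∀ x ∈ A, h x = b then (1 : ℝ) else 0)
            (fun A _ => by split_ifs <;> norm_num) hAE
    · rw [if_neg hb]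
      exact Finset.sum_nonneg fun A _ => by split_ifs <;> norm_num
  have hn' : (0 : ℝ) < n := by exact_mod_cast hn
  set F : ℝ := (Fintype.card (X → Fin n) : ℝ) with hF
  have hF0 : 0 ≤ F := by positivity
  calc ∑ h : X → Fin n, ((Bs h E t).card : ℝ)
      ≤ ∑ h : X → Fin n, ∑ b : Fin n, ∑ A ∈ E.powersetCard t,
          (if ∀ x ∈ A, h x = b then (1 : ℝ) else 0) := Finset.sum_le_sum fun h _ => hpt h
    _ = ∑ b : Fin n, ∑ A ∈ E.powersetCard t, ∑ h : X → Fin n,
          (if ∀ x ∈ A, h x = b then (1 : ℝ) else 0) := by
        rw [Finset.sum_comm]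
        refine Finset.sum_congr rfl fun b _ => ?_
        rw [Finset.sum_comm]
    _ = ∑ b : Fin n, ∑ A ∈ E.powersetCard t, F / (n : ℝ) ^ t := by
        refine Finset.sum_congr rfl fun b _ => Finset.sum_congr rfl fun A hA => ?_
        rw [Finset.sum_boole, eq_div_iff (by positivity), hF]
        have := card_const_on A b
        rw [(Finset.mem_powersetCard.mp hA).2] at this
        exact_mod_cast this
    _ = (n : ℝ) * ((E.card.choose t : ℕ) : ℝ) * (F / (n : ℝ) ^ t) := by
        rw [Finset.sum_const, Finset.sum_const, Finset.card_powersetCard, Finset.card_univ,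
          Fintype.card_fin, nsmul_eq_mul, nsmul_eq_mul, mul_assoc]
    _ ≤ (n : ℝ) * ((m : ℝ) ^ t / t.factorial) * (F / (n : ℝ) ^ t) := by
        have h4 : ((E.card.choose t : ℕ) : ℝ) ≤ (m : ℝ) ^ t / t.factorial := by
          refine (Nat.choose_le_pow_div t E.card).trans ?_
          have : ((E.card : ℕ) : ℝ) ≤ m := by exact_mod_cast hE
          gcongr
        have h5 : 0 ≤ F / (n : ℝ) ^ t := by positivity
        exact mul_le_mul_of_nonneg_right (mul_le_mul_of_nonneg_left h4 hn'.le) h5
    _ = F * (n * ((m : ℝ) / n) ^ t / t.factorial) := by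
        rw [div_pow]
        field_simp

end

end Pool.Agent.Helper34.RB
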