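import Pool.Agent.Helper34.RB.Digit

/-!
# RB-14: multiplicity of the compressed digits inside one cell

Put the proof into this file (keep the statement and the namespace).
-/

open Finset

namespace Pool.Agent.Helper34.RB

open Classical in
/-- Proof. The cell `b` has elements `z 0, …, z s` of ranks `0, …, s` in `T` (`exists_rk`; use
`choose` for `∀ i < s + 1`).  For `j : Fin (s - 1)` let
`A' j = part h q (M (j+1)) s (j+1) T (z (j+1)) - part h q (M (j+1)) s (j+1) T (z j)` and
`B' j = part h q (M (j+1)) s (j+1) T (z (j+2)) - part h q (M (j+1)) s (j+1) T (z (j+1))`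
(note `j + 2 ≤ s`).

Claim: if `x ∈ T`, `h x = b`, `rk h T x = i` then `dv h q M s (T.erase x) = Vv A' B' i`.  Indeed the
element of rank `l` (`l < s`) in the cell `b` of `T.erase x` is `z l` if `l < i` and `z (l + 1)` if
`i ≤ l` (`x = z i`; `rk_erase_of_not`, `rk_erase_of_lt`, `rk_lt_iff`).  Apply `dg_erase` with the
digit number `l = j + 1`, `c1` the element of rank `j + 1`, `c0` the one of rank `j`:
* `j + 1 < i`: `c1 = z (j+1)`, `c0 = z j`: the digit is `A' j`.
* `j + 1 = i`: `c1 = z (j+2)`, `c0 = z j`: the digit is `A' j + B' j`.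
* `i < j + 1`, i.e. `i ≤ j`: `c1 = z (j+2)`, `c0 = z (j+1)`: the digit is `B' j`.

Moreover `b ∈ Os h (T.erase x) s`, so `Os h (T.erase x) s ≠ ∅` (nonempty): `Ds` is
`Φ (dv h q M s (T.erase x))` and `NZ` says that no digit is zero.  So the injective (`rk_inj`) map
`x ↦ rk h T x` sends the set into
`(range (s + 1)).filter fun i => (∀ j, Vv A' B' i j ≠ 0) ∧ Φ (Vv A' B' i) = w`, which has at most `A`
elements by `hΦ.2` (`Finset.card_le_card_of_injOn`). -/
theorem mult_cell {X : Type} [LinearOrder X] {n : ℕ} {h : X → Fin n} {T : Finset X}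
    {q s R A : ℕ} {M : ℕ → Finset X → ZMod q} {Φ : (Fin (s - 1) → ZMod q) → ℕ}
    (hΦ : Compr q s R A Φ) {b : Fin n} (hb : ld h T b = s + 1) (w : ℕ) :
    (T.filter fun x => h x = b ∧ NZ h q M s (T.erase x) ∧
      Ds h q M s Φ (T.erase x) = w).card ≤ A := by
  have hz : ∀ i, ∃ z, i < s + 1 → z ∈ T ∧ h z = b ∧ rk h T z = i := by
    intro i
    by_cases hi : i < s + 1
    · obtain ⟨z, h1, h2, h3⟩ := exists_rk (E := T) (h := h) (b := b) (i := i) (by rw [hb]; exact hi)
      exact ⟨z, fun _ => ⟨h1, h2, h3⟩⟩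
    · obtain ⟨z, -, -, -⟩ := exists_rk (E := T) (h := h) (b := b) (i := 0)
        (by rw [hb]; exact Nat.succ_pos s)
      exact ⟨z, fun h => absurd h hi⟩
  choose z hz using hz
  -- the element of rank `l` after the deletion of `x`
  have hel : ∀ x ∈ T, h x = b → ∀ l, l < s → ∀ i, rk h T x = i →
      (if l < i then z l else z (l + 1)) ∈ T.erase x ∧
      h (if l < i then z l else z (l + 1)) = b ∧
      rk h (T.erase x) (if l < i then z l else z (l + 1)) = l := by
    intro x hx hxb l hl i hi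
    by_cases hli : l < i
    · rw [if_pos hli]
      obtain ⟨h1, h2, h3⟩ := hz l (by omega)
      have hne : z l ≠ x := by
        intro h
        rw [h] at h3
        omega
      have hlt : z l < x := by
        rw [← rk_lt_iff h1 hx (h2.trans hxb.symm), h3, hi]
        exact hli
      refine ⟨mem_erase.mpr ⟨hne, h1⟩, h2, ?_⟩
      rw [rk_erase_of_not, h3]
      rintro ⟨-, h⟩
      exact lt_asymm h hlt
    · rw [if_neg hli]
      obtain ⟨h1, h2, h3⟩ := hz (l + 1) (by omega)
      have hlt : x < z (l + 1) := by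
        rw [← rk_lt_iff hx h1 (hxb.trans h2.symm), h3, hi]
        omega
      refine ⟨mem_erase.mpr ⟨hlt.ne', h1⟩, h2, ?_⟩
      have h4 := rk_erase_of_lt hx (h2.trans hxb.symm) hlt
      omega
  set P : ℕ → Fin (s - 1) → ZMod q :=
    fun l j => part h q (M ((j : ℕ) + 1)) s ((j : ℕ) + 1) T (z l) with hP
  set A' : Fin (s - 1) → ZMod q := fun j => P ((j : ℕ) + 1) j - P (j : ℕ) j with hA'
  set B' : Fin (s - 1) → ZMod q := fun j => P ((j : ℕ) + 2) j - P ((j : ℕ) + 1) j with hB'
  have hdv : ∀ x ∈ T, h x = b → dv h q M s (T.erase x) = Vv A' B' (rk h T x) := by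
    intro x hx hxb
    funext j
    have hj := j.2
    set i := rk h T x with hi
    obtain ⟨a1, a2, a3⟩ := hel x hx hxb (j : ℕ) (by omega) i rfl
    obtain ⟨b1, b2, b3⟩ := hel x hx hxb ((j : ℕ) + 1) (by omega) i rfl
    have hd := dg_erase (h := h) (T := T) (x := x) (q := q) (s := s) (j := (j : ℕ) + 1)
      (M ((j : ℕ) + 1)) hx (by rw [hxb]; exact hb) (c0 := if (j : ℕ) < i then z j else z ((j : ℕ) + 1))
      (c1 := if (j : ℕ) + 1 < i then z ((j : ℕ) + 1) else z ((j : ℕ) + 1 + 1))
      a1 (a2.trans hxb.symm) (by rw [a3]; rfl) b1 (b2.trans hxb.symm) b3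
    change dg h q (M ((j : ℕ) + 1)) s ((j : ℕ) + 1) (T.erase x) = _
    rw [hd]
    unfold Vv
    by_cases h1 : (j : ℕ) + 1 < i
    · rw [if_pos h1, if_pos (by omega : (j : ℕ) < i), if_pos h1]
    · by_cases h2 : (j : ℕ) + 1 = i
      · rw [if_neg h1, if_pos (by omega : (j : ℕ) < i), if_neg h1, if_pos h2]
        rw [hA', hB', hP]
        simp only
        ring
      · rw [if_neg h1, if_neg (by omega : ¬ (j : ℕ) < i), if_neg h1, if_neg h2]
  refine le_trans ?_ (hΦ.2 A' B' w)
  apply Finset.card_le_card_of_injOn (fun x => rk h T x)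
  · intro x hx
    have hx' := (mem_filter.mp (mem_coe.mp hx))
    obtain ⟨hxT, hxb, hNZ, hDs⟩ := hx'
    have hlt : rk h T x < s + 1 := by
      have := rk_lt_ld (h := h) hxT
      rw [hxb, hb] at this
      exact this
    have hOs : b ∈ Os h (T.erase x) s := by
      rw [mem_Os]
      have := ld_erase_self (h := h) hxT
      rw [hxb, hb] at this
      omega
    have hne : (Os h (T.erase x) s).Nonempty := ⟨b, hOs⟩
    have h1 := hNZ hne
    have h2 : Φ (dv h q M s (T.erase x)) = w := by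
      unfold Ds at hDs
      rw [if_neg hne.ne_empty] at hDs
      exact hDs
    rw [hdv x hxT hxb] at h1 h2
    exact mem_coe.mpr (mem_filter.mpr ⟨mem_range.mpr hlt, h1, h2⟩)
  · intro x hx y hy hxy
    obtain ⟨hxT, hxb, -, -⟩ := (mem_filter.mp (mem_coe.mp hx))
    obtain ⟨hyT, hyb, -, -⟩ := (mem_filter.mp (mem_coe.mp hy))
    exact rk_inj hxT hyT (hxb.trans hyb.symm) hxy

end Pool.Agent.Helper34.RB
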