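import Pool.Agent.Helper34.RB.Rank

/-!
# RB-07: the addresses of two cells differ by at least `w t`

Put the proofs into this file (keep the statements and the namespace).
-/

open Finset

namespace Pool.Agent.Helper34.RB

section

variable {X : Type} [LinearOrder X] {n : ℕ} {h : X → Fin n} {T : Finset X} {w : ℕ → ℕ} {t : ℕ}
  {b b' : Fin n}

/-- Proof. `before h T t (t - 1) b' + 1 ≤ before h T t (t - 1) b`: the set counted by
`before h T t (t - 1) b` contains all `b''` counted by `before h T t (t - 1) b'` (`dir_trans`) and
also `b'` itself (its load is `≥ t - 1`), which is not counted by `before h T t (t - 1) b'`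
(`dir_irrefl`).  And `before h T t (t + 1) b' ≤ before h T t (t + 1) b` by `dir_trans`. -/
theorem addr_gap (hb' : t ≤ ld h T b' + 1) (hd : dir t b b') :
    addr h w T t b' + w t ≤ addr h w T t b := by
  have h1 : before h T t (t - 1) b' + 1 ≤ before h T t (t - 1) b := by
    unfold before
    have hnot : b' ∉ (Bs h T (t - 1)).filter fun b'' => dir t b' b'' := by
      simp only [Finset.mem_filter, not_and]
      exact fun _ => dir_irrefl
    rw [← Finset.card_insert_of_notMem hnot]
    apply Finset.card_le_card
    intro c hc
    rw [Finset.mem_insert, Finset.mem_filter] at hc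
    rw [Finset.mem_filter]
    rcases hc with rfl | ⟨hc1, hc2⟩
    · exact ⟨mem_Bs.mpr (by omega), hd⟩
    · exact ⟨hc1, dir_trans hd hc2⟩
  have h2 : before h T t (t + 1) b' ≤ before h T t (t + 1) b := by
    unfold before
    apply Finset.card_le_card
    intro c hc
    rw [Finset.mem_filter] at hc ⊢
    exact ⟨hc.1, dir_trans hd hc.2⟩
  unfold addr
  have h3 := Nat.mul_le_mul_left (w t) h1
  have h4 := Nat.mul_le_mul_left (w (t + 1)) h2
  rw [Nat.mul_add, Nat.mul_one] at h3
  omega

/-- Proof. `before` counts a subset of `Bs` (`Finset.card_filter_le`). -/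
theorem addr_le {N1 N2 : ℕ} (h1 : (Bs h T (t - 1)).card ≤ N1) (h2 : (Bs h T (t + 1)).card ≤ N2) :
    addr h w T t b ≤ w t * N1 + w (t + 1) * N2 := by
  unfold addr before
  exact Nat.add_le_add
    (Nat.mul_le_mul_left _ ((Finset.card_filter_le _ _).trans h1))
    (Nat.mul_le_mul_left _ ((Finset.card_filter_le _ _).trans h2))

end

end Pool.Agent.Helper34.RB
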