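import Pool.Agent.Helper34.RB.Defs

/-!
# Ranks in a cell (library of project RB)
-/

open Finset

namespace Pool.Agent.Helper34.RB

section

variable {X κ : Type} [LinearOrder X] [DecidableEq κ] {h : X → κ} {E T : Finset X} {x y z : X}

lemma mem_cell {b : κ} : x ∈ cell h E b ↔ x ∈ E ∧ h x = b := by
  simp [cell]

lemma cell_subset {b : κ} : cell h E b ⊆ E := Finset.filter_subset _ _

lemma rk_lt_ld (hx : x ∈ E) : rk h E x < ld h E (h x) := by
  unfold rk ld
  apply Finset.card_lt_card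
  refine ⟨fun y hy => ?_, fun hs => ?_⟩
  · rw [mem_filter] at hy
    exact mem_cell.mpr ⟨hy.1, hy.2.1⟩
  · have := hs (mem_cell.mpr ⟨hx, rfl⟩)
    rw [mem_filter] at this
    exact lt_irrefl _ this.2.2

lemma ld_pos (hx : x ∈ E) : 0 < ld h E (h x) := lt_of_le_of_lt (Nat.zero_le _) (rk_lt_ld hx)

lemma rk_lt_rk (hx : x ∈ E) (hxy : h x = h y) (hlt : x < y) : rk h E x < rk h E y := by
  unfold rk
  apply Finset.card_lt_card
  refine ⟨fun z hz => ?_, fun hs => ?_⟩
  · rw [mem_filter] at hz ⊢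
    exact ⟨hz.1, hz.2.1.trans hxy, hz.2.2.trans hlt⟩
  · have := hs (mem_filter.mpr ⟨hx, hxy, hlt⟩)
    rw [mem_filter] at this
    exact lt_irrefl _ this.2.2

lemma rk_lt_iff (hx : x ∈ E) (hy : y ∈ E) (hxy : h x = h y) : rk h E x < rk h E y ↔ x < y := by
  refine ⟨fun hlt => ?_, rk_lt_rk hx hxy⟩
  rcases lt_trichotomy x y with h1 | h1 | h1
  · exact h1
  · rw [h1] at hlt; exact absurd hlt (lt_irrefl _)
  · exact absurd hlt (not_lt.mpr (rk_lt_rk hy hxy.symm h1).le)

lemma rk_inj (hx : x ∈ E) (hy : y ∈ E) (hxy : h x = h y) (hr : rk h E x = rk h E y) : x = y := by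
  rcases lt_trichotomy x y with h1 | h1 | h1
  · exact absurd hr (rk_lt_rk hx hxy h1).ne
  · exact h1
  · exact absurd hr (rk_lt_rk hy hxy.symm h1).ne'

lemma exists_rk {b : κ} {i : ℕ} (hi : i < ld h E b) : ∃ x ∈ E, h x = b ∧ rk h E x = i := by
  have himg : (cell h E b).image (rk h E) = range (ld h E b) := by
    apply Finset.eq_of_subset_of_card_le
    · intro j hj
      obtain ⟨y, hy, rfl⟩ := mem_image.mp hj
      obtain ⟨hy1, hy2⟩ := mem_cell.mp hy
      rw [mem_range, ← hy2]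
      exact rk_lt_ld hy1
    · rw [card_range, Finset.card_image_of_injOn]
      · rfl
      · intro y hy z hz hyz
        obtain ⟨hy1, hy2⟩ := mem_cell.mp (mem_coe.mp hy)
        obtain ⟨hz1, hz2⟩ := mem_cell.mp (mem_coe.mp hz)
        exact rk_inj hy1 hz1 (hy2.trans hz2.symm) hyz
  have : i ∈ (cell h E b).image (rk h E) := by rw [himg]; exact mem_range.mpr hi
  obtain ⟨y, hy, hyi⟩ := mem_image.mp this
  exact ⟨y, (mem_cell.mp hy).1, (mem_cell.mp hy).2, hyi⟩

lemma cell_erase_self : cell h (T.erase x) (h x) = (cell h T (h x)).erase x := by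
  ext y; simp only [mem_cell, mem_erase]; tauto

lemma cell_erase_ne {b : κ} (hb : b ≠ h x) : cell h (T.erase x) b = cell h T b := by
  ext y; simp only [mem_cell, mem_erase]
  refine ⟨fun hy => ⟨hy.1.2, hy.2⟩, fun hy => ⟨⟨?_, hy.1⟩, hy.2⟩⟩
  rintro rfl
  exact hb hy.2.symm

lemma ld_erase_self (hx : x ∈ T) : ld h (T.erase x) (h x) + 1 = ld h T (h x) := by
  unfold ld
  rw [cell_erase_self, Finset.card_erase_add_one (mem_cell.mpr ⟨hx, rfl⟩)]

lemma ld_erase_ne {b : κ} (hb : b ≠ h x) : ld h (T.erase x) b = ld h T b := by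
  unfold ld; rw [cell_erase_ne hb]

lemma ld_erase_le {b : κ} : ld h (T.erase x) b ≤ ld h T b := by
  unfold ld cell
  exact Finset.card_le_card (Finset.filter_subset_filter _ (Finset.erase_subset _ _))

lemma ld_le_erase {b : κ} : ld h T b ≤ ld h (T.erase x) b + 1 := by
  by_cases hx : x ∈ T
  · by_cases hb : b = h x
    · subst hb; rw [ld_erase_self hx]
    · rw [ld_erase_ne hb]; omega
  · rw [Finset.erase_eq_of_notMem hx]; omega

/-- ranks after the deletion of `x`: elements of other cells, or smaller than `x` -/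
lemma rk_erase_of_not (hy : ¬ (h y = h x ∧ x < y)) : rk h (T.erase x) y = rk h T y := by
  unfold rk
  congr 1
  ext z
  simp only [mem_filter, mem_erase]
  refine ⟨fun hz => ⟨hz.1.2, hz.2⟩, fun hz => ⟨⟨?_, hz.1⟩, hz.2⟩⟩
  rintro rfl
  exact hy ⟨hz.2.1.symm, hz.2.2⟩

/-- ranks after the deletion of `x`: larger elements of the same cell -/
lemma rk_erase_of_lt (hx : x ∈ T) (hxy : h y = h x) (hlt : x < y) :
    rk h (T.erase x) y + 1 = rk h T y := by
  unfold rk
  have h1 : (T.erase x).filter (fun z => h z = h y ∧ z < y) =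
      (T.filter (fun z => h z = h y ∧ z < y)).erase x := by
    ext z; simp only [mem_filter, mem_erase]; tauto
  rw [h1, Finset.card_erase_add_one (mem_filter.mpr ⟨hx, hxy.symm, hlt⟩)]

lemma rk_erase_le : rk h (T.erase x) y ≤ rk h T y := by
  unfold rk
  exact Finset.card_le_card (Finset.filter_subset_filter _ (Finset.erase_subset _ _))

end

section

variable {X : Type} [LinearOrder X] {n : ℕ} {h : X → Fin n} {E T : Finset X} {x : X}

lemma mem_Bs {t : ℕ} {b : Fin n} : b ∈ Bs h E t ↔ t ≤ ld h E b := by simp [Bs]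

lemma mem_Os {t : ℕ} {b : Fin n} : b ∈ Os h E t ↔ ld h E b = t := by simp [Os]

lemma Os_subset_Bs {t : ℕ} : Os h E t ⊆ Bs h E t := fun b hb => by
  rw [mem_Os] at hb; rw [mem_Bs]; omega

lemma Bs_anti {t u : ℕ} (htu : t ≤ u) : Bs h E u ⊆ Bs h E t := fun b hb => by
  rw [mem_Bs] at hb ⊢; omega

lemma Bs_zero : Bs h E 0 = univ := by ext b; simp [mem_Bs]

lemma dir_iff (t : ℕ) (b b' : Fin n) : dir t b b' ↔ (if t % 2 = 1 then b' < b else b < b') :=
  Iff.rfl

lemma dir_succ (t : ℕ) (b b' : Fin n) : dir (t + 1) b' b ↔ dir t b b' := by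
  unfold dir
  rcases Nat.mod_two_eq_zero_or_one t with h0 | h0
  · have : (t + 1) % 2 = 1 := by omega
    rw [if_pos this, if_neg (by omega)]
  · have : ¬ (t + 1) % 2 = 1 := by omega
    rw [if_neg this, if_pos h0]

lemma dir_trans {t : ℕ} {a b c : Fin n} (h1 : dir t a b) (h2 : dir t b c) : dir t a c := by
  unfold dir at *
  split_ifs at * with h0
  · exact lt_trans h2 h1
  · exact lt_trans h1 h2

lemma dir_irrefl {t : ℕ} {a : Fin n} : ¬ dir t a a := by
  unfold dir; split_ifs <;> exact lt_irrefl _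

lemma dir_total {t : ℕ} {a b : Fin n} (hab : a ≠ b) : dir t a b ∨ dir t b a := by
  unfold dir
  split_ifs
  · exact (lt_or_gt_of_ne hab).symm
  · exact lt_or_gt_of_ne hab

end

end Pool.Agent.Helper34.RB
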