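import Pool.Agent.Helper34.RB.Rank

/-!
# RB-06: the static potential after a deletion

Put the proofs into this file (keep the statements and the namespace).
-/

open Finset

namespace Pool.Agent.Helper34.RB

section

variable {X : Type} [LinearOrder X] {n : ℕ} {h : X → Fin n} {T : Finset X} {x : X}

/-- Proof. `ext b`, `mem_Bs`; for `b ≠ h x` the loads agree (`ld_erase_ne`), for `b = h x` the load
drops from `t = ld h T (h x)` to `t - 1` (`ld_erase_self`), and `u ≤ t - 1 ↔ u ≤ t` as `u ≠ t`. -/
theorem Bs_erase_ne (hx : x ∈ T) {u : ℕ} (hu : u ≠ ld h T (h x)) :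
    Bs h (T.erase x) u = Bs h T u := by
  ext b
  rw [mem_Bs, mem_Bs]
  by_cases hb : b = h x
  · subst hb
    have := ld_erase_self (h := h) hx
    omega
  · rw [ld_erase_ne hb]

/-- Proof. As above: for `b = h x`, `t ≤ t - 1` is false. -/
theorem Bs_erase_self (hx : x ∈ T) :
    Bs h (T.erase x) (ld h T (h x)) = (Bs h T (ld h T (h x))).erase (h x) := by
  ext b
  rw [mem_erase, mem_Bs, mem_Bs]
  by_cases hb : b = h x
  · subst hb
    have := ld_erase_self (h := h) hx
    constructor
    · intro h1
      omega
    · intro h1
      exact absurd rfl h1.1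
  · rw [ld_erase_ne hb]
    exact ⟨fun h1 => ⟨hb, h1⟩, fun h1 => h1.2⟩

/-- Proof. Let `t = ld h T (h x) ≥ 1` (`ld_pos`) and `b = h x`, `E = T.erase x`.  Compare the terms
`u` of the two sums over `Icc 1 (TM + 1)`:
* `u ≠ t`, `u ≠ t + 1`: `Bs` of `u` and of `u - 1` agree (`u - 1 ≠ t` since `u ≠ t + 1`, `u ≥ 1`), so
  the terms agree (`Psi`, `before` only use these).
* `u = t`: `(Bs h T t).card = (Bs h E t).card + 1` (`b ∈ Bs h T t`), and
  `Psi h T t = Psi h E t + before h T t (t - 1) b` (`Bs h T (t - 1) = Bs h E (t - 1)`, split off the
  term `b` of the sum over `Bs h T t`).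
* `u = t + 1`: `Bs h T (t + 1) = Bs h E (t + 1)`, and for every `b₁ ∈ Bs h T (t + 1)`:
  `before h T (t + 1) t b₁ = before h E (t + 1) t b₁ + (if dir (t + 1) b₁ b then 1 else 0)`
  (`b ∈ Bs h T t`, `Bs h E t = (Bs h T t).erase b`), so `Psi h T (t + 1) = Psi h E (t + 1) +`
  (number of `b₁ ∈ Bs h T (t + 1)` with `dir (t + 1) b₁ b`), and this number is
  `before h T t (t + 1) b` by `dir_succ`.
Both `t` and `t + 1` are in `Icc 1 (TM + 1)`.  Sum up (`addr` is defined by these two numbers). -/
theorem stat_erase {C w : ℕ → ℕ} {TM : ℕ} (hx : x ∈ T) (ht : ld h T (h x) ≤ TM) :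
    stat h C w TM T = stat h C w TM (T.erase x) +
      (C (ld h T (h x)) + addr h w T (ld h T (h x)) (h x)) := by
  have hpos : 0 < ld h T (h x) := ld_pos hx
  have hne : ∀ u, u ≠ ld h T (h x) → Bs h (T.erase x) u = Bs h T u := fun u hu => Bs_erase_ne hx hu
  have hself := Bs_erase_self (h := h) hx
  have hmem : h x ∈ Bs h T (ld h T (h x)) := mem_Bs.mpr le_rfl
  unfold addr
  generalize ld h T (h x) = t at *
  generalize h x = b at *
  have hterm : ∀ u ∈ Icc 1 (TM + 1), C u * (Bs h T u).card + w u * Psi h T u =
      (C u * (Bs h (T.erase x) u).card + w u * Psi h (T.erase x) u) +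
        ((if u = t then C t + w t * before h T t (t - 1) b else 0) +
          (if u = t + 1 then w (t + 1) * before h T t (t + 1) b else 0)) := by
    intro u hu
    rw [mem_Icc] at hu
    by_cases h1 : u = t
    · subst h1
      rw [if_pos rfl, if_neg (by omega), add_zero, hself]
      have hc : (Bs h T u).card = ((Bs h T u).erase b).card + 1 :=
        (Finset.card_erase_add_one hmem).symm
      have hP : Psi h T u = Psi h (T.erase x) u + before h T u (u - 1) b := by
        unfold Psi
        rw [← Finset.sum_erase_add _ _ hmem, hself]
        congr 1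
        apply Finset.sum_congr rfl
        intro b' _
        unfold before
        rw [hne (u - 1) (by omega)]
      rw [hc, hP]
      ring
    · by_cases h2 : u = t + 1
      · subst h2
        rw [if_neg (by omega), if_pos rfl, zero_add, hne (t + 1) (by omega)]
        have hP : Psi h T (t + 1) = Psi h (T.erase x) (t + 1) + before h T t (t + 1) b := by
          have hb : ∀ b1, before h T (t + 1) t b1 = before h (T.erase x) (t + 1) t b1 +
              (if dir (t + 1) b1 b then 1 else 0) := by
            intro b1
            unfold before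
            rw [Finset.card_filter, Finset.card_filter, hself, Finset.sum_erase_add _ _ hmem]
          have hb' : before h T t (t + 1) b =
              ∑ b1 ∈ Bs h T (t + 1), (if dir (t + 1) b1 b then 1 else 0) := by
            unfold before
            rw [Finset.card_filter]
            apply Finset.sum_congr rfl
            intro b1 _
            simp only [dir_succ]
          unfold Psi
          rw [hb', hne (t + 1) (by omega), ← Finset.sum_add_distrib, Nat.add_sub_cancel]
          apply Finset.sum_congr rfl
          intro b1 _
          exact hb b1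
        rw [hP]
        ring
      · rw [if_neg h1, if_neg h2, add_zero, add_zero, hne u h1]
        have hP : Psi h T u = Psi h (T.erase x) u := by
          unfold Psi
          rw [hne u h1]
          apply Finset.sum_congr rfl
          intro b' _
          unfold before
          rw [hne (u - 1) (by omega)]
        rw [hP]
  have hsum : ∑ u ∈ Icc 1 (TM + 1), ((if u = t then C t + w t * before h T t (t - 1) b else 0) +
      (if u = t + 1 then w (t + 1) * before h T t (t + 1) b else 0)) =
      (C t + w t * before h T t (t - 1) b) + w (t + 1) * before h T t (t + 1) b := by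
    rw [Finset.sum_add_distrib, Finset.sum_ite_eq', Finset.sum_ite_eq',
      if_pos (by rw [mem_Icc]; omega), if_pos (by rw [mem_Icc]; omega)]
  unfold stat
  rw [Finset.sum_congr rfl hterm,
    Finset.sum_add_distrib (g := fun u => (if u = t then C t + w t * before h T t (t - 1) b else 0) +
      (if u = t + 1 then w (t + 1) * before h T t (t + 1) b else 0)), hsum, add_assoc (C t)]

end

end Pool.Agent.Helper34.RB
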