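import Pool.Agent.Helper34.RB.Defs

/-!
# RB-11: no three children without zero digits agree

Put the proofs into this file (keep the statements and the namespace).
-/

open Finset

namespace Pool.Agent.Helper34.RB

/-- Proof. Evaluate at the index `j = i' - 1 : Fin (s - 1)` (`i' ≥ 1` as `i < i'`, and `i' < s` as
`i' < i'' ≤ s`), i.e. `j + 1 = i'`.  `Vv a b i j = b j` (since `i < j + 1`),
`Vv a b i' j = a j + b j`, so `he` gives `a j = 0`.  But `Vv a b i'' j = a j` (since `j + 1 < i''`),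
contradiction to `hv`. -/
theorem Vv_three {q s : ℕ} (a b : Fin (s - 1) → ZMod q) {i i' i'' : ℕ} (h1 : i < i')
    (h2 : i' < i'') (h3 : i'' ≤ s) (hv : ∀ j, Vv a b i'' j ≠ 0) (he : Vv a b i = Vv a b i') :
    False := by
  have hj : i' - 1 < s - 1 := by omega
  have h4 := congrFun he ⟨i' - 1, hj⟩
  have h5 := hv ⟨i' - 1, hj⟩
  have e1 : ¬ (i' - 1 + 1 < i) := by omega
  have e2 : ¬ (i' - 1 + 1 = i) := by omega
  have e3 : ¬ (i' - 1 + 1 < i') := by omega
  have e4 : i' - 1 + 1 = i' := by omega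
  have e5 : i' - 1 + 1 < i'' := by omega
  simp only [Vv] at h4 h5
  rw [if_neg e1, if_neg e2, if_neg e3, if_pos e4] at h4
  rw [if_pos e5] at h5
  apply h5
  have h6 : a ⟨i' - 1, hj⟩ + b ⟨i' - 1, hj⟩ = 0 + b ⟨i' - 1, hj⟩ := by
    rw [zero_add]
    exact h4.symm
  exact add_right_cancel h6

open Classical in
/-- A vector occurs at most twice among the children without zero entry.

Proof. If a set of natural numbers has at least three elements, take its smallest elements
`i < i' < i''` (`Finset.two_lt_card`: three pairwise different elements; order them) and apply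
`Vv_three`. -/
theorem Vv_fib {q s : ℕ} (a b : Fin (s - 1) → ZMod q) (v : Fin (s - 1) → ZMod q) :
    ((range (s + 1)).filter fun i => (∀ j, Vv a b i j ≠ 0) ∧ Vv a b i = v).card ≤ 2 := by
  by_contra hc
  push Not at hc
  obtain ⟨x, y, z, hx, hy, hz, hxy, hxz, hyz⟩ := Finset.two_lt_card_iff.1 hc
  rw [mem_filter, mem_range] at hx hy hz
  have key : ∀ i i' i'' : ℕ, i < i' → i' < i'' → i'' < s + 1 → (∀ j, Vv a b i'' j ≠ 0) →
      Vv a b i = v → Vv a b i' = v → False := fun i i' i'' h1 h2 h3 h4 h5 h6 =>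
    Vv_three a b h1 h2 (by omega) h4 (h5.trans h6.symm)
  rcases lt_or_gt_of_ne hxy with h1 | h1 <;> rcases lt_or_gt_of_ne hxz with h2 | h2 <;>
    rcases lt_or_gt_of_ne hyz with h3 | h3
  · exact key x y z h1 h3 hz.1 hz.2.1 hx.2.2 hy.2.2
  · exact key x z y h2 h3 hy.1 hy.2.1 hx.2.2 hz.2.2
  · omega
  · exact key z x y h2 h1 hy.1 hy.2.1 hz.2.2 hx.2.2
  · exact key y x z h1 h2 hz.1 hz.2.1 hy.2.2 hx.2.2
  · omega
  · exact key y z x h3 h2 hx.1 hx.2.1 hy.2.2 hz.2.2
  · exact key z y x h3 h1 hx.1 hx.2.1 hz.2.2 hy.2.2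

end Pool.Agent.Helper34.RB
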